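import Pool.Agent.Lib.MP_60fb2a_nt.An.Spec

set_option autoImplicit false

namespace Pool.Agent.Lib.NagA

open Polynomial Finset Classical

theorem Nss_split (n : ℕ) (f : ℕ → ℝ) : ∑ p ∈ (Finset.range (n + 1)).filter Nat.Prime, f p =
    ∑ p ∈ OP n, f p + (if 2 ≤ n then f 2 else 0) := by
  rw [← Finset.sum_filter_add_sum_filter_not _ (fun p => p ≠ 2), Finset.filter_filter]
  congr 1
  split_ifs with h
  · have : ((Finset.range (n + 1)).filter Nat.Prime).filter (fun p => ¬ p ≠ 2) = {2} := by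
      ext p
      simp only [Finset.mem_filter, Finset.mem_range, ne_eq, not_not, Finset.mem_singleton]
      constructor
      · exact fun h => h.2
      · rintro rfl
        exact ⟨⟨by omega, Nat.prime_two⟩, rfl⟩
    rw [this, Finset.sum_singleton]
  · have : ((Finset.range (n + 1)).filter Nat.Prime).filter (fun p => ¬ p ≠ 2) = ∅ := by
      ext p
      simp only [Finset.mem_filter, Finset.mem_range, ne_eq, not_not, Finset.notMem_empty, iff_false]
      rintro ⟨⟨h1, -⟩, rfl⟩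
      omega
    rw [this, Finset.sum_empty]

/-- the number of solutions in the fibre over `t` -/
noncomputable def Nss_cnt (A B : ℤ[X]) (p t : ℕ) : ℕ :=
  ((Finset.range p ×ˢ Finset.range p).filter
      (fun xy : ℕ × ℕ => (p : ℤ) ∣ (xy.2 : ℤ) ^ 2 -
        ((xy.1 : ℤ) ^ 3 + A.eval (t : ℤ) * (xy.1 : ℤ) + B.eval (t : ℤ)))).card

theorem Nss_av (A B : ℤ[X]) (p : ℕ) :
    Av A B p = (1 / (p : ℝ)) * ∑ t ∈ Finset.range p, ((p : ℝ) - (Nss_cnt A B p t : ℝ)) := rfl

theorem Nss_cnt_le (A B : ℤ[X]) (p t : ℕ) : Nss_cnt A B p t ≤ p * p := by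
  unfold Nss_cnt
  refine le_trans (Finset.card_filter_le _ _) ?_
  rw [Finset.card_product, Finset.card_range]

theorem Nss_av2 (A B : ℤ[X]) : |Av A B 2| ≤ 2 := by
  rw [Nss_av, Nat.cast_ofNat]
  have h : ∀ t ∈ Finset.range 2, |(2 : ℝ) - (Nss_cnt A B 2 t : ℝ)| ≤ 2 := by
    intro t _
    have h2 : (Nss_cnt A B 2 t : ℝ) ≤ 4 := by
      have := Nss_cnt_le A B 2 t
      exact_mod_cast this
    rw [abs_le]
    have h3 : (0 : ℝ) ≤ (Nss_cnt A B 2 t : ℝ) := Nat.cast_nonneg _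
    constructor
    · linarith
    · linarith
  rw [abs_mul]
  have h4 : |∑ t ∈ Finset.range 2, ((2 : ℝ) - (Nss_cnt A B 2 t : ℝ))| ≤ 4 := by
    refine le_trans (Finset.abs_sum_le_sum_abs _ _) ?_
    refine le_trans (Finset.sum_le_sum h) ?_
    rw [Finset.sum_const, Finset.card_range]
    norm_num
  have h5 : |(1 / (2 : ℝ))| = 1 / 2 := abs_of_pos (by norm_num)
  rw [h5]
  linarith

theorem tNss (hT : TwsStmt) : NssStmt := by
  intro A B d X hX
  have hX0 : 0 < X := by linarith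
  unfold NS SX
  rw [Nss_split]
  have h1 : ∑ p ∈ OP ⌊X⌋₊, Av (twA d A) (twB d B) p * Real.log p =
      ∑ p ∈ OP ⌊X⌋₊, Av A B p * jc d p * Real.log p := by
    apply Finset.sum_congr rfl
    intro p hp
    obtain ⟨-, h2, h3⟩ := Finset.mem_filter.1 hp
    rw [hT A B d p h2 h3]
    ring
  rw [h1]
  set U := ∑ p ∈ OP ⌊X⌋₊, Av A B p * jc d p * Real.log p with hU
  have h2 : -(1 / X) * (U + (if 2 ≤ ⌊X⌋₊ then Av (twA d A) (twB d B) 2 * Real.log ((2 : ℕ) : ℝ) else 0)) + 1 / X * U =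
      -(1 / X) * (if 2 ≤ ⌊X⌋₊ then Av (twA d A) (twB d B) 2 * Real.log ((2 : ℕ) : ℝ) else 0) := by
    ring
  rw [h2, abs_mul, abs_neg, abs_of_pos (by positivity : 0 < 1 / X)]
  have h3 : |(if 2 ≤ ⌊X⌋₊ then Av (twA d A) (twB d B) 2 * Real.log ((2 : ℕ) : ℝ) else 0)| ≤ 4 := by
    split_ifs
    · rw [abs_mul]
      have h4 : |Real.log ((2 : ℕ) : ℝ)| ≤ 1 := by
        rw [abs_of_nonneg (Real.log_nonneg (by norm_num))]
        push_cast
        have := Real.log_two_lt_d9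
        linarith
      calc |Av (twA d A) (twB d B) 2| * |Real.log ((2 : ℕ) : ℝ)| ≤ 2 * 1 :=
            mul_le_mul (Nss_av2 _ _) h4 (abs_nonneg _) (by norm_num)
        _ ≤ 4 := by norm_num
    · simp
  calc 1 / X * |(if 2 ≤ ⌊X⌋₊ then Av (twA d A) (twB d B) 2 * Real.log ((2 : ℕ) : ℝ) else 0)| ≤ 1 / X * 4 :=
        mul_le_mul_of_nonneg_left h3 (by positivity)
    _ = 4 / X := by ring

end Pool.Agent.Lib.NagA
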