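import Pool.Agent.Lib.MP_60fb2a_nt.An.Spec
import Pool.Agent.Lib.MP_60fb2a_nt.An.Nss

set_option autoImplicit false

namespace Pool.Agent.Lib.NagA

open Polynomial Finset Classical

theorem Bdd_ncs (a b : ℤ) : NCS (X ^ 3 + C a * X + C b : ℤ[X]) := by
  intro c g h
  have h1 : ((X ^ 3 + C a * X + C b : ℤ[X]).map (Int.castRingHom ℚ)) =
      X ^ 3 + C (a : ℚ) * X + C (b : ℚ) := by
    simp
  have h2 : (X ^ 3 + C (a : ℚ) * X + C (b : ℚ) : ℚ[X]).natDegree = 3 := by
    compute_degree!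
  rw [h1] at h
  rw [h] at h2
  by_cases hc : c = 0
  · rw [hc] at h2
    simp at h2
  · rw [Polynomial.natDegree_C_mul hc, Polynomial.natDegree_pow] at h2
    omega

theorem tBdd (hW : WbdStmt) (hF : FacStmt) : BddStmt := by
  intro a b D hD
  obtain ⟨C1, h1, H1⟩ := hW D hD
  obtain ⟨C2, h2, H2⟩ := hW _ (Bdd_ncs a b)
  refine ⟨max 2 (C1 * C2), fun p hp => ?_⟩
  by_cases hp2 : p = 2
  · subst hp2
    exact le_trans (Nss_av2 _ _) (le_max_left _ _)
  · haveI : Fact p.Prime := ⟨hp⟩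
    refine le_trans ?_ (le_max_right _ _)
    rw [hF a b D p hp2, abs_mul, abs_mul, abs_neg]
    have hp0 : (0 : ℝ) < p := by exact_mod_cast hp.pos
    rw [abs_of_pos (by positivity : (0 : ℝ) < 1 / p)]
    have e1 := H1 p hp2
    have e2 := H2 p hp2
    set u := |((∑ t : ZMod p, quadraticChar (ZMod p) ((D.map (Int.castRingHom (ZMod p))).eval t) : ℤ) : ℝ)|
    set v := |((∑ u : ZMod p, quadraticChar (ZMod p)
      (((X ^ 3 + C a * X + C b : ℤ[X]).map (Int.castRingHom (ZMod p))).eval u) : ℤ) : ℝ)|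
    have hs : Real.sqrt p * Real.sqrt p = p := Real.mul_self_sqrt hp0.le
    calc 1 / (p : ℝ) * u * v ≤ 1 / (p : ℝ) * (C1 * Real.sqrt p) * (C2 * Real.sqrt p) := by
          have hu : 0 ≤ u := abs_nonneg _
          have hv : 0 ≤ v := abs_nonneg _
          gcongr
      _ = C1 * C2 * (1 / (p : ℝ) * (Real.sqrt p * Real.sqrt p)) := by ring
      _ = C1 * C2 := by
          rw [hs]
          field_simp

end Pool.Agent.Lib.NagA
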