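import Pool.Agent.Lib.MP_60fb2a_nt.An.Lip

set_option autoImplicit false

namespace Pool.Agent.Lib.NagA

open Polynomial Finset Classical

theorem tBes (h1 : SchStmt) (h2 : SqfStmt) (h3 : SwwStmt) (h4 : TheStmt) : BesStmt := by
  intro C hC S hS κ hκ
  obtain ⟨C₁, hC₁, hsw⟩ := h3 1 1 one_pos one_pos
  obtain ⟨t, ht⟩ : ∃ t : ℝ, t = min 1 (κ / (5 * C ^ 2)) := ⟨_, rfl⟩
  have ht0 : 0 < t := by
    rw [ht]
    exact lt_min one_pos (by positivity)
  have ht1 : t ≤ 1 := by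
    rw [ht]
    exact min_le_left _ _
  have ht2 : t * (5 * C ^ 2) ≤ κ := by
    have h5 : t ≤ κ / (5 * C ^ 2) := by
      rw [ht]
      exact min_le_right _ _
    rwa [le_div_iff₀ (by positivity)] at h5
  obtain ⟨X₁, hX₁⟩ := h4 t ht0
  obtain ⟨D, hD⟩ : ∃ D : ℕ, ∀ d ∈ S, |(d : ℝ)| ≤ D := by
    refine ⟨∑ d ∈ S, d.natAbs, fun d hd => ?_⟩
    have h5 : d.natAbs ≤ ∑ d ∈ S, d.natAbs :=
      Finset.single_le_sum (f := fun d : ℤ => d.natAbs) (fun i _ => Nat.zero_le _) hd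
    have h6 : |(d : ℝ)| = (d.natAbs : ℝ) := by
      rw [Nat.cast_natAbs]
      push_cast
      rfl
    rw [h6]
    exact_mod_cast h5
  obtain ⟨m, hm⟩ : ∃ m : ℝ, m = max ((D : ℝ) ^ 2) (C₁ * (S.card : ℝ) / t) := ⟨_, rfl⟩
  refine ⟨max (max 3 X₁) (Real.exp m), fun W hW X hX => ?_⟩
  have hX3 : 3 ≤ X := le_trans (le_trans (le_max_left _ _) (le_max_left _ _)) hX
  have hX1 : X₁ ≤ X := le_trans (le_trans (le_max_right _ _) (le_max_left _ _)) hX
  have hXm : Real.exp m ≤ X := le_trans (le_max_right _ _) hX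
  have hX0 : 0 < X := by linarith
  have hlX : m ≤ Real.log X := by
    rw [Real.le_log_iff_exp_le hX0]
    exact hXm
  have hlX0 : 0 < Real.log X := Real.log_pos (by linarith)
  have hDX : (D : ℝ) ^ 2 ≤ Real.log X := le_trans (by rw [hm]; exact le_max_left _ _) hlX
  have hSX : C₁ * (S.card : ℝ) ≤ t * Real.log X := by
    have h5 : C₁ * (S.card : ℝ) / t ≤ Real.log X := le_trans (by rw [hm]; exact le_max_right _ _) hlX
    rw [div_le_iff₀ ht0] at h5
    linarith
  have hθ := (abs_le.1 (hX₁ X hX1)).2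
  have hlog : ∀ p : ℕ, Real.sqrt (Real.log p) * Real.sqrt (Real.log p) = Real.log p :=
    fun p => Real.mul_self_sqrt (Real.log_natCast_nonneg p)
  have hsq : ∀ p : ℕ, Real.sqrt (Real.log p) ^ 2 = Real.log p := fun p => by
    rw [sq]
    exact hlog p
  have hM : 0 ≤ (1 + t) * X := by positivity
  have hjc2 : ∀ (d : ℤ) (p : ℕ), jc d p ^ 2 ≤ 1 := fun d p => by
    have := Lip_jc d p
    rw [← sq_abs]
    exact pow_le_one₀ (abs_nonneg _) this
  have key := h1 ℤ ℕ S (OP ⌊X⌋₊) (fun d p => Real.sqrt (Real.log p) * jc d p)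
    (fun p => W p * Real.sqrt (Real.log p)) ((1 + t) * X) (C₁ * (X / Real.log X)) hM (by positivity) (by
      intro d _
      refine le_trans (sum_le_sum (fun p _ => ?_)) (by linarith : ∑ p ∈ OP ⌊X⌋₊, Real.log p ≤ (1 + t) * X)
      rw [mul_pow, hsq]
      exact mul_le_of_le_one_right (Real.log_natCast_nonneg p) (hjc2 d p)) (by
      intro d hd d' hd' hne
      have h5 := hsw X (d * d') hX3 (h2 d d' (hS d hd) (hS d' hd') hne) (by
        rw [Real.rpow_one]
        refine le_trans ?_ hDX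
        push_cast
        rw [abs_mul, sq]
        exact mul_le_mul (hD d hd) (hD d' hd') (abs_nonneg _) (Nat.cast_nonneg _))
      rw [Real.rpow_one] at h5
      refine le_trans (le_of_eq ?_) h5
      congr 1
      refine sum_congr rfl (fun p _ => ?_)
      have e3 : jc (d * d') p = jc d p * jc d' p := by
        unfold jc
        rw [jacobiSym.mul_left]
        push_cast
        rfl
      rw [e3]
      calc Real.sqrt (Real.log p) * jc d p * (Real.sqrt (Real.log p) * jc d' p) =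
            jc d p * jc d' p * (Real.sqrt (Real.log p) * Real.sqrt (Real.log p)) := by ring
        _ = _ := by rw [hlog])
  have ha : ∑ p ∈ OP ⌊X⌋₊, (W p * Real.sqrt (Real.log p)) ^ 2 ≤ C ^ 2 * ((1 + t) * X) := by
    calc ∑ p ∈ OP ⌊X⌋₊, (W p * Real.sqrt (Real.log p)) ^ 2 ≤
          ∑ p ∈ OP ⌊X⌋₊, C ^ 2 * Real.log p := by
          refine sum_le_sum (fun p hp => ?_)
          rw [mul_pow, hsq]
          refine mul_le_mul_of_nonneg_right ?_ (Real.log_natCast_nonneg p)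
          rw [← sq_abs]
          exact pow_le_pow_left₀ (abs_nonneg _) (hW p (Finset.mem_filter.1 hp).2.1) 2
      _ = C ^ 2 * ∑ p ∈ OP ⌊X⌋₊, Real.log p := by rw [← Finset.mul_sum]
      _ ≤ C ^ 2 * ((1 + t) * X) := mul_le_mul_of_nonneg_left (by linarith) (by positivity)
  have hE : (1 + t) * X + C₁ * (X / Real.log X) * (S.card : ℝ) ≤ (1 + 2 * t) * X := by
    have h5 : C₁ * (X / Real.log X) * (S.card : ℝ) = X * ((C₁ * (S.card : ℝ)) / Real.log X) := by ring
    have h6 : (C₁ * (S.card : ℝ)) / Real.log X ≤ t := by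
      rw [div_le_iff₀ hlX0]
      exact hSX
    rw [h5]
    nlinarith
  have hT : ∀ d ∈ S, (∑ p ∈ OP ⌊X⌋₊, W p * Real.sqrt (Real.log p) * (Real.sqrt (Real.log p) * jc d p)) ^ 2 =
      X ^ 2 * SX W d X ^ 2 := by
    intro d _
    have h7 : SX W d X = (1 / X) * ∑ p ∈ OP ⌊X⌋₊,
        W p * Real.sqrt (Real.log p) * (Real.sqrt (Real.log p) * jc d p) := by
      unfold SX
      congr 1
      refine sum_congr rfl (fun p _ => ?_)
      calc W p * jc d p * Real.log p = W p * jc d p *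
            (Real.sqrt (Real.log p) * Real.sqrt (Real.log p)) := by rw [hlog]
        _ = _ := by ring
    rw [h7]
    field_simp
  rw [Finset.sum_congr rfl hT, ← Finset.mul_sum] at key
  have hQ : X ^ 2 * ∑ d ∈ S, SX W d X ^ 2 ≤ X ^ 2 * ((1 + 2 * t) * (1 + t) * C ^ 2) := by
    calc X ^ 2 * ∑ d ∈ S, SX W d X ^ 2 ≤ ((1 + t) * X + C₁ * (X / Real.log X) * (S.card : ℝ)) *
          ∑ p ∈ OP ⌊X⌋₊, (W p * Real.sqrt (Real.log p)) ^ 2 := key
      _ ≤ ((1 + 2 * t) * X) * (C ^ 2 * ((1 + t) * X)) :=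
          mul_le_mul hE ha (Finset.sum_nonneg fun _ _ => sq_nonneg _) (by positivity)
      _ = X ^ 2 * ((1 + 2 * t) * (1 + t) * C ^ 2) := by ring
  have hQ2 := le_of_mul_le_mul_left hQ (by positivity)
  refine le_trans hQ2 ?_
  have h5 : (1 + 2 * t) * (1 + t) * C ^ 2 = C ^ 2 + (3 * t + 2 * t * t) * C ^ 2 := by ring
  have h6 : 3 * t + 2 * t * t ≤ 5 * t := by nlinarith
  have h7 : (3 * t + 2 * t * t) * C ^ 2 ≤ 5 * t * C ^ 2 := mul_le_mul_of_nonneg_right h6 (by positivity)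
  rw [h5]
  nlinarith

end Pool.Agent.Lib.NagA
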