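import Pool.Agent.Lib.BV.Chb
import Pool.Agent.Lib.BV.Cpt
import Pool.Agent.Lib.BV.Fkk
import Pool.Agent.Lib.BV.Gdi
import Pool.Agent.Lib.BV.Gin
import Pool.Agent.Lib.BV.Glo
import Pool.Agent.Lib.BV.Idr
import Pool.Agent.Lib.BV.Ker
import Pool.Agent.Lib.BV.Lir
import Pool.Agent.Lib.BV.Lnk
import Pool.Agent.Lib.BV.Lo1
import Pool.Agent.Lib.BV.Lo2
import Pool.Agent.Lib.BV.LoF
import Pool.Agent.Lib.BV.Pas
import Pool.Agent.Lib.BV.Per
import Pool.Agent.Lib.BV.Pnt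
import Pool.Agent.Lib.BV.Pps
import Pool.Agent.Lib.BV.Prs
import Pool.Agent.Lib.BV.Rec
import Pool.Agent.Lib.BV.Ser
import Pool.Agent.Lib.BV.SgAb
import Pool.Agent.Lib.BV.SgCa
import Pool.Agent.Lib.BV.SgCb
import Pool.Agent.Lib.BV.SgCh
import Pool.Agent.Lib.BV.SgCt
import Pool.Agent.Lib.BV.SgEl
import Pool.Agent.Lib.BV.SgFo
import Pool.Agent.Lib.BV.SgHa
import Pool.Agent.Lib.BV.SgHy
import Pool.Agent.Lib.BV.SgLf
import Pool.Agent.Lib.BV.SgMu
import Pool.Agent.Lib.BV.SgNa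
import Pool.Agent.Lib.BV.SgNb
import Pool.Agent.Lib.BV.SgOn
import Pool.Agent.Lib.BV.SgPc
import Pool.Agent.Lib.BV.SgPd
import Pool.Agent.Lib.BV.SgPo
import Pool.Agent.Lib.BV.SgSi
import Pool.Agent.Lib.BV.SgUp
import Pool.Agent.Lib.BV.SgZ
import Pool.Agent.Lib.BV.Sie
import Pool.Agent.Lib.BV.Smb
import Pool.Agent.Lib.BV.Sw
import Pool.Agent.Lib.BV.Tai
import Pool.Agent.Lib.BV.Trl
import Pool.Agent.Lib.BV.Trv
import Pool.Agent.Lib.BV.Uns
import Pool.Agent.Lib.BV.Zkk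
import Pool.Agent.Lib.BV.Zlo
import Pool.Agent.Lib.BV.Zse

/-!
MP_60fb2a_nt, directory An: the part of Lib/BV/All needed for the theorem of Siegel and Walfisz and the prime number theorem.
-/

set_option autoImplicit false

namespace Pool.Agent.Lib.NagA.B

open Pool.Agent.Lib.BV

theorem aTai : TaiStmt := tTai
theorem aGdi : GdiStmt := tGdi
theorem aSer : SerStmt := tSer aTai aGdi
theorem aChb : ChbStmt := tChb
theorem aIdr : IdrStmt := tIdr
theorem aRec : RecStmt := tRec aIdr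
theorem aGlo : GloStmt := tGlo
theorem aLo1 : Lo1Stmt := tLo1 aGlo aSer aChb
theorem aGin : GinStmt := tGin
theorem aZse : ZseStmt := tZse aTai aGdi aGin
theorem aTrv : TrvStmt := tTrv aSer aZse aChb
theorem aLo2 : Lo2Stmt := tLo2 aGlo aSer aChb aTrv
theorem aTrl : TrlStmt := tTrl
theorem aLnk : LnkStmt := tLnk aSer aChb
theorem aSgAb : SgAbStmt := tSgAb
theorem aSgEl : SgElStmt := tSgEl aSgAb
theorem aSgCt : SgCtStmt := tSgCt aSgEl
theorem aSgZ : SgZStmt := tSgZ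
theorem aSgHy : SgHyStmt := tSgHy
theorem aSgOn : SgOnStmt := tSgOn aSgEl aSgZ aSgHy
theorem aSgNa : SgNaStmt := tSgNa
theorem aSgPo : SgPoStmt := tSgPo aSgOn aSgNa
theorem aSgCa : SgCaStmt := tSgCa aSgOn aSgNa
theorem aSgHa : SgHaStmt := tSgHa
theorem aSgMu : SgMuStmt := tSgMu aSgEl aSgHa aSgHy
theorem aSgFo : SgFoStmt := tSgFo aSgEl aSgHa aSgHy aSgOn aSgMu
theorem aSgNb : SgNbStmt := tSgNb aSgNa
theorem aSgUp : SgUpStmt := tSgUp aSgEl aSgHa
theorem aSgCb : SgCbStmt := tSgCb aSgFo aSgNb aSgUp aSgPo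
theorem aSgSi : SgSiStmt := tSgSi aSgCt aSgPo aSgCa aSgCb
theorem aSgPc : SgPcStmt := tSgPc
theorem aSgCh : SgChStmt := tSgCh aSgPc
theorem aSgPd : SgPdStmt := tSgPd aSgPc aSgCh
theorem aSgLf : SgLfStmt := tSgLf aSgEl aSgCt aSgCh
theorem aSie : SieStmt := tSie aSgSi aSgCh aSgPd aSgLf
theorem aLoF : LoFStmt := tLoF aLo1 aLo2 aTrl aLnk aSie
theorem aFkk : FkkStmt := tFkk aSer aChb aRec aLoF
theorem aSmb : SmbStmt := tSmb
theorem aKer : KerStmt := tKer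
theorem aPer : PerStmt := tPer aKer
theorem aUns : UnsStmt := tUns
theorem aPas : PasStmt := tPas
theorem aPrs : PrsStmt := tPrs aPer aUns aPas
theorem aPps : PpsStmt := tPps
theorem aSw : SwStmt := tSw aFkk aSmb aPrs aPps
theorem aCpt : CptStmt := tCpt
theorem aZlo : ZloStmt := tZlo aGlo aZse
theorem aZkk : ZkkStmt := tZkk aCpt aRec aZse aZlo
theorem aLir : LirStmt := tLir
theorem aPnt : PntStmt := tPnt aZkk aSmb aPrs aPps aLir

end Pool.Agent.Lib.NagA.B
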