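import Pool.Agent.Lib.MP_60fb2a_nt.An.Spec
import Pool.Agent.Lib.MP_60fb2a_nt.An.BvMin
import Pool.Agent.Lib.MP_72e2e6_nt.PeHas
import Pool.Agent.Lib.MP_72e2e6_nt.PeNon
import Pool.Agent.Lib.MP_72e2e6_nt.PeSte
import Pool.Agent.Lib.MP_72e2e6_nt.PeChr

/-!
MP_60fb2a_nt, directory An: the theorem of Siegel and Walfisz, the prime number theorem and the bound for character sums
from the directories Lib/BV and Lib/MP_72e2e6_nt.
-/

set_option autoImplicit false

namespace Pool.Agent.Lib.NagA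

open Polynomial Finset Classical

theorem aSwH : SwH := B.aSw

theorem aPntH : PntH := by
  intro A hA
  obtain ⟨C, hC, H⟩ := B.aPnt A hA
  exact ⟨C, hC, fun x hx => H x hx⟩

open MP72e2e6 in
theorem aPeChr : MP72e2e6.StmtPeChr.{0} := tPeChr (tPeSte tPeHas.{0} tPeNon.{0})

theorem aChrH : ChrH := by
  intro p _ hp2 f h1 h2 h3 h4 h5
  have hc : Nat.card (ZMod p) = p := by rw [Nat.card_eq_fintype_card, ZMod.card]
  have h := aPeChr (ZMod p) (by
    rw [hc]
    exact (Fact.out : p.Prime).odd_of_ne_two hp2) f h1 h2 h3 (by rw [hc]; exact h4) (by rw [hc]; exact h5)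
  rw [hc] at h
  exact h

end Pool.Agent.Lib.NagA
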