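import Pool.Agent.Lib.MP_60fb2a_nt.An.Spec

set_option autoImplicit false

namespace Pool.Agent.Lib.NagA

open Polynomial Finset Classical

theorem tChb : ChbStmt := by
  intro X hX
  have hlog4 : Real.log 4 ≤ 2 := by
    have h1 : Real.log 4 = 2 * Real.log 2 := by
      rw [show (4 : ℝ) = 2 ^ 2 by norm_num, Real.log_pow]; push_cast; ring
    have := Real.log_two_lt_d9
    linarith
  have hnn : ∀ p ∈ OP ⌊X⌋₊, 0 ≤ Real.log (p : ℝ) := by
    intro p _
    exact Real.log_natCast_nonneg p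
  have h1 : ∑ p ∈ OP ⌊X⌋₊, Real.log (p : ℝ) ≤ 2 * X := by
    have h2 : ∑ p ∈ OP ⌊X⌋₊, Real.log (p : ℝ) ≤ Chebyshev.theta X := by
      unfold Chebyshev.theta
      apply Finset.sum_le_sum_of_subset_of_nonneg
      · intro p hp
        unfold OP at hp
        rw [Finset.mem_filter, Finset.mem_range] at hp
        rw [Finset.mem_filter, Finset.mem_Ioc]
        exact ⟨⟨hp.2.1.pos, by omega⟩, hp.2.1⟩
      · intro p _ _
        exact Real.log_natCast_nonneg p
    have h3 := Chebyshev.theta_le_log4_mul_x (x := X) (by linarith)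
    have h4 : Real.log 4 * X ≤ 2 * X := mul_le_mul_of_nonneg_right hlog4 (by linarith)
    linarith
  refine ⟨h1, ?_⟩
  have hlX : 0 ≤ Real.log X := Real.log_nonneg hX
  calc ∑ p ∈ OP ⌊X⌋₊, Real.log (p : ℝ) ^ 2 ≤ ∑ p ∈ OP ⌊X⌋₊, Real.log (p : ℝ) * Real.log X := by
        apply Finset.sum_le_sum
        intro p hp
        rw [sq]
        apply mul_le_mul_of_nonneg_left _ (hnn p hp)
        unfold OP at hp
        rw [Finset.mem_filter, Finset.mem_range] at hp
        apply Real.log_le_log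
        · exact_mod_cast hp.2.1.pos
        · calc (p : ℝ) ≤ (⌊X⌋₊ : ℝ) := by exact_mod_cast (by omega)
            _ ≤ X := Nat.floor_le (by linarith)
    _ = (∑ p ∈ OP ⌊X⌋₊, Real.log (p : ℝ)) * Real.log X := by rw [Finset.sum_mul]
    _ ≤ 2 * X * Real.log X := mul_le_mul_of_nonneg_right h1 hlX

end Pool.Agent.Lib.NagA
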