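import Pool.Agent.Lib.MP_60fb2a_nt.An.Spec

/-!
# The averages of the isotrivial family (MP_60fb2a_nt)
-/

set_option autoImplicit false

namespace Pool.Agent.Lib.NagA

open Polynomial Finset Classical

/-- Sums over `range p` and over `ZMod p`. -/
private theorem Fac_sum {R : Type*} [AddCommMonoid R] (p : ℕ) [NeZero p] (g : ZMod p → R) :
    ∑ t ∈ range p, g (t : ZMod p) = ∑ t : ZMod p, g t := by
  refine Finset.sum_bij (fun t _ => (t : ZMod p)) (fun _ _ => mem_univ _) ?_ ?_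
    (fun _ _ => rfl)
  · intro x hx y hy h
    rw [ZMod.natCast_eq_natCast_iff'] at h
    rwa [Nat.mod_eq_of_lt (mem_range.1 hx), Nat.mod_eq_of_lt (mem_range.1 hy)] at h
  · intro z _
    exact ⟨z.val, mem_range.2 z.val_lt, ZMod.natCast_zmod_val z⟩

/-- Number of square roots. -/
private theorem Fac_sqrts (p : ℕ) [Fact p.Prime] (hp : p ≠ 2) (c : ZMod p) :
    ∑ y : ZMod p, (if y ^ 2 = c then (1 : ℤ) else 0) = quadraticChar (ZMod p) c + 1 := by
  have hF : ringChar (ZMod p) ≠ 2 := by rwa [ZMod.ringChar_zmod_n]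
  rw [← quadraticChar_card_sqrts hF c, Finset.sum_boole]
  congr 2
  ext y
  simp

/-- The cubic power of the quadratic character. -/
private theorem Fac_cube (p : ℕ) [Fact p.Prime] (x : ZMod p) :
    quadraticChar (ZMod p) (x ^ 3) = quadraticChar (ZMod p) x := by
  rw [map_pow]
  by_cases hx : x = 0
  · subst hx
    simp
  · rcases quadraticChar_dichotomy hx with h | h <;> rw [h] <;> norm_num

/-- The sum over `x` for a fixed `d = D(t)`. -/
private theorem Fac_tw (p : ℕ) [Fact p.Prime] (hp : p ≠ 2) (a b d : ZMod p) :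
    ∑ x : ZMod p, quadraticChar (ZMod p) (x ^ 3 + a * d ^ 2 * x + b * d ^ 3) =
      quadraticChar (ZMod p) d * ∑ u : ZMod p, quadraticChar (ZMod p) (u ^ 3 + a * u + b) := by
  by_cases hd : d = 0
  · subst hd
    have hF : ringChar (ZMod p) ≠ 2 := by rwa [ZMod.ringChar_zmod_n]
    have h1 : ∀ x : ZMod p, quadraticChar (ZMod p) (x ^ 3 + a * 0 ^ 2 * x + b * 0 ^ 3) =
        quadraticChar (ZMod p) x := by
      intro x
      rw [← Fac_cube p x]
      congr 1
      ring
    rw [Finset.sum_congr rfl fun x _ => h1 x, quadraticChar_sum_zero hF]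
    simp
  · rw [← Equiv.sum_comp (Equiv.mulLeft₀ d hd) (fun x : ZMod p =>
      quadraticChar (ZMod p) (x ^ 3 + a * d ^ 2 * x + b * d ^ 3)), Finset.mul_sum]
    refine Finset.sum_congr rfl fun u _ => ?_
    have h1 : (Equiv.mulLeft₀ d hd u) = d * u := rfl
    rw [h1, ← Fac_cube p d, ← map_mul]
    congr 1
    ring

theorem tFac : FacStmt := by
  intro a b D p _ hp
  have hp0 : NeZero p := ⟨(Fact.out : p.Prime).ne_zero⟩
  set U : ℤ := ∑ u : ZMod p, quadraticChar (ZMod p)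
      (((X ^ 3 + C a * X + C b : ℤ[X]).map (Int.castRingHom (ZMod p))).eval u) with hU
  have hU' : U = ∑ u : ZMod p, quadraticChar (ZMod p) (u ^ 3 + (a : ZMod p) * u + b) := by
    rw [hU]
    refine Finset.sum_congr rfl fun u _ => ?_
    simp
  have hcard : ∀ t : ℕ, ((((Finset.range p ×ˢ Finset.range p).filter
      (fun xy : ℕ × ℕ => (p : ℤ) ∣ (xy.2 : ℤ) ^ 2 -
        ((xy.1 : ℤ) ^ 3 + (C a * D ^ 2).eval (t : ℤ) * (xy.1 : ℤ) +
          (C b * D ^ 3).eval (t : ℤ)))).card : ℕ) : ℤ) =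
      p + quadraticChar (ZMod p) ((D.map (Int.castRingHom (ZMod p))).eval (t : ZMod p)) * U := by
    intro t
    set d : ZMod p := (D.map (Int.castRingHom (ZMod p))).eval (t : ZMod p) with hd
    have hd' : ((D.eval (t : ℤ) : ℤ) : ZMod p) = d := by
      rw [hd]
      have h := Polynomial.eval_intCast_map (Int.castRingHom (ZMod p)) D (t : ℤ)
      rw [Int.cast_natCast] at h
      rw [h]
      rfl
    rw [Finset.card_filter, Finset.sum_product]
    push_cast
    have h1 : ∀ x y : ℕ, ((p : ℤ) ∣ (y : ℤ) ^ 2 -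
        ((x : ℤ) ^ 3 + (C a * D ^ 2).eval (t : ℤ) * (x : ℤ) + (C b * D ^ 3).eval (t : ℤ))) ↔
        (y : ZMod p) ^ 2 = (x : ZMod p) ^ 3 + a * d ^ 2 * x + b * d ^ 3 := by
      intro x y
      rw [← ZMod.intCast_zmod_eq_zero_iff_dvd, ← hd']
      simp only [eval_mul, eval_C, eval_pow]
      push_cast
      rw [sub_eq_zero]
    have h2 : ∀ x ∈ range p, (∑ y ∈ range p, (if ((p : ℤ) ∣ (y : ℤ) ^ 2 -
        ((x : ℤ) ^ 3 + (C a * D ^ 2).eval (t : ℤ) * (x : ℤ) + (C b * D ^ 3).eval (t : ℤ)))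
        then (1 : ℤ) else 0)) =
        quadraticChar (ZMod p) ((x : ZMod p) ^ 3 + a * d ^ 2 * x + b * d ^ 3) + 1 := by
      intro x _
      rw [← Fac_sqrts p hp, ← Fac_sum p]
      exact Finset.sum_congr rfl fun y _ => if_congr (h1 x y) rfl rfl
    rw [Finset.sum_congr rfl h2, Fac_sum p (fun x : ZMod p =>
      quadraticChar (ZMod p) (x ^ 3 + a * d ^ 2 * x + b * d ^ 3) + 1),
      Finset.sum_add_distrib, Fac_tw p hp, ← hU']
    simp [add_comm]
  have hpr : (p : ℝ) ≠ 0 := by exact_mod_cast hp0.out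
  have hterm : ∀ t ∈ range p, ((p : ℝ) - (((Finset.range p ×ˢ Finset.range p).filter
      (fun xy : ℕ × ℕ => (p : ℤ) ∣ (xy.2 : ℤ) ^ 2 -
        ((xy.1 : ℤ) ^ 3 + (C a * D ^ 2).eval (t : ℤ) * (xy.1 : ℤ) +
          (C b * D ^ 3).eval (t : ℤ)))).card : ℝ)) =
      ((-(quadraticChar (ZMod p) ((D.map (Int.castRingHom (ZMod p))).eval (t : ZMod p)) * U) : ℤ)
        : ℝ) := by
    intro t _
    have h := congrArg (fun z : ℤ => (z : ℝ)) (hcard t)
    rw [Int.cast_natCast] at h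
    rw [h]
    push_cast
    ring
  rw [Av, Finset.sum_congr rfl hterm, ← Int.cast_sum, Fac_sum p (fun t : ZMod p =>
    -(quadraticChar (ZMod p) ((D.map (Int.castRingHom (ZMod p))).eval t) * U)),
    Finset.sum_neg_distrib, ← Finset.sum_mul]
  push_cast
  ring

end Pool.Agent.Lib.NagA
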