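import Pool.Agent.Lib.MP_60fb2a_nt.An.Spec

set_option autoImplicit false

namespace Pool.Agent.Lib.NagA

open Polynomial Finset Classical

/-- From a set `G` for the scale `N` to a set `F` which is contained in `G` for `|d| ≥ √N`. -/
theorem Fix_gen (δ : ℝ) (h0 : 0 < δ) (h1 : δ ≤ 1 / 8) : ∃ N₀ : ℕ, ∀ N : ℕ, N₀ ≤ N → ∀ F G : ℤ → Prop,
    (∀ d : ℤ, Real.sqrt N ≤ |(d : ℝ)| → |(d : ℝ)| ≤ N → F d → G d) →
    (((Sq N).filter G).card : ℝ) ≤ 2 * (N : ℝ) ^ (1 - δ / 2) →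
    (((Sq N).filter F).card : ℝ) ≤ (N : ℝ) ^ (1 - δ / 4) := by
  obtain ⟨M, hM⟩ := exists_nat_ge ((5 : ℝ) ^ (4 / δ))
  refine ⟨max 1 M, fun N hN F G hFG hG => ?_⟩
  have hN0 : (1 : ℝ) ≤ N := by exact_mod_cast le_trans (le_max_left _ _) hN
  have hNM : (5 : ℝ) ^ (4 / δ) ≤ N := le_trans hM (by exact_mod_cast le_trans (le_max_right _ _) hN)
  have hNpos : (0 : ℝ) < N := by linarith
  have hsub : (Sq N).filter F ⊆ (Sq N).filter G ∪ Finset.Icc (-(Nat.sqrt N : ℤ)) (Nat.sqrt N) := by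
    intro d hd
    rw [Finset.mem_filter] at hd
    rw [Finset.mem_union, Finset.mem_filter]
    have hdN : |(d : ℝ)| ≤ N := by
      have h2 := (Finset.mem_Icc.1 (Finset.mem_filter.1 hd.1).1)
      have h3 : |d| ≤ (N : ℤ) := abs_le.2 h2
      exact_mod_cast h3
    by_cases hdd : (Nat.sqrt N : ℤ) < |d|
    · left
      refine ⟨hd.1, hFG d ?_ hdN hd.2⟩
      have h2 : (Nat.sqrt N : ℤ) + 1 ≤ |d| := hdd
      have h3 : ((Nat.sqrt N : ℝ) + 1) ≤ |(d : ℝ)| := by exact_mod_cast h2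
      refine le_trans ?_ h3
      rw [Real.sqrt_le_left (by positivity)]
      have h4 := Nat.lt_succ_sqrt N
      have h5 : N ≤ (Nat.sqrt N + 1) ^ 2 := by
        rw [sq]
        exact h4.le
      exact_mod_cast h5
    · right
      rw [not_lt] at hdd
      rw [Finset.mem_Icc]
      exact abs_le.1 hdd
  have hs : (Nat.sqrt N : ℝ) ≤ (N : ℝ) ^ (1 / 2 : ℝ) := by
    rw [← Real.sqrt_eq_rpow]
    apply Real.le_sqrt_of_sq_le
    have := Nat.sqrt_le' N
    exact_mod_cast this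
  have hc : ((Finset.Icc (-(Nat.sqrt N : ℤ)) (Nat.sqrt N)).card : ℝ) = 2 * (Nat.sqrt N : ℝ) + 1 := by
    rw [Int.card_Icc]
    have : ((Nat.sqrt N : ℤ) + 1 - -(Nat.sqrt N : ℤ)).toNat = 2 * Nat.sqrt N + 1 := by omega
    rw [this]
    push_cast
    ring
  have e0 : (1 : ℝ) ≤ (N : ℝ) ^ (1 / 2 : ℝ) := Real.one_le_rpow hN0 (by norm_num)
  have e1 : (N : ℝ) ^ (1 / 2 : ℝ) ≤ (N : ℝ) ^ (1 - δ / 2) :=
    Real.rpow_le_rpow_of_exponent_le hN0 (by linarith)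
  have e3 : (5 : ℝ) ≤ (N : ℝ) ^ (δ / 4) := by
    calc (5 : ℝ) = ((5 : ℝ) ^ (4 / δ)) ^ (δ / 4) := by
          rw [← Real.rpow_mul (by norm_num)]
          rw [show (4 / δ) * (δ / 4) = 1 by field_simp]
          rw [Real.rpow_one]
      _ ≤ (N : ℝ) ^ (δ / 4) := Real.rpow_le_rpow (by positivity) hNM (by positivity)
  have e4 : (N : ℝ) ^ (1 - δ / 4) = (N : ℝ) ^ (δ / 4) * (N : ℝ) ^ (1 - δ / 2) := by
    rw [← Real.rpow_add hNpos]
    congr 1
    ring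
  have e5 : 0 ≤ (N : ℝ) ^ (1 - δ / 2) := by positivity
  rw [e4]
  calc (((Sq N).filter F).card : ℝ)
      ≤ (((Sq N).filter G ∪ Finset.Icc (-(Nat.sqrt N : ℤ)) (Nat.sqrt N)).card : ℝ) := by
        exact_mod_cast Finset.card_le_card hsub
    _ ≤ (((Sq N).filter G).card : ℝ) + ((Finset.Icc (-(Nat.sqrt N : ℤ)) (Nat.sqrt N)).card : ℝ) := by
        exact_mod_cast Finset.card_union_le _ _
    _ ≤ 2 * (N : ℝ) ^ (1 - δ / 2) + (2 * (Nat.sqrt N : ℝ) + 1) := by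
        rw [hc]
        linarith
    _ ≤ 5 * (N : ℝ) ^ (1 - δ / 2) := by linarith
    _ ≤ (N : ℝ) ^ (δ / 4) * (N : ℝ) ^ (1 - δ / 2) := mul_le_mul_of_nonneg_right e3 e5

theorem tFix (hC : CntStmt) : FixStmt := by
  intro C ε δ hC0 hε hδ hδ1
  set δ' := min δ (1 / 8) with hδ'
  have h0 : 0 < δ' := lt_min hδ (by norm_num)
  have h1 : δ' ≤ 1 / 8 := min_le_right _ _
  have h2 : δ' ≤ δ := min_le_left _ _
  obtain ⟨D₀, H⟩ := hC C ε δ' hC0 hε h0 h1
  obtain ⟨N₀, H0⟩ := Fix_gen δ' h0 h1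
  obtain ⟨M, hM⟩ := exists_nat_ge (Real.exp 32)
  refine ⟨δ' / 4, by positivity, max (max D₀ N₀) (max M 1), fun N hN W hW => ?_⟩
  have hN1 : D₀ ≤ N := le_trans (le_trans (le_max_left _ _) (le_max_left _ _)) hN
  have hN2 : N₀ ≤ N := le_trans (le_trans (le_max_right _ _) (le_max_left _ _)) hN
  have hN3 : Real.exp 32 ≤ N :=
    le_trans hM (by exact_mod_cast le_trans (le_trans (le_max_left _ _) (le_max_right _ _)) hN)
  have hNpos : (0 : ℝ) < N := lt_of_lt_of_le (Real.exp_pos _) hN3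
  have hlog : 32 ≤ Real.log N := by
    rw [Real.le_log_iff_exp_le hNpos]
    exact hN3
  refine H0 N hN2 _ _ ?_ (le_trans (H N hN1 W hW) ?_)
  · rintro d hd1 hd2 ⟨X, ⟨hX1, hX2⟩, hX3⟩
    refine ⟨X, ?_, ?_, hX3⟩
    · refine le_trans ?_ hX1
      have h3 : Real.log N / 2 ≤ Real.log |(d : ℝ)| := by
        have h4 : Real.log (Real.sqrt N) = Real.log N / 2 := Real.log_sqrt hNpos.le
        rw [← h4]
        exact Real.log_le_log (Real.sqrt_pos.2 hNpos) hd1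
      calc Real.log N ^ 4 ≤ (Real.log N / 2) ^ 5 := by
            have h5 : (Real.log N / 2) ^ 5 = Real.log N ^ 4 * (Real.log N / 32) := by ring
            rw [h5]
            have h6 : 1 ≤ Real.log N / 32 := by linarith
            have h7 : 0 ≤ Real.log N ^ 4 := by positivity
            nlinarith
        _ ≤ Real.log |(d : ℝ)| ^ 5 := pow_le_pow_left₀ (by linarith) h3 5
    · refine le_trans hX2 (Real.exp_le_exp.2 ?_)
      have h3 : 1 ≤ |(d : ℝ)| := by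
        refine le_trans ?_ hd1
        rw [Real.one_le_sqrt]
        have : Real.exp 0 ≤ Real.exp 32 := Real.exp_le_exp.2 (by norm_num)
        rw [Real.exp_zero] at this
        linarith
      calc |(d : ℝ)| ^ (1 - δ) ≤ |(d : ℝ)| ^ (1 - δ') :=
            Real.rpow_le_rpow_of_exponent_le h3 (by linarith)
        _ ≤ (N : ℝ) ^ (1 - δ') := Real.rpow_le_rpow (abs_nonneg _) hd2 (by linarith)
  · have : 0 ≤ (N : ℝ) ^ (1 - δ' / 2) := by positivity
    linarith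

end Pool.Agent.Lib.NagA
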