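import Pool.Agent.Lib.MP_60fb2a_nt.An.Spec

set_option autoImplicit false

namespace Pool.Agent.Lib.NagA

open Polynomial Finset Classical

theorem Lip_jc (d : ℤ) (n : ℕ) : |jc d n| ≤ 1 := by
  unfold jc
  rcases jacobiSym.trichotomy d n with h | h | h <;> rw [h] <;> norm_num

theorem Lip_OP {m n : ℕ} (h : m ≤ n) : OP m ⊆ OP n := by
  intro p hp
  unfold OP at *
  rw [Finset.mem_filter, Finset.mem_range] at *
  exact ⟨by omega, hp.2⟩

/-- the sum without the factor `1/X` is bounded by `C θ` -/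
theorem Lip_T (W : ℕ → ℝ) (C : ℝ) (hW : Bd W C) (d : ℤ) (P : Finset ℕ) (hP : ∀ p ∈ P, p.Prime) :
    |∑ p ∈ P, W p * jc d p * Real.log p| ≤ C * ∑ p ∈ P, Real.log p := by
  rw [Finset.mul_sum]
  refine le_trans (Finset.abs_sum_le_sum_abs _ _) (Finset.sum_le_sum fun p hp => ?_)
  have h1 := hW p (hP p hp)
  have h2 := Lip_jc d p
  have h3 : 0 ≤ Real.log p := Real.log_natCast_nonneg p
  rw [abs_mul, abs_mul, abs_of_nonneg h3]
  refine mul_le_mul_of_nonneg_right ?_ h3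
  calc |W p| * |jc d p| ≤ C * 1 := mul_le_mul h1 h2 (abs_nonneg _) (le_trans (abs_nonneg _) h1)
    _ = C := mul_one C

theorem tLip (_ : ChbStmt) (hT : TheStmt) : LipStmt := by
  intro C ε hC0 hε
  obtain ⟨h, hh⟩ : ∃ h : ℝ, h = min 1 (ε / (6 * C)) := ⟨_, rfl⟩
  have h0 : 0 < h := by
    rw [hh]
    exact lt_min one_pos (by positivity)
  have h1 : h ≤ 1 := by
    rw [hh]
    exact min_le_left _ _
  have h2 : 6 * C * h ≤ ε := by
    have h3 : h ≤ ε / (6 * C) := by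
      rw [hh]
      exact min_le_right _ _
    rw [le_div_iff₀ (by positivity)] at h3
    linarith
  obtain ⟨X₁, hX₁⟩ := hT h h0
  refine ⟨h, max 1 X₁, h0, h1, le_max_left _ _, ?_⟩
  intro W hW d X X' hX hXX' hX'
  have hX1 : 1 ≤ X := le_trans (le_max_left _ _) hX
  have hX0 : 0 < X := by linarith
  have hX'0 : 0 < X' := by linarith
  have a1 := abs_le.1 (hX₁ X (le_trans (le_max_right _ _) hX))
  have a2 := abs_le.1 (hX₁ X' (le_trans (le_trans (le_max_right _ _) hX) hXX'))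
  set θ := ∑ p ∈ OP ⌊X⌋₊, Real.log p with hθ
  set θ' := ∑ p ∈ OP ⌊X'⌋₊, Real.log p with hθ'
  have hfl : ⌊X⌋₊ ≤ ⌊X'⌋₊ := Nat.floor_le_floor hXX'
  have hsub := Lip_OP hfl
  have hpr : ∀ n : ℕ, ∀ p ∈ OP n, p.Prime := fun n p hp => (Finset.mem_filter.1 hp).2.1
  have b1 : |∑ p ∈ OP ⌊X⌋₊, W p * jc d p * Real.log p| ≤ C * θ := Lip_T W C hW d _ (hpr _)
  have b2 : |∑ p ∈ OP ⌊X'⌋₊ \ OP ⌊X⌋₊, W p * jc d p * Real.log p| ≤ C * (θ' - θ) := by
    have := Lip_T W C hW d (OP ⌊X'⌋₊ \ OP ⌊X⌋₊) (fun p hp => hpr _ p (Finset.mem_sdiff.1 hp).1)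
    rw [hθ, hθ']
    rw [← Finset.sum_sdiff hsub]
    rw [add_sub_cancel_right]
    exact this
  have e1 : SX W d X' - SX W d X = (1 / X') * (∑ p ∈ OP ⌊X'⌋₊ \ OP ⌊X⌋₊, W p * jc d p * Real.log p) -
      (1 / X - 1 / X') * ∑ p ∈ OP ⌊X⌋₊, W p * jc d p * Real.log p := by
    unfold SX
    rw [← Finset.sum_sdiff hsub]
    ring
  have c1 : 0 ≤ 1 / X - 1 / X' := by
    rw [sub_nonneg]
    exact one_div_le_one_div_of_le hX0 hXX'
  have c2 : (1 / X - 1 / X') * ((1 + h) * X) ≤ 2 * h := by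
    have e2 : (1 / X - 1 / X') * ((1 + h) * X) = (1 + h) * (1 - X / X') := by
      field_simp
    rw [e2]
    have e3 : 1 - X / X' ≤ h / (1 + h) := by
      have e4 : 1 / (1 + h) ≤ X / X' := by
        rw [div_le_div_iff₀ (by linarith) hX'0]
        linarith
      have e5 : 1 - 1 / (1 + h) = h / (1 + h) := by
        field_simp
        ring
      linarith
    calc (1 + h) * (1 - X / X') ≤ (1 + h) * (h / (1 + h)) :=
          mul_le_mul_of_nonneg_left e3 (by linarith)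
      _ = h := by field_simp
      _ ≤ 2 * h := by linarith
  have c3 : θ' - θ ≤ 4 * h * X := by nlinarith
  have c4 : θ ≤ (1 + h) * X := by linarith
  rw [e1]
  calc |(1 / X') * (∑ p ∈ OP ⌊X'⌋₊ \ OP ⌊X⌋₊, W p * jc d p * Real.log p) -
      (1 / X - 1 / X') * ∑ p ∈ OP ⌊X⌋₊, W p * jc d p * Real.log p|
      ≤ |(1 / X') * (∑ p ∈ OP ⌊X'⌋₊ \ OP ⌊X⌋₊, W p * jc d p * Real.log p)| +
        |(1 / X - 1 / X') * ∑ p ∈ OP ⌊X⌋₊, W p * jc d p * Real.log p| := abs_sub _ _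
    _ ≤ (1 / X') * (C * (4 * h * X)) + (1 / X - 1 / X') * (C * ((1 + h) * X)) := by
        rw [abs_mul, abs_mul, abs_of_pos (by positivity : 0 < 1 / X'), abs_of_nonneg c1]
        refine add_le_add (mul_le_mul_of_nonneg_left (le_trans b2 ?_) (by positivity))
          (mul_le_mul_of_nonneg_left (le_trans b1 ?_) c1)
        · exact mul_le_mul_of_nonneg_left c3 hC0.le
        · exact mul_le_mul_of_nonneg_left c4 hC0.le
    _ = 4 * C * h * (X / X') + C * ((1 / X - 1 / X') * ((1 + h) * X)) := by ring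
    _ ≤ 4 * C * h * 1 + C * (2 * h) := by
        refine add_le_add (mul_le_mul_of_nonneg_left ?_ (by positivity)) (mul_le_mul_of_nonneg_left c2 hC0.le)
        rw [div_le_one hX'0]
        exact hXX'
    _ = 6 * C * h := by ring
    _ ≤ ε := h2

end Pool.Agent.Lib.NagA
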