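import Pool.Agent.Lib.MP_60fb2a_nt.An.Mrt
import Pool.Agent.Lib.MP_60fb2a_nt.An.Lip

set_option autoImplicit false

namespace Pool.Agent.Lib.NagA

open Polynomial Finset Classical

theorem Lab_SX (W : ℕ → ℝ) (d : ℤ) (n : ℕ) :
    (∑ p ∈ OP n, W p * jc d p * Real.log p) / (n : ℝ) = SX W d (n : ℝ) := by
  unfold SX
  rw [Nat.floor_natCast]
  ring

theorem Lab_le (hC : ChbStmt) (W : ℕ → ℝ) (C : ℝ) (hC0 : 0 < C) (hW : Bd W C) (d : ℤ) (n : ℕ) (hn : 1 ≤ n) :
    |SX W d (n : ℝ)| ≤ 2 * C := by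
  have hn0 : (0 : ℝ) < n := by exact_mod_cast hn
  rw [← Lab_SX, abs_div, abs_of_pos hn0, div_le_iff₀ hn0]
  refine le_trans (Lip_T W C hW d _ (fun p hp => (Finset.mem_filter.1 hp).2.1)) ?_
  have := Mrt_theta hC n hn
  nlinarith

theorem tLab (hC : ChbStmt) : LabStmt := by
  intro C ε Y X W d hC0 hε hY hYX hW hS
  have hY0 : 0 < Y := by linarith
  have hX0 : 0 < X := by linarith
  set N := ⌊X⌋₊ with hN
  have hN1 : 1 ≤ N := Nat.le_floor (by rw [Nat.cast_one]; linarith)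
  have hNX : (N : ℝ) ≤ X := Nat.floor_le hX0.le
  have e1 : ∑ p ∈ OP N, W p * jc d p * (Real.log p / p) =
      ∑ p ∈ (OP N).filter (fun p => 0 < p), (W p * jc d p * Real.log p) / p := by
    rw [Finset.filter_true_of_mem (fun p hp => (Finset.mem_filter.1 hp).2.1.pos)]
    refine Finset.sum_congr rfl fun p _ => ?_
    ring
  have h0 : ∑ p ∈ OP 0, W p * jc d p * Real.log p = 0 := by
    refine Finset.sum_eq_zero fun p hp => ?_
    unfold OP at hp
    rw [Finset.mem_filter, Finset.mem_range] at hp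
    have := hp.2.1.pos
    omega
  rw [e1, Mrt_abel (fun p => W p * jc d p * Real.log p) 0 N hN1, h0, zero_div, sub_zero, Lab_SX]
  have a1 : |SX W d (N : ℝ)| ≤ 2 * C := Lab_le hC W C hC0 hW d N hN1
  have a2 : |∑ n ∈ Finset.Ico (0 + 1) N, (∑ p ∈ OP n, W p * jc d p * Real.log p) / ((n : ℝ) * ((n : ℝ) + 1))| ≤
      2 * C * (1 + Real.log Y) + ε * Real.log X := by
    refine le_trans (Finset.abs_sum_le_sum_abs _ _) ?_
    have b1 : ∀ n ∈ Finset.Ico (0 + 1) N, |(∑ p ∈ OP n, W p * jc d p * Real.log p) / ((n : ℝ) * ((n : ℝ) + 1))| ≤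
        2 * C * (if n < ⌊Y⌋₊ + 1 then 1 / ((n : ℝ) + 1) else 0) + ε * (1 / ((n : ℝ) + 1)) := by
      intro n hn
      rw [Finset.mem_Ico] at hn
      have hn1 : 1 ≤ n := by omega
      have hn0 : (0 : ℝ) < (n : ℝ) + 1 := by positivity
      rw [← div_div, Lab_SX, abs_div, abs_of_pos hn0]
      have hε' : 0 ≤ ε * (1 / ((n : ℝ) + 1)) := by positivity
      split_ifs with h
      · have h2 := Lab_le hC W C hC0 hW d n hn1
        calc |SX W d (n : ℝ)| / ((n : ℝ) + 1) ≤ 2 * C / ((n : ℝ) + 1) :=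
              div_le_div_of_nonneg_right h2 hn0.le
          _ ≤ 2 * C * (1 / ((n : ℝ) + 1)) + ε * (1 / ((n : ℝ) + 1)) := by
              have : 2 * C / ((n : ℝ) + 1) = 2 * C * (1 / ((n : ℝ) + 1)) := by ring
              linarith
      · have h2 : Y ≤ (n : ℝ) := by
          have h3 : ⌊Y⌋₊ + 1 ≤ n := by omega
          have h4 : ((⌊Y⌋₊ : ℝ) + 1) ≤ n := by exact_mod_cast h3
          exact le_trans (Nat.lt_floor_add_one Y).le h4
        have h3 : (n : ℝ) ≤ X := le_trans (by exact_mod_cast hn.2.le) hNX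
        have h4 := hS n h2 h3
        calc |SX W d (n : ℝ)| / ((n : ℝ) + 1) ≤ ε / ((n : ℝ) + 1) :=
              div_le_div_of_nonneg_right h4 hn0.le
          _ = 2 * C * 0 + ε * (1 / ((n : ℝ) + 1)) := by ring
    refine le_trans (Finset.sum_le_sum b1) ?_
    rw [Finset.sum_add_distrib, ← Finset.mul_sum, ← Finset.mul_sum]
    have b2 : ∑ n ∈ Finset.Ico (0 + 1) N, (if n < ⌊Y⌋₊ + 1 then 1 / ((n : ℝ) + 1) else 0) ≤ 1 + Real.log Y := by
      rw [← Finset.sum_filter]
      calc ∑ n ∈ (Finset.Ico (0 + 1) N).filter (fun n => n < ⌊Y⌋₊ + 1), 1 / ((n : ℝ) + 1) ≤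
            ∑ n ∈ Finset.Ico 1 (⌊Y⌋₊ + 1), 1 / ((n : ℝ) + 1) := by
            refine Finset.sum_le_sum_of_subset_of_nonneg ?_ (fun n _ _ => by positivity)
            intro n hn
            rw [Finset.mem_filter, Finset.mem_Ico] at hn
            rw [Finset.mem_Ico]
            omega
        _ ≤ Real.log ((⌊Y⌋₊ + 1 : ℕ) : ℝ) - Real.log ((1 : ℕ) : ℝ) := Mrt_harm 1 _ le_rfl (by omega)
        _ ≤ 1 + Real.log Y := by
            rw [Nat.cast_one, Real.log_one, sub_zero]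
            have h5 : ((⌊Y⌋₊ + 1 : ℕ) : ℝ) ≤ 2 * Y := by
              push_cast
              have := Nat.floor_le hY0.le
              linarith
            have h6 : Real.log ((⌊Y⌋₊ + 1 : ℕ) : ℝ) ≤ Real.log (2 * Y) :=
              Real.log_le_log (by positivity) h5
            rw [Real.log_mul (by norm_num) hY0.ne'] at h6
            have := Real.log_two_lt_d9
            linarith
    have b3 : ∑ n ∈ Finset.Ico (0 + 1) N, 1 / ((n : ℝ) + 1) ≤ Real.log X := by
      refine le_trans (Mrt_harm (0 + 1) N (by omega) (by omega)) ?_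
      have h5 : Real.log (N : ℝ) ≤ Real.log X := Real.log_le_log (by exact_mod_cast hN1) hNX
      simpa using h5
    have c1 := mul_le_mul_of_nonneg_left b2 (by positivity : 0 ≤ 2 * C)
    have c2 := mul_le_mul_of_nonneg_left b3 hε
    linarith
  refine le_trans (abs_add_le _ _) ?_
  linarith

end Pool.Agent.Lib.NagA
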