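import Pool.Agent.Lib.MP_60fb2a_nt.An.SpecL
import Pool.Agent.Lib.MP_60fb2a_nt.An.Fix

set_option autoImplicit false

namespace Pool.Agent.Lib.NagA

open Polynomial Finset Classical

theorem tLfx (hL : LloStmt) (hG : LgtStmt) : LfxStmt := by
  intro C ε δ hC0 hε hδ hδ1
  set δ' := min δ (1 / 8) with hδ'
  have h0 : 0 < δ' := lt_min hδ (by norm_num)
  have h1 : δ' ≤ 1 / 8 := min_le_right _ _
  have h2 : δ' ≤ δ := min_le_left _ _
  obtain ⟨D₀, H⟩ := hL C ε δ' hC0 hε h0 h1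
  obtain ⟨D₁, H1⟩ := hG C ε (1 / 2) δ' hC0 hε (by norm_num) h0 (by linarith)
  obtain ⟨N₀, H0⟩ := Fix_gen δ' h0 h1
  refine ⟨δ' / 4, by positivity, max (max D₀ N₀) (max D₁ 1), fun N hN W hW => ?_⟩
  have hN1 : D₀ ≤ N := le_trans (le_trans (le_max_left _ _) (le_max_left _ _)) hN
  have hN2 : N₀ ≤ N := le_trans (le_trans (le_max_right _ _) (le_max_left _ _)) hN
  have hN3 : D₁ ≤ N := le_trans (le_trans (le_max_left _ _) (le_max_right _ _)) hN
  have hN4 : 1 ≤ N := le_trans (le_trans (le_max_right _ _) (le_max_right _ _)) hN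
  have hN0 : (1 : ℝ) ≤ N := by exact_mod_cast hN4
  refine H0 N hN2 _ (fun d => (∃ X : ℝ, Real.sqrt N ≤ X ∧
    X ≤ Real.exp ((N : ℝ) ^ (1 - δ')) ∧ ε < |SL W d X|) ∨ (∃ X : ℝ, Real.exp ((N : ℝ) ^ (1 / 2 : ℝ)) ≤ X ∧
    X ≤ Real.exp (Real.exp ((N : ℝ) ^ (1 - δ'))) ∧ ε < |SL W d X|)) ?_ ?_
  · rintro d hd1 hd2 ⟨X, ⟨hX1, hX2⟩, hX3⟩
    by_cases hX : X ≤ Real.exp ((N : ℝ) ^ (1 - δ'))
    · left
      exact ⟨X, le_trans hd1 hX1, hX, hX3⟩
    · right
      rw [not_le] at hX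
      refine ⟨X, le_trans (Real.exp_le_exp.2 ?_) hX.le, ?_, hX3⟩
      · exact Real.rpow_le_rpow_of_exponent_le hN0 (by linarith)
      · refine le_trans hX2 (Real.exp_le_exp.2 (Real.exp_le_exp.2 ?_))
        have h3 : 1 ≤ |(d : ℝ)| := by
          refine le_trans ?_ hd1
          rw [Real.one_le_sqrt]
          exact hN0
        calc |(d : ℝ)| ^ (1 - δ) ≤ |(d : ℝ)| ^ (1 - δ') :=
              Real.rpow_le_rpow_of_exponent_le h3 (by linarith)
          _ ≤ (N : ℝ) ^ (1 - δ') := Real.rpow_le_rpow (abs_nonneg _) hd2 (by linarith)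
  · have h3 := H N hN1 W hW
    have h4 := H1 N hN3 W hW
    have h5 : ∀ G P Q : ℤ → Prop, (∀ d, G d → P d ∨ Q d) → (((Sq N).filter G).card : ℝ) ≤
        (((Sq N).filter P).card : ℝ) + (((Sq N).filter Q).card : ℝ) := by
      intro G P Q hPQ
      have h6 : (Sq N).filter G ⊆ (Sq N).filter P ∪ (Sq N).filter Q := by
        intro d hd
        rw [Finset.mem_filter] at hd
        rw [Finset.mem_union, Finset.mem_filter, Finset.mem_filter]
        rcases hPQ d hd.2 with h | h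
        · exact Or.inl ⟨hd.1, h⟩
        · exact Or.inr ⟨hd.1, h⟩
      exact_mod_cast le_trans (Finset.card_le_card h6) (Finset.card_union_le _ _)
    refine le_trans (h5 _ _ _ (fun d h => h)) ?_
    linarith

end Pool.Agent.Lib.NagA
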