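import Pool.Agent.Lib.MP_60fb2a_nt.An.SpecL

/-!
MP_60fb2a_nt, module Lgc: logarithmic averages, bad twists at large scales (author helper86).
-/

set_option autoImplicit false

namespace Pool.Agent.Lib.NagA

open Polynomial Finset Classical

private theorem lp0 (p : ℕ) : 0 ≤ Real.log p / p :=
  div_nonneg (Real.log_natCast_nonneg p) (Nat.cast_nonneg p)

private theorem Lgc_T (W : ℕ → ℝ) (d : ℤ) {ε X : ℝ} (hX : 0 < Real.log X) (h : ε < |SL W d X|) :
    ε * Real.log X ≤ |∑ p ∈ OP ⌊X⌋₊, W p * Real.sqrt (Real.log p / p) *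
      (Real.sqrt (Real.log p / p) * jc d p)| := by
  have h7 : SL W d X = (1 / Real.log X) * ∑ p ∈ OP ⌊X⌋₊,
      W p * Real.sqrt (Real.log p / p) * (Real.sqrt (Real.log p / p) * jc d p) := by
    unfold SL
    congr 1
    refine sum_congr rfl (fun p _ => ?_)
    have h8 : Real.sqrt (Real.log p / p) * Real.sqrt (Real.log p / p) = Real.log p / p :=
      Real.mul_self_sqrt (lp0 p)
    calc W p * jc d p * (Real.log p / p) = W p * jc d p *
          (Real.sqrt (Real.log p / p) * Real.sqrt (Real.log p / p)) := by rw [h8]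
      _ = _ := by ring
  rw [h7, abs_mul, abs_of_pos (by positivity), one_div, inv_mul_eq_div, lt_div_iff₀ hX] at h
  exact h.le

private theorem Lgc_jc2 (d : ℤ) (n : ℕ) : jc d n ^ 2 ≤ 1 := by
  unfold jc
  rcases jacobiSym.trichotomy d n with h | h | h <;> rw [h] <;> norm_num

theorem tLgc (h1 : SchStmt) (h2 : SqfStmt) (h3 : MrtStmt) (h4 : SwlStmt) : LgcStmt := by
  intro C ε κ hC hε hκ
  obtain ⟨D₁, hsw⟩ := h4 κ hκ
  obtain ⟨K, hK⟩ : ∃ K : ℝ, K = 12 * C ^ 2 / ε ^ 2 + 1 := ⟨_, rfl⟩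
  have hK0 : 0 < K := by rw [hK]; positivity
  obtain ⟨k, hk⟩ : ∃ k : ℕ, k = ⌊K⌋₊ + 1 := ⟨_, rfl⟩
  have hKk : K < k := by
    rw [hk]
    push_cast
    exact Nat.lt_floor_add_one K
  obtain ⟨m, hm⟩ : ∃ m : ℝ, m = max 2 (3 * (k : ℝ)) := ⟨_, rfl⟩
  have hm2 : 2 ≤ m := by rw [hm]; exact le_max_left _ _
  have hm3 : 3 * (k : ℝ) ≤ m := by rw [hm]; exact le_max_right _ _
  refine ⟨K, max D₁ ⌈m ^ (2 / κ)⌉₊, hK0, ?_⟩
  intro D hD W hW X hX
  have hD₁ : D₁ ≤ D := (le_max_left _ _).trans hD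
  have hDm : m ^ (2 / κ) ≤ D := (Nat.le_ceil _).trans
    (by exact_mod_cast (le_max_right D₁ ⌈m ^ (2 / κ)⌉₊).trans hD)
  have hm1 : 1 ≤ m ^ (2 / κ) := Real.one_le_rpow (by linarith) (by positivity)
  have hD1 : (1 : ℝ) ≤ D := hm1.trans hDm
  have hD0 : (0 : ℝ) < D := by linarith
  have hDκ : m ≤ (D : ℝ) ^ (κ / 2) := by
    calc m = (m ^ (2 / κ)) ^ (κ / 2) := by
          rw [← Real.rpow_mul (by linarith)]
          have h5 : 2 / κ * (κ / 2) = 1 := by field_simp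
          rw [h5, Real.rpow_one]
      _ ≤ (D : ℝ) ^ (κ / 2) := Real.rpow_le_rpow (by positivity) hDm (by positivity)
  have hDD : (D : ℝ) ^ κ = (D : ℝ) ^ (κ / 2) * (D : ℝ) ^ (κ / 2) := by
    rw [← Real.rpow_add hD0]
    congr 1
    ring
  have hX0 : 0 < X := lt_of_lt_of_le (Real.exp_pos _) hX
  obtain ⟨x, hx⟩ : ∃ x : ℝ, x = Real.log X := ⟨_, rfl⟩
  have hDx : (D : ℝ) ^ κ ≤ x := by
    rw [hx, ← Real.log_exp ((D : ℝ) ^ κ)]
    exact Real.log_le_log (Real.exp_pos _) hX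
  have hx2 : 2 ≤ x := by
    have h5 : 2 * 1 ≤ (D : ℝ) ^ (κ / 2) * (D : ℝ) ^ (κ / 2) :=
      mul_le_mul (hm2.trans hDκ) (by linarith) (by norm_num) (by linarith)
    linarith
  have hx0 : 0 < x := by linarith
  have hX1 : 1 ≤ X := by
    by_contra hc
    have h5 : Real.log X < 0 := Real.log_neg hX0 (not_le.1 hc)
    linarith
  by_contra hcard
  have hcard' : k ≤ ((Sq D).filter (fun d => ε < |SL W d X|)).card := by
    rw [hk]
    have h5 : K < (((Sq D).filter (fun d => ε < |SL W d X|)).card : ℝ) := not_le.1 hcard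
    exact Nat.succ_le_of_lt ((Nat.floor_lt hK0.le).2 h5)
  obtain ⟨B, hBs, hBc⟩ := Finset.exists_subset_card_eq hcard'
  have hsub : B ⊆ Sq D := hBs.trans (filter_subset _ _)
  have hMs : ∑ p ∈ OP ⌊X⌋₊, Real.log p / p ≤ 3 * x := by
    have h5 := h3 1 X le_rfl hX1
    have h6 : (OP ⌊X⌋₊).filter (fun p : ℕ => (1 : ℝ) < (p : ℝ)) = OP ⌊X⌋₊ := by
      refine Finset.filter_true_of_mem fun p hp => ?_
      exact_mod_cast (mem_filter.1 hp).2.1.one_lt
    rw [h6, div_one, ← hx] at h5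
    linarith
  have hlog : ∀ p : ℕ, Real.sqrt (Real.log p / p) * Real.sqrt (Real.log p / p) = Real.log p / p :=
    fun p => Real.mul_self_sqrt (lp0 p)
  have hsq : ∀ p : ℕ, Real.sqrt (Real.log p / p) ^ 2 = Real.log p / p := fun p => by
    rw [sq]
    exact hlog p
  have key := h1 ℤ ℕ B (OP ⌊X⌋₊) (fun d p => Real.sqrt (Real.log p / p) * jc d p)
    (fun p => W p * Real.sqrt (Real.log p / p)) (3 * x) (3 * (D : ℝ) ^ (κ / 2)) (by positivity)
    (by positivity) (by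
      intro d _
      refine le_trans (sum_le_sum (fun p _ => ?_)) hMs
      rw [mul_pow, hsq]
      exact mul_le_of_le_one_right (lp0 p) (Lgc_jc2 d p)) (by
      intro d hd d' hd' hne
      obtain ⟨hd1, hd2⟩ := mem_filter.1 (hsub hd)
      obtain ⟨hd3, hd4⟩ := mem_filter.1 (hsub hd')
      have h5 := hsw D hD₁ (d * d') (h2 d d' hd2 hd4 hne) (by
        push_cast
        rw [abs_mul, sq]
        have e1 : |(d : ℝ)| ≤ D := by
          rw [mem_Icc] at hd1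
          rw [abs_le]
          exact ⟨by exact_mod_cast hd1.1, by exact_mod_cast hd1.2⟩
        have e2 : |(d' : ℝ)| ≤ D := by
          rw [mem_Icc] at hd3
          rw [abs_le]
          exact ⟨by exact_mod_cast hd3.1, by exact_mod_cast hd3.2⟩
        exact mul_le_mul e1 e2 (abs_nonneg _) hD0.le) X hX
      refine le_trans (le_of_eq ?_) h5
      congr 1
      refine sum_congr rfl (fun p _ => ?_)
      have e3 : jc (d * d') p = jc d p * jc d' p := by
        unfold jc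
        rw [jacobiSym.mul_left]
        push_cast
        rfl
      rw [e3]
      calc Real.sqrt (Real.log p / p) * jc d p * (Real.sqrt (Real.log p / p) * jc d' p) =
            jc d p * jc d' p * (Real.sqrt (Real.log p / p) * Real.sqrt (Real.log p / p)) := by ring
        _ = _ := by rw [hlog])
  have hlow : ∀ d ∈ B, (ε * x) ^ 2 ≤ (∑ p ∈ OP ⌊X⌋₊,
      W p * Real.sqrt (Real.log p / p) * (Real.sqrt (Real.log p / p) * jc d p)) ^ 2 := by
    intro d hd
    rw [← sq_abs (∑ p ∈ OP ⌊X⌋₊, W p * Real.sqrt (Real.log p / p) *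
      (Real.sqrt (Real.log p / p) * jc d p)), hx]
    rw [hx] at hx0
    exact pow_le_pow_left₀ (by positivity) (Lgc_T W d hx0 (mem_filter.1 (hBs hd)).2) 2
  have ha : ∑ p ∈ OP ⌊X⌋₊, (W p * Real.sqrt (Real.log p / p)) ^ 2 ≤ 3 * C ^ 2 * x := by
    calc ∑ p ∈ OP ⌊X⌋₊, (W p * Real.sqrt (Real.log p / p)) ^ 2 ≤
          ∑ p ∈ OP ⌊X⌋₊, C ^ 2 * (Real.log p / p) := by
          refine sum_le_sum (fun p hp => ?_)
          rw [mul_pow, hsq]
          refine mul_le_mul_of_nonneg_right ?_ (lp0 p)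
          rw [← sq_abs]
          exact pow_le_pow_left₀ (abs_nonneg _) (hW p (mem_filter.1 hp).2.1) 2
      _ = C ^ 2 * ∑ p ∈ OP ⌊X⌋₊, Real.log p / p := by rw [mul_sum]
      _ ≤ C ^ 2 * (3 * x) := mul_le_mul_of_nonneg_left hMs (sq_nonneg _)
      _ = _ := by ring
  have hEB : 3 * (D : ℝ) ^ (κ / 2) * (B.card : ℝ) ≤ x := by
    rw [hBc]
    calc 3 * (D : ℝ) ^ (κ / 2) * (k : ℝ) = 3 * (k : ℝ) * (D : ℝ) ^ (κ / 2) := by ring
      _ ≤ (D : ℝ) ^ (κ / 2) * (D : ℝ) ^ (κ / 2) :=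
          mul_le_mul_of_nonneg_right (hm3.trans hDκ) (by positivity)
      _ = (D : ℝ) ^ κ := hDD.symm
      _ ≤ x := hDx
  have hmain : (B.card : ℝ) * (ε ^ 2 * x ^ 2) ≤ (12 * C ^ 2) * x ^ 2 := by
    calc (B.card : ℝ) * (ε ^ 2 * x ^ 2) = ∑ _d ∈ B, (ε * x) ^ 2 := by
          rw [sum_const, nsmul_eq_mul]
          ring
      _ ≤ _ := sum_le_sum hlow
      _ ≤ (3 * x + 3 * (D : ℝ) ^ (κ / 2) * (B.card : ℝ)) *
          ∑ p ∈ OP ⌊X⌋₊, (W p * Real.sqrt (Real.log p / p)) ^ 2 := key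
      _ ≤ (4 * x) * (3 * C ^ 2 * x) := by
          refine mul_le_mul (by linarith) ha (sum_nonneg (fun _ _ => sq_nonneg _)) (by positivity)
      _ = _ := by ring
  have h9 : (B.card : ℝ) * ε ^ 2 * x ^ 2 ≤ 12 * C ^ 2 * x ^ 2 := by
    calc (B.card : ℝ) * ε ^ 2 * x ^ 2 = (B.card : ℝ) * (ε ^ 2 * x ^ 2) := by ring
      _ ≤ _ := hmain
  have h10 : (B.card : ℝ) ≤ 12 * C ^ 2 / ε ^ 2 := by
    rw [le_div_iff₀ (by positivity)]
    exact le_of_mul_le_mul_right h9 (by positivity)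
  rw [hBc] at h10
  linarith

end Pool.Agent.Lib.NagA
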