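import Pool.Agent.Lib.MP_60fb2a_nt.An.SpecL
import Pool.Agent.Lib.MP_60fb2a_nt.An.Lip

set_option autoImplicit false

namespace Pool.Agent.Lib.NagA

open Polynomial Finset Classical

/-- the sum without the factor `1/log X` is bounded by `C ∑ (log p)/p` -/
theorem Lgl_T (W : ℕ → ℝ) (C : ℝ) (hW : Bd W C) (d : ℤ) (P : Finset ℕ) (hP : ∀ p ∈ P, p.Prime) :
    |∑ p ∈ P, W p * jc d p * (Real.log p / p)| ≤ C * ∑ p ∈ P, Real.log p / p := by
  rw [Finset.mul_sum]
  refine le_trans (Finset.abs_sum_le_sum_abs _ _) (Finset.sum_le_sum fun p hp => ?_)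
  have h1 := hW p (hP p hp)
  have h2 := Lip_jc d p
  have h3 : 0 ≤ Real.log p / p := div_nonneg (Real.log_natCast_nonneg p) (Nat.cast_nonneg _)
  rw [abs_mul, abs_mul, abs_of_nonneg h3]
  refine mul_le_mul_of_nonneg_right ?_ h3
  calc |W p| * |jc d p| ≤ C * 1 := mul_le_mul h1 h2 (abs_nonneg _) (le_trans (abs_nonneg _) h1)
    _ = C := mul_one C

/-- the sum over all odd primes up to `X` -/
theorem Lgl_all (hM : MrtStmt) (X : ℝ) (hX : 1 ≤ X) : ∑ p ∈ OP ⌊X⌋₊, Real.log p / p ≤ 2 + 2 * Real.log X := by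
  have h := hM 1 X le_rfl hX
  rw [div_one] at h
  refine le_trans (le_of_eq ?_) h
  congr 1
  symm
  refine Finset.filter_true_of_mem fun p hp => ?_
  unfold OP at hp
  have := (Finset.mem_filter.1 hp).2.1.one_lt
  exact_mod_cast this

/-- the sum over the new primes -/
theorem Lgl_new (hM : MrtStmt) (X X' : ℝ) (hX : 1 ≤ X) (h : X ≤ X') :
    ∑ p ∈ OP ⌊X'⌋₊ \ OP ⌊X⌋₊, Real.log p / p ≤ 2 + 2 * Real.log (X' / X) := by
  refine le_trans (Finset.sum_le_sum_of_subset_of_nonneg ?_ ?_) (hM X X' hX h)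
  · intro p hp
    rw [Finset.mem_sdiff] at hp
    rw [Finset.mem_filter]
    refine ⟨hp.1, ?_⟩
    rw [← Nat.floor_lt (by linarith)]
    by_contra h2
    apply hp.2
    unfold OP at *
    rw [Finset.mem_filter, Finset.mem_range] at *
    exact ⟨by omega, hp.1.2⟩
  · intro p _ _
    exact div_nonneg (Real.log_natCast_nonneg p) (Nat.cast_nonneg _)

theorem tLgl (hM : MrtStmt) : LglStmt := by
  intro C ε hC0 hε
  obtain ⟨h, hh⟩ : ∃ h : ℝ, h = min 1 (ε / (12 * C)) := ⟨_, rfl⟩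
  have h0 : 0 < h := by
    rw [hh]
    exact lt_min one_pos (by positivity)
  have h1 : h ≤ 1 := by
    rw [hh]
    exact min_le_left _ _
  have h2 : 12 * C * h ≤ ε := by
    have h3 : h ≤ ε / (12 * C) := by
      rw [hh]
      exact min_le_right _ _
    rw [le_div_iff₀ (by positivity)] at h3
    linarith
  refine ⟨h, Real.exp (max 1 (4 * C / ε)), h0, h1, ?_, ?_⟩
  · have h3 : Real.exp 1 ≤ Real.exp (max 1 (4 * C / ε)) := Real.exp_le_exp.2 (le_max_left _ _)
    have := Real.add_one_le_exp (1 : ℝ)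
    linarith
  intro W hW d X X' hX hXX' hX'
  have hX0 : 0 < X := lt_of_lt_of_le (Real.exp_pos _) hX
  have hX'0 : 0 < X' := by linarith
  obtain ⟨L, hL⟩ : ∃ L : ℝ, L = Real.log X := ⟨_, rfl⟩
  obtain ⟨L', hL'⟩ : ∃ L' : ℝ, L' = Real.log X' := ⟨_, rfl⟩
  have hLm : max 1 (4 * C / ε) ≤ L := by
    rw [hL, Real.le_log_iff_exp_le hX0]
    exact hX
  have hL1 : 1 ≤ L := le_trans (le_max_left _ _) hLm
  have hL2 : 4 * C ≤ L * ε := by
    have h3 := le_trans (le_max_right _ _) hLm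
    rwa [div_le_iff₀ hε] at h3
  have hL0 : 0 < L := by linarith
  have hX1 : 1 ≤ X := by
    rw [← Real.log_nonneg_iff hX0, ← hL]
    exact hL0.le
  have hLL' : L ≤ L' := by
    rw [hL, hL']
    exact Real.log_le_log hX0 hXX'
  have hL'0 : 0 < L' := by linarith
  have hL'2 : L' ≤ (1 + h) * L := by
    have h3 := Real.log_le_log hX'0 hX'
    rw [Real.log_rpow hX0] at h3
    rw [hL, hL']
    exact h3
  have hlog : Real.log (X' / X) = L' - L := by
    rw [Real.log_div hX'0.ne' hX0.ne', hL, hL']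
  have hfl : ⌊X⌋₊ ≤ ⌊X'⌋₊ := Nat.floor_le_floor hXX'
  have hsub := Lip_OP hfl
  have hpr : ∀ n : ℕ, ∀ p ∈ OP n, p.Prime := fun n p hp => (Finset.mem_filter.1 hp).2.1
  have b1 : |∑ p ∈ OP ⌊X⌋₊, W p * jc d p * (Real.log p / p)| ≤ C * (4 * L) := by
    refine le_trans (Lgl_T W C hW d _ (hpr _)) (mul_le_mul_of_nonneg_left ?_ hC0.le)
    have := Lgl_all hM X hX1
    rw [← hL] at this
    linarith
  have b2 : |∑ p ∈ OP ⌊X'⌋₊ \ OP ⌊X⌋₊, W p * jc d p * (Real.log p / p)| ≤ C * (2 + 2 * (h * L)) := by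
    refine le_trans (Lgl_T W C hW d (OP ⌊X'⌋₊ \ OP ⌊X⌋₊)
      (fun p hp => hpr _ p (Finset.mem_sdiff.1 hp).1)) (mul_le_mul_of_nonneg_left ?_ hC0.le)
    have := Lgl_new hM X X' hX1 hXX'
    rw [hlog] at this
    linarith
  have e1 : SL W d X' - SL W d X = (1 / L') * (∑ p ∈ OP ⌊X'⌋₊ \ OP ⌊X⌋₊, W p * jc d p * (Real.log p / p)) -
      (1 / L - 1 / L') * ∑ p ∈ OP ⌊X⌋₊, W p * jc d p * (Real.log p / p) := by
    unfold SL
    rw [← Finset.sum_sdiff hsub, ← hL, ← hL']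
    ring
  have c1 : 0 ≤ 1 / L - 1 / L' := by
    rw [sub_nonneg]
    exact one_div_le_one_div_of_le hL0 hLL'
  have c2 : (1 / L - 1 / L') * L ≤ h := by
    have e2 : (1 / L - 1 / L') * L = 1 - L / L' := by
      field_simp
    rw [e2]
    have e3 : 1 / (1 + h) ≤ L / L' := by
      rw [div_le_div_iff₀ (by linarith) hL'0]
      linarith
    have e5 : 1 - h ≤ 1 / (1 + h) := by
      rw [le_div_iff₀ (by linarith)]
      nlinarith
    linarith
  rw [e1]
  calc |(1 / L') * (∑ p ∈ OP ⌊X'⌋₊ \ OP ⌊X⌋₊, W p * jc d p * (Real.log p / p)) -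
      (1 / L - 1 / L') * ∑ p ∈ OP ⌊X⌋₊, W p * jc d p * (Real.log p / p)|
      ≤ |(1 / L') * (∑ p ∈ OP ⌊X'⌋₊ \ OP ⌊X⌋₊, W p * jc d p * (Real.log p / p))| +
        |(1 / L - 1 / L') * ∑ p ∈ OP ⌊X⌋₊, W p * jc d p * (Real.log p / p)| := abs_sub _ _
    _ ≤ (1 / L') * (C * (2 + 2 * (h * L))) + (1 / L - 1 / L') * (C * (4 * L)) := by
        rw [abs_mul, abs_mul, abs_of_pos (by positivity : 0 < 1 / L'), abs_of_nonneg c1]
        exact add_le_add (mul_le_mul_of_nonneg_left b2 (by positivity)) (mul_le_mul_of_nonneg_left b1 c1)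
    _ ≤ (1 / L) * (C * (2 + 2 * (h * L))) + (1 / L - 1 / L') * (C * (4 * L)) := by
        have : 1 / L' ≤ 1 / L := by linarith
        have h5 : 0 ≤ C * (2 + 2 * (h * L)) := by positivity
        have := mul_le_mul_of_nonneg_right this h5
        linarith
    _ = 2 * C / L + 2 * C * h + 4 * C * ((1 / L - 1 / L') * L) := by
        field_simp
    _ ≤ ε / 2 + 2 * C * h + 4 * C * h := by
        have h5 : 2 * C / L ≤ ε / 2 := by
          rw [div_le_iff₀ hL0]
          linarith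
        have h6 := mul_le_mul_of_nonneg_left c2 (by positivity : 0 ≤ 4 * C)
        linarith
    _ ≤ ε := by linarith

end Pool.Agent.Lib.NagA
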