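import Pool.Agent.Lib.MP_60fb2a_nt.An.SpecL

set_option autoImplicit false

namespace Pool.Agent.Lib.NagA

open Polynomial Finset Classical

theorem tLlo (hC : CntStmt) (hL : LabStmt) : LloStmt := by
  intro C ε δ hC0 hε hδ hδ1
  obtain ⟨D₀, H⟩ := hC C (ε / 2) δ hC0 (by positivity) hδ hδ1
  obtain ⟨m, hm⟩ : ∃ m : ℝ, m = max 3840 ((80 * C / ε) ^ 2) := ⟨_, rfl⟩
  obtain ⟨M, hM⟩ := exists_nat_ge (Real.exp m)
  refine ⟨max D₀ M, fun D hD W hW => ?_⟩
  have hD1 : D₀ ≤ D := le_trans (le_max_left _ _) hD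
  have hD2 : Real.exp m ≤ D := le_trans hM (by exact_mod_cast le_trans (le_max_right _ _) hD)
  have hDpos : (0 : ℝ) < D := lt_of_lt_of_le (Real.exp_pos _) hD2
  obtain ⟨L, hLL⟩ : ∃ L : ℝ, L = Real.log D := ⟨_, rfl⟩
  have hLm : m ≤ L := by
    rw [hLL, Real.le_log_iff_exp_le hDpos]
    exact hD2
  have hL1 : 3840 ≤ L := le_trans (by rw [hm]; exact le_max_left _ _) hLm
  have hL2 : (80 * C / ε) ^ 2 ≤ L := le_trans (by rw [hm]; exact le_max_right _ _) hLm
  have hL0 : 0 < L := by linarith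
  have hs : 80 * C / ε ≤ Real.sqrt L := by
    rw [← Real.sqrt_sq (by positivity : 0 ≤ 80 * C / ε)]
    exact Real.sqrt_le_sqrt hL2
  have hs1 : 1 ≤ Real.sqrt L := by
    rw [Real.one_le_sqrt]
    linarith
  have hs2 : Real.sqrt L * Real.sqrt L = L := Real.mul_self_sqrt hL0.le
  have hsq : Real.sqrt D = Real.exp (L / 2) := by
    rw [← Real.exp_log hDpos, ← hLL, ← Real.exp_half]
  have hpow : L ^ 4 ≤ Real.sqrt D := by
    rw [hsq]
    have h1 := Real.pow_div_factorial_le_exp (L / 2) (by linarith) 5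
    refine le_trans ?_ h1
    have h2 : ((5 : ℕ).factorial : ℝ) = 120 := by norm_num [Nat.factorial]
    rw [h2]
    have h3 : (L / 2) ^ 5 / 120 = L ^ 4 * (L / 3840) := by ring
    rw [h3]
    have h4 : 1 ≤ L / 3840 := by linarith
    have h5 : 0 ≤ L ^ 4 := by positivity
    nlinarith
  have hloglog : Real.log L ≤ 2 * Real.sqrt L := by
    have h1 : Real.log L = 2 * Real.log (Real.sqrt L) := by
      rw [Real.log_sqrt hL0.le]
      ring
    have h2 : Real.log (Real.sqrt L) ≤ Real.sqrt L := by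
      have := Real.log_le_sub_one_of_pos (Real.sqrt_pos.2 hL0)
      linarith
    linarith
  refine le_trans ?_ (H D hD1 W hW)
  refine Nat.cast_le.2 (Finset.card_le_card ?_)
  intro d hd
  rw [Finset.mem_filter] at hd ⊢
  refine ⟨hd.1, ?_⟩
  obtain ⟨X, hX1, hX2, hX3⟩ := hd.2
  by_contra hcon
  push Not at hcon
  have hX0 : 0 < X := lt_of_lt_of_le (Real.sqrt_pos.2 hDpos) hX1
  have hY1 : 1 ≤ L ^ 4 := one_le_pow₀ (by linarith)
  have hlX : L / 2 ≤ Real.log X := by
    rw [Real.le_log_iff_exp_le hX0, ← hsq]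
    exact hX1
  have hlX0 : 0 < Real.log X := by linarith
  have h1 := hL C (ε / 2) (L ^ 4) X W d hC0 (by positivity) hY1 (le_trans hpow hX1) hW (by
    intro t ht1 ht2
    rw [hLL] at ht1
    exact hcon t ht1 (le_trans ht2 hX2))
  have h2 : |SL W d X| ≤ ε := by
    unfold SL
    rw [abs_mul, abs_of_pos (by positivity : 0 < 1 / Real.log X)]
    have h3 : 2 * C + 2 * C * (1 + Real.log (L ^ 4)) + ε / 2 * Real.log X ≤ ε * Real.log X := by
      rw [Real.log_pow]
      push_cast
      have h4 : 80 * C ≤ Real.sqrt L * ε := by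
        rwa [div_le_iff₀ hε] at hs
      have h5 : 80 * C * Real.sqrt L ≤ ε * L := by
        have := mul_le_mul_of_nonneg_right h4 (Real.sqrt_nonneg L)
        nlinarith
      have h6 : 2 * C * (4 * Real.log L) ≤ 2 * C * (4 * (2 * Real.sqrt L)) :=
        mul_le_mul_of_nonneg_left (by linarith) (by positivity)
      have h7 : C ≤ C * Real.sqrt L := by nlinarith
      have h8 : ε * (L / 2) ≤ ε * Real.log X := mul_le_mul_of_nonneg_left hlX hε.le
      nlinarith
    calc 1 / Real.log X * |∑ p ∈ OP ⌊X⌋₊, W p * jc d p * (Real.log p / p)| ≤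
          1 / Real.log X * (ε * Real.log X) :=
          mul_le_mul_of_nonneg_left (le_trans h1 h3) (by positivity)
      _ = ε := by field_simp
  linarith

end Pool.Agent.Lib.NagA
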