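import Pool.Agent.Lib.MP_60fb2a_nt.An.Spec

set_option autoImplicit false

namespace Pool.Agent.Lib.NagA

open Polynomial Finset Classical

private theorem Lsq_sq (d : ℤ) (n : ℕ) : jc d n ^ 2 ≤ 1 := by
  unfold jc
  rcases jacobiSym.trichotomy d n with h | h | h <;> rw [h] <;> norm_num

theorem tLsq (h1 : SchStmt) (h2 : PerStmt) (h3 : SqfStmt) : LsqStmt := by
  intro S D N b hS
  have hmem : ∀ d ∈ S, Squarefree d ∧ |d| ≤ (D : ℤ) := by
    intro d hd
    have h := hS hd
    unfold Sq at h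
    rw [Finset.mem_filter, Finset.mem_Icc] at h
    exact ⟨h.2, abs_le.mpr h.1⟩
  have key := h1 ℤ ℕ S (Od N) (fun d n => jc d n) b (N : ℝ) (4 * (D : ℝ) ^ 2) (Nat.cast_nonneg _)
    (by positivity) ?_ ?_
  · exact key
  · intro d _
    calc ∑ n ∈ Od N, jc d n ^ 2 ≤ ∑ n ∈ Od N, (1 : ℝ) := Finset.sum_le_sum fun n _ => Lsq_sq d n
      _ = ((Od N).card : ℝ) := by simp
      _ ≤ (N : ℝ) := by
        have h : (Od N).card ≤ (Finset.Icc 1 N).card := Finset.card_le_card (Finset.filter_subset _ _)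
        rw [Nat.card_Icc] at h
        exact_mod_cast (by omega)
  · intro d hd d' hd' hne
    obtain ⟨a1, a2⟩ := hmem d hd
    obtain ⟨b1, b2⟩ := hmem d' hd'
    have e1 : ∑ n ∈ Od N, jc d n * jc d' n = ∑ n ∈ Od N, jc (d * d') n := by
      apply Finset.sum_congr rfl
      intro n _
      unfold jc
      rw [jacobiSym.mul_left]
      push_cast
      ring
    rw [e1]
    refine le_trans (h2 (d * d') (h3 d d' a1 b1 hne) N) ?_
    have e2 : |((d * d' : ℤ) : ℝ)| ≤ (D : ℝ) ^ 2 := by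
      have a3 : |(d : ℝ)| ≤ D := by exact_mod_cast a2
      have b3 : |(d' : ℝ)| ≤ D := by exact_mod_cast b2
      push_cast
      rw [abs_mul, sq]
      exact mul_le_mul a3 b3 (abs_nonneg _) (Nat.cast_nonneg _)
    linarith

end Pool.Agent.Lib.NagA
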