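import Pool.Agent.Lib.MP_60fb2a_nt.An.Spec

/-!
MP_60fb2a_nt, module Mom: the `k`-th power of a sum over primes as a Dirichlet polynomial.
-/

set_option autoImplicit false

namespace Pool.Agent.Lib.NagA

open Polynomial Finset Classical

private theorem Mom_jc_prod (d : ℤ) {ι : Type} (s : Finset ι) (g : ι → ℕ) (hg : ∀ i ∈ s, g i ≠ 0) :
    jc d (∏ i ∈ s, g i) = ∏ i ∈ s, jc d (g i) := by
  induction s using Finset.induction_on with
  | empty =>
    rw [Finset.prod_empty, Finset.prod_empty]
    unfold jc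
    rw [jacobiSym.one_right, Int.cast_one]
  | insert i s hi ih =>
    rw [Finset.prod_insert hi, Finset.prod_insert hi, ← ih fun j hj => hg j (Finset.mem_insert_of_mem hj)]
    unfold jc
    rw [jacobiSym.mul_right' d (hg i (Finset.mem_insert_self _ _))
      (Finset.prod_ne_zero_iff.2 fun j hj => hg j (Finset.mem_insert_of_mem hj)), Int.cast_mul]

/-- The number of the factorizations of `n` into `k` primes (with order) is at most `k!`. -/
private theorem Mom_card {k : ℕ} (G : Finset (Fin k → ℕ)) (n : ℕ)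
    (hG : ∀ f ∈ G, (∀ i, (f i).Prime) ∧ ∏ i, f i = n) : G.card ≤ k.factorial := by
  have key : ∀ f ∈ G, (List.ofFn f).Perm n.primeFactorsList := by
    intro f hf
    obtain ⟨h1, h2⟩ := hG f hf
    refine Nat.primeFactorsList_unique ?_ ?_
    · rw [List.prod_ofFn]
      exact h2
    · intro p hp
      rw [List.mem_ofFn] at hp
      obtain ⟨i, rfl⟩ := hp
      exact h1 i
  rcases G.eq_empty_or_nonempty with h | ⟨f0, hf0⟩
  · rw [h, Finset.card_empty]
    exact Nat.zero_le _
  · have hlen : n.primeFactorsList.length = k := by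
      rw [← (key f0 hf0).length_eq, List.length_ofFn]
    have h1 : (G.image fun f => List.ofFn f).card = G.card :=
      Finset.card_image_of_injective _ List.ofFn_injective
    have h2 : (G.image fun f => List.ofFn f) ⊆ n.primeFactorsList.permutations.toFinset := by
      intro l hl
      obtain ⟨f, hf, rfl⟩ := Finset.mem_image.1 hl
      rw [List.mem_toFinset, List.mem_permutations]
      exact key f hf
    calc G.card = (G.image fun f => List.ofFn f).card := h1.symm
      _ ≤ n.primeFactorsList.permutations.toFinset.card := Finset.card_le_card h2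
      _ ≤ n.primeFactorsList.permutations.length := List.toFinset_card_le _
      _ = k.factorial := by rw [List.length_permutations, hlen]

theorem tMom : MomStmt := by
  intro P Y hP a k
  obtain ⟨F, hF⟩ : ∃ F : Finset (Fin k → ℕ), F = Fintype.piFinset fun _ : Fin k => P := ⟨_, rfl⟩
  have hmem : ∀ f ∈ F, ∀ i, f i ∈ P := by
    intro f hf i
    rw [hF] at hf
    exact Fintype.mem_piFinset.1 hf i
  have hmaps : ∀ f ∈ F, ∏ i, f i ∈ Od (Y ^ k) := by
    intro f hf
    have h1 := hmem f hf
    unfold Od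
    rw [Finset.mem_filter, Finset.mem_Icc]
    refine ⟨⟨?_, ?_⟩, ?_⟩
    · exact Nat.one_le_iff_ne_zero.2 (Finset.prod_ne_zero_iff.2 fun i _ => (hP _ (h1 i)).1.ne_zero)
    · calc ∏ i, f i ≤ ∏ _i : Fin k, Y := Finset.prod_le_prod' fun i _ => (hP _ (h1 i)).2.2
        _ = Y ^ k := by rw [Finset.prod_const, Finset.card_univ, Fintype.card_fin]
    · rw [← Nat.odd_iff]
      refine Finset.prod_induction _ Odd (fun _ _ => Odd.mul) odd_one fun i _ => ?_
      exact (hP _ (h1 i)).1.odd_of_ne_two (hP _ (h1 i)).2.1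
  refine ⟨fun n => ∑ f ∈ F with ∏ i, f i = n, ∏ i, a (f i), ?_, ?_⟩
  · intro d
    rw [Finset.sum_pow', ← hF, ← Finset.sum_fiberwise_of_maps_to hmaps]
    refine Finset.sum_congr rfl fun n _ => ?_
    rw [Finset.sum_mul]
    refine Finset.sum_congr rfl fun f hf => ?_
    obtain ⟨hf1, hf2⟩ := Finset.mem_filter.1 hf
    rw [Finset.prod_mul_distrib, ← hf2,
      Mom_jc_prod d Finset.univ f fun i _ => (hP _ (hmem f hf1 i)).1.ne_zero]
  · calc ∑ n ∈ Od (Y ^ k), (∑ f ∈ F with ∏ i, f i = n, ∏ i, a (f i)) ^ 2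
        ≤ ∑ n ∈ Od (Y ^ k), (k.factorial : ℝ) * ∑ f ∈ F with ∏ i, f i = n, (∏ i, a (f i)) ^ 2 := by
          refine Finset.sum_le_sum fun n _ => ?_
          refine sq_sum_le_card_mul_sum_sq.trans (mul_le_mul_of_nonneg_right ?_
            (Finset.sum_nonneg fun _ _ => sq_nonneg _))
          have h1 := Mom_card (F.filter fun f => ∏ i, f i = n) n fun f hf => by
            obtain ⟨hf1, hf2⟩ := Finset.mem_filter.1 hf
            exact ⟨fun i => (hP _ (hmem f hf1 i)).1, hf2⟩
          exact_mod_cast h1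
      _ = (k.factorial : ℝ) * ∑ f ∈ F, (∏ i, a (f i)) ^ 2 := by
          rw [← Finset.mul_sum, Finset.sum_fiberwise_of_maps_to hmaps]
      _ = (k.factorial : ℝ) * (∑ p ∈ P, a p ^ 2) ^ k := by
          rw [Finset.sum_pow', ← hF]
          congr 1
          exact Finset.sum_congr rfl fun f _ => (Finset.prod_pow _ _ _).symm

end Pool.Agent.Lib.NagA
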