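import Pool.Agent.Lib.MP_60fb2a_nt.An.SpecL

set_option autoImplicit false

namespace Pool.Agent.Lib.NagA

open Polynomial Finset Classical

theorem Mrt_F (f : ℕ → ℝ) (n : ℕ) : ∑ p ∈ OP n, f p =
    ∑ p ∈ Finset.range (n + 1), (if p.Prime ∧ p ≠ 2 then f p else 0) := by
  unfold OP
  rw [Finset.sum_filter]

theorem Mrt_S (f : ℕ → ℝ) (m n : ℕ) : ∑ p ∈ (OP n).filter (fun p => m < p), f p =
    ∑ p ∈ Finset.range (n + 1), (if m < p then (if p.Prime ∧ p ≠ 2 then f p else 0) else 0) := by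
  rw [Finset.sum_filter]
  unfold OP
  rw [Finset.sum_filter]
  refine Finset.sum_congr rfl fun p _ => ?_
  split_ifs <;> rfl

/-- Abel summation. -/
theorem Mrt_abel (f : ℕ → ℝ) (m N : ℕ) (h : m + 1 ≤ N) :
    ∑ p ∈ (OP N).filter (fun p => m < p), f p / p =
      (∑ p ∈ OP N, f p) / N - (∑ p ∈ OP m, f p) / ((m : ℝ) + 1) +
        ∑ n ∈ Finset.Ico (m + 1) N, (∑ p ∈ OP n, f p) / ((n : ℝ) * ((n : ℝ) + 1)) := by
  induction N, h using Nat.le_induction with
  | base =>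
    rw [Finset.Ico_self, Finset.sum_empty, add_zero, Mrt_S, Mrt_F, Mrt_F]
    rw [Finset.sum_range_succ _ (m + 1), Finset.sum_range_succ _ (m + 1)]
    have h1 : ∑ p ∈ Finset.range (m + 1), (if m < p then (if p.Prime ∧ p ≠ 2 then f p / p else 0) else 0) = 0 := by
      refine Finset.sum_eq_zero fun p hp => ?_
      rw [Finset.mem_range] at hp
      rw [if_neg (by omega)]
    rw [h1, zero_add, if_pos (by omega)]
    push_cast
    split_ifs
    · field_simp
      ring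
    · simp
  | succ N hN ih =>
    have hN0 : (N : ℝ) ≠ 0 := by
      have : 0 < N := by omega
      positivity
    have hN1 : (N : ℝ) + 1 ≠ 0 := by positivity
    rw [Finset.sum_Ico_succ_top hN]
    rw [Mrt_S] at ih ⊢
    rw [Finset.sum_range_succ, ih, if_pos (by omega)]
    rw [Mrt_F f (N + 1), Finset.sum_range_succ, ← Mrt_F f N]
    push_cast
    set u := ∑ n ∈ Finset.Ico (m + 1) N, (∑ p ∈ OP n, f p) / ((n : ℝ) * ((n : ℝ) + 1))
    set v := (∑ p ∈ OP m, f p) / ((m : ℝ) + 1)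
    set w := ∑ p ∈ OP N, f p
    split_ifs
    · field_simp
      ring
    · field_simp
      ring

theorem Mrt_step (n : ℕ) (hn : 1 ≤ n) : 1 / ((n : ℝ) + 1) ≤ Real.log ((n : ℝ) + 1) - Real.log n := by
  have h0 : (0 : ℝ) < n := by exact_mod_cast hn
  rw [← Real.log_div (by positivity) (by positivity)]
  have h := Real.one_sub_inv_le_log_of_pos (x := ((n : ℝ) + 1) / n) (by positivity)
  refine le_trans (le_of_eq ?_) h
  field_simp
  ring

theorem Mrt_harm (a N : ℕ) (ha : 1 ≤ a) (h : a ≤ N) :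
    ∑ n ∈ Finset.Ico a N, 1 / ((n : ℝ) + 1) ≤ Real.log N - Real.log a := by
  induction N, h using Nat.le_induction with
  | base => simp
  | succ N hN ih =>
    rw [Finset.sum_Ico_succ_top hN]
    have := Mrt_step N (by omega)
    push_cast
    linarith

theorem Mrt_theta (hC : ChbStmt) (n : ℕ) (hn : 1 ≤ n) : ∑ p ∈ OP n, Real.log p ≤ 2 * (n : ℝ) := by
  have h := (hC (n : ℝ) (by exact_mod_cast hn)).1
  rwa [Nat.floor_natCast] at h

theorem Mrt_nat (hC : ChbStmt) (m N : ℕ) (h : m + 1 ≤ N) :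
    ∑ p ∈ (OP N).filter (fun p => m < p), Real.log p / p ≤ 2 + 2 * (Real.log N - Real.log ((m : ℝ) + 1)) := by
  rw [Mrt_abel (fun p => Real.log p) m N h]
  have hN0 : (0 : ℝ) < N := by
    have : 0 < N := by omega
    positivity
  have h1 : (∑ p ∈ OP N, Real.log p) / N ≤ 2 := by
    rw [div_le_iff₀ hN0]
    exact Mrt_theta hC N (by omega)
  have h2 : 0 ≤ (∑ p ∈ OP m, Real.log p) / ((m : ℝ) + 1) :=
    div_nonneg (Finset.sum_nonneg fun p _ => Real.log_natCast_nonneg p) (by positivity)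
  have h3 : ∑ n ∈ Finset.Ico (m + 1) N, (∑ p ∈ OP n, Real.log p) / ((n : ℝ) * ((n : ℝ) + 1)) ≤
      2 * ∑ n ∈ Finset.Ico (m + 1) N, 1 / ((n : ℝ) + 1) := by
    rw [Finset.mul_sum]
    refine Finset.sum_le_sum fun n hn => ?_
    rw [Finset.mem_Ico] at hn
    have hn0 : (0 : ℝ) < n := by
      have : 0 < n := by omega
      positivity
    have h4 := Mrt_theta hC n (by omega)
    rw [div_le_iff₀ (by positivity)]
    have h5 : 2 * (1 / ((n : ℝ) + 1)) * ((n : ℝ) * ((n : ℝ) + 1)) = 2 * n := by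
      field_simp
    rw [h5]
    exact h4
  have h4 := Mrt_harm (m + 1) N (by omega) h
  push_cast at h4
  linarith

theorem tMrt (hC : ChbStmt) : MrtStmt := by
  intro Y Z hY hYZ
  have hY0 : 0 < Y := by linarith
  have hZ0 : 0 < Z := by linarith
  have h1 : (OP ⌊Z⌋₊).filter (fun p : ℕ => Y < (p : ℝ)) = (OP ⌊Z⌋₊).filter (fun p : ℕ => ⌊Y⌋₊ < p) := by
    refine Finset.filter_congr fun p _ => ?_
    rw [Nat.floor_lt hY0.le]
  rw [h1]
  have hfl : ⌊Y⌋₊ ≤ ⌊Z⌋₊ := Nat.floor_le_floor hYZ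
  have hlog : 0 ≤ Real.log (Z / Y) := Real.log_nonneg (by rw [le_div_iff₀ hY0]; linarith)
  rcases hfl.eq_or_lt with h | h
  · have h2 : (OP ⌊Z⌋₊).filter (fun p : ℕ => ⌊Y⌋₊ < p) = ∅ := by
      refine Finset.filter_eq_empty_iff.2 fun p hp => ?_
      unfold OP at hp
      rw [Finset.mem_filter, Finset.mem_range] at hp
      omega
    rw [h2, Finset.sum_empty]
    linarith
  · refine le_trans (Mrt_nat hC ⌊Y⌋₊ ⌊Z⌋₊ h) ?_
    have h3 : Real.log (⌊Z⌋₊ : ℝ) ≤ Real.log Z :=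
      Real.log_le_log (by exact_mod_cast (by omega : 0 < ⌊Z⌋₊)) (Nat.floor_le hZ0.le)
    have h4 : Real.log Y ≤ Real.log ((⌊Y⌋₊ : ℝ) + 1) := Real.log_le_log hY0 (Nat.lt_floor_add_one Y).le
    rw [Real.log_div hZ0.ne' hY0.ne']
    linarith

end Pool.Agent.Lib.NagA
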