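import Pool.Agent.Lib.MP_60fb2a_nt.An.Spec

/-!
MP_60fb2a_nt, module Ncs: a polynomial that is not a constant times a square over the rationals is not a constant
times a square modulo almost all primes.
-/

set_option autoImplicit false

namespace Pool.Agent.Lib.NagA

open Polynomial Finset Classical

/-- squarefree part over a field -/
private lemma Ncs_sqf {K : Type} [Field K] : ∀ (n : ℕ) (f : K[X]), f ≠ 0 → f.natDegree ≤ n →
    ∃ g h : K[X], f = g ^ 2 * h ∧ Squarefree h := by
  intro n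
  induction n using Nat.strong_induction_on with
  | _ n ih =>
    intro f hf hn
    by_cases hs : Squarefree f
    · exact ⟨1, f, by ring, hs⟩
    · have : ∃ q : K[X], q * q ∣ f ∧ ¬ IsUnit q := by
        by_contra hc
        push Not at hc
        exact hs (fun q hq => hc q hq)
      obtain ⟨q, ⟨f1, hf1⟩, hq⟩ := this
      have hq0 : q ≠ 0 := by
        rintro rfl
        apply hf
        rw [hf1]; simp
      have hf10 : f1 ≠ 0 := by
        rintro rfl
        apply hf
        rw [hf1]; simp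
      have hdq : 0 < q.natDegree := by
        rw [Nat.pos_iff_ne_zero]
        intro h
        apply hq
        rw [Polynomial.isUnit_iff_degree_eq_zero, Polynomial.degree_eq_natDegree hq0, h]
        rfl
      have hd : f.natDegree = q.natDegree + q.natDegree + f1.natDegree := by
        rw [hf1, Polynomial.natDegree_mul (mul_ne_zero hq0 hq0) hf10,
          Polynomial.natDegree_mul hq0 hq0]
      obtain ⟨g, h, h1, h2⟩ := ih f1.natDegree (by omega) f1 hf10 le_rfl
      exact ⟨q * g, h, by rw [hf1, h1]; ring, h2⟩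

/-- descent -/
private lemma Ncs_desc {K : Type} [Field K] (h : K[X]) (hs : Squarefree h) (hd : 0 < h.natDegree)
    (y : K) : ∀ (n : ℕ) (g k : K[X]), g ≠ 0 → g.natDegree ≤ n → h * g ^ 2 = C y * k ^ 2 →
      False := by
  have hh0 : h ≠ 0 := by
    rintro rfl
    simp at hd
  intro n
  induction n using Nat.strong_induction_on with
  | _ n ih =>
    intro g k hg hn heq
    have hy : y ≠ 0 := by
      rintro rfl
      rw [C_0, zero_mul] at heq
      exact mul_ne_zero hh0 (pow_ne_zero 2 hg) heq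
    have hyu : IsUnit (C y : K[X]) := Polynomial.isUnit_C.2 (isUnit_iff_ne_zero.2 hy)
    have h1 : h ∣ k := by
      have : h ∣ k ^ 2 := (hyu.dvd_mul_left).1 ⟨g ^ 2, heq.symm⟩
      exact (hs.dvd_pow_iff_dvd two_ne_zero).1 this
    obtain ⟨k1, rfl⟩ := h1
    have h2 : g ^ 2 = C y * h * k1 ^ 2 := by
      apply mul_left_cancel₀ hh0
      rw [heq]; ring
    have h3 : h ∣ g := by
      have : h ∣ g ^ 2 := ⟨C y * k1 ^ 2, by rw [h2]; ring⟩
      exact (hs.dvd_pow_iff_dvd two_ne_zero).1 this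
    obtain ⟨m, rfl⟩ := h3
    have hm : m ≠ 0 := by
      rintro rfl
      simp at hg
    have h4 : h * m ^ 2 = C y * k1 ^ 2 := by
      apply mul_left_cancel₀ hh0
      have : h * (h * m ^ 2) = (h * m) ^ 2 := by ring
      rw [this, h2]; ring
    have h5 : (h * m).natDegree = h.natDegree + m.natDegree := Polynomial.natDegree_mul hh0 hm
    exact ih m.natDegree (by omega) m k1 hm le_rfl h4

/-- clearing denominators -/
private lemma Ncs_clear (g : ℚ[X]) : ∃ (b : ℤ) (G : ℤ[X]), b ≠ 0 ∧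
    G.map (Int.castRingHom ℚ) = C (b : ℚ) * g := by
  obtain ⟨b, hbm, hb⟩ := IsLocalization.integerNormalization_spec (nonZeroDivisors ℤ) g
  refine ⟨b, IsLocalization.integerNormalization (nonZeroDivisors ℤ) g,
    nonZeroDivisors.ne_zero hbm, ?_⟩
  have h1 : (algebraMap ℤ ℚ) = Int.castRingHom ℚ := rfl
  rw [← h1, hb, Algebra.smul_def]
  rfl

theorem tNcs : NcsStmt := by
  intro f hf
  have hinj : Function.Injective (Int.castRingHom ℚ) := Int.cast_injective
  have hminj : Function.Injective (Polynomial.map (Int.castRingHom ℚ)) :=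
    Polynomial.map_injective _ hinj
  have hf0 : f.map (Int.castRingHom ℚ) ≠ 0 := by
    intro h
    exact hf 0 0 (by rw [h]; simp)
  obtain ⟨g, h, hgh, hsq⟩ := Ncs_sqf _ _ hf0 le_rfl
  have hg0 : g ≠ 0 := by
    rintro rfl
    apply hf0
    rw [hgh]; simp
  have hh0 : h ≠ 0 := by
    rintro rfl
    apply hf0
    rw [hgh]; simp
  have hdeg : 0 < h.natDegree := by
    rw [Nat.pos_iff_ne_zero]
    intro h1
    obtain ⟨c, hc⟩ : ∃ c, h = C c := ⟨_, Polynomial.eq_C_of_natDegree_eq_zero h1⟩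
    exact hf c g (by rw [hgh, hc]; ring)
  obtain ⟨b1, G, hb1, hG⟩ := Ncs_clear g
  obtain ⟨b2, H, hb2, hH⟩ := Ncs_clear h
  have hb1q : (b1 : ℚ) ≠ 0 := by exact_mod_cast hb1
  have hb2q : (b2 : ℚ) ≠ 0 := by exact_mod_cast hb2
  have hG0 : G ≠ 0 := by
    rintro rfl
    rw [Polynomial.map_zero] at hG
    exact mul_ne_zero (Polynomial.C_ne_zero.2 hb1q) hg0 hG.symm
  have hHdeg : H.natDegree = h.natDegree := by
    rw [← Polynomial.natDegree_map_eq_of_injective hinj H, hH, Polynomial.natDegree_C_mul hb2q]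
  have hH0 : H ≠ 0 := by
    rintro rfl
    simp at hHdeg
    omega
  -- the identity over the integers
  have hid : H * G ^ 2 = C (b1 ^ 2 * b2) * f := by
    apply hminj
    rw [Polynomial.map_mul, Polynomial.map_pow, Polynomial.map_mul, hG, hH, hgh, Polynomial.map_C]
    simp only [eq_intCast, Int.cast_mul, Int.cast_pow, C_mul, C_pow]
    ring
  -- separability
  have hsep : (H.map (Int.castRingHom ℚ)).Separable := by
    rw [hH]
    have h1 : h.Separable := PerfectField.separable_iff_squarefree.2 hsq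
    obtain ⟨a, b, hab⟩ := h1
    have hb : C (b2 : ℚ)⁻¹ * C (b2 : ℚ) = (1 : ℚ[X]) := by
      rw [← C_mul, inv_mul_cancel₀ hb2q, C_1]
    refine ⟨C (b2 : ℚ)⁻¹ * a, C (b2 : ℚ)⁻¹ * b, ?_⟩
    rw [derivative_C_mul]
    calc C (b2 : ℚ)⁻¹ * a * (C (b2 : ℚ) * h) + C (b2 : ℚ)⁻¹ * b * (C (b2 : ℚ) * derivative h)
        = (C (b2 : ℚ)⁻¹ * C (b2 : ℚ)) * (a * h + b * derivative h) := by ring
      _ = 1 := by rw [hb, hab, one_mul]
  obtain ⟨U, V, hUV⟩ := hsep
  obtain ⟨c1, U1, hc1, hU1⟩ := Ncs_clear U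
  obtain ⟨c2, V1, hc2, hV1⟩ := Ncs_clear V
  have hbez : C c2 * U1 * H + C c1 * V1 * derivative H = C (c1 * c2) := by
    apply hminj
    rw [Polynomial.map_add, Polynomial.map_mul, Polynomial.map_mul, Polynomial.map_mul,
      Polynomial.map_mul, hU1, hV1, ← Polynomial.derivative_map, Polynomial.map_C,
      Polynomial.map_C, Polynomial.map_C]
    simp only [eq_intCast, Int.cast_mul, C_mul]
    have : C (c2 : ℚ) * (C (c1 : ℚ) * U) * Polynomial.map (Int.castRingHom ℚ) H +
        C (c1 : ℚ) * (C (c2 : ℚ) * V) * derivative (Polynomial.map (Int.castRingHom ℚ) H) =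
        C (c1 : ℚ) * C (c2 : ℚ) * (U * Polynomial.map (Int.castRingHom ℚ) H +
          V * derivative (Polynomial.map (Int.castRingHom ℚ) H)) := by ring
    rw [this, hUV, mul_one]
  refine ⟨c1 * c2 * H.leadingCoeff * G.leadingCoeff, ?_, ?_⟩
  · exact mul_ne_zero (mul_ne_zero (mul_ne_zero hc1 hc2) (Polynomial.leadingCoeff_ne_zero.2 hH0))
      (Polynomial.leadingCoeff_ne_zero.2 hG0)
  intro p hp hpN x k hk
  have : Fact p.Prime := ⟨hp⟩
  have hc12 : ((c1 * c2 : ℤ) : ZMod p) ≠ 0 := by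
    rw [Ne, ZMod.intCast_zmod_eq_zero_iff_dvd]
    intro hd
    exact hpN (dvd_mul_of_dvd_left (dvd_mul_of_dvd_left hd _) _)
  have hHl : ((H.leadingCoeff : ℤ) : ZMod p) ≠ 0 := by
    rw [Ne, ZMod.intCast_zmod_eq_zero_iff_dvd]
    intro hd
    exact hpN (dvd_mul_of_dvd_left (dvd_mul_of_dvd_right hd _) _)
  have hGl : ((G.leadingCoeff : ℤ) : ZMod p) ≠ 0 := by
    rw [Ne, ZMod.intCast_zmod_eq_zero_iff_dvd]
    intro hd
    exact hpN (dvd_mul_of_dvd_right hd _)
  set φ := Int.castRingHom (ZMod p) with hφ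
  have hHd : (H.map φ).natDegree = H.natDegree :=
    Polynomial.natDegree_map_of_leadingCoeff_ne_zero φ hHl
  have hGm : G.map φ ≠ 0 := by
    intro h0
    have : (G.map φ).coeff G.natDegree = 0 := by rw [h0]; simp
    rw [Polynomial.coeff_map] at this
    exact hGl this
  have hsepp : (H.map φ).Separable := by
    have h1 := congrArg (Polynomial.map φ) hbez
    rw [Polynomial.map_add, Polynomial.map_mul, Polynomial.map_mul, Polynomial.map_mul,
      Polynomial.map_mul, ← Polynomial.derivative_map, Polynomial.map_C,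
      Polynomial.map_C, Polynomial.map_C] at h1
    have h2 : IsUnit (C (φ (c1 * c2))) := Polynomial.isUnit_C.2 (isUnit_iff_ne_zero.2 hc12)
    obtain ⟨w, hw⟩ := h2
    refine ⟨(↑w⁻¹ : (ZMod p)[X]) * (C (φ c2) * U1.map φ), (↑w⁻¹ : (ZMod p)[X]) * (C (φ c1) * V1.map φ), ?_⟩
    have h3 : (↑w⁻¹ : (ZMod p)[X]) * (C (φ c2) * U1.map φ) * H.map φ +
        (↑w⁻¹ : (ZMod p)[X]) * (C (φ c1) * V1.map φ) * derivative (H.map φ) =
        (↑w⁻¹ : (ZMod p)[X]) * (C (φ c2) * U1.map φ * H.map φ +
          C (φ c1) * V1.map φ * derivative (H.map φ)) := by ring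
    rw [h3, h1, ← hw]
    exact w.inv_mul
  have hsqp : Squarefree (H.map φ) := hsepp.squarefree
  refine Ncs_desc (H.map φ) hsqp (by omega) (φ (b1 ^ 2 * b2) * x) _ (G.map φ) k hGm le_rfl ?_
  have h1 := congrArg (Polynomial.map φ) hid
  rw [Polynomial.map_mul, Polynomial.map_pow, Polynomial.map_mul, Polynomial.map_C, hk] at h1
  rw [h1, C_mul]
  ring

end Pool.Agent.Lib.NagA
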