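import Pool.Agent.Lib.MP_60fb2a_nt.An.SpecL
import Pool.Agent.Lib.MP_60fb2a_nt.An.Nss

set_option autoImplicit false

namespace Pool.Agent.Lib.NagA

open Polynomial Finset Classical

theorem tNls (hT : TwsStmt) : NlsStmt := by
  intro A B d X hX
  have hX0 : 0 < Real.log X := Real.log_pos hX
  unfold NL SL
  rw [Nss_split]
  have h1 : ∑ p ∈ OP ⌊X⌋₊, Av (twA d A) (twB d B) p * (Real.log p / p) =
      ∑ p ∈ OP ⌊X⌋₊, Av A B p * jc d p * (Real.log p / p) := by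
    apply Finset.sum_congr rfl
    intro p hp
    obtain ⟨-, h2, h3⟩ := Finset.mem_filter.1 hp
    rw [hT A B d p h2 h3]
    ring
  rw [h1]
  set U := ∑ p ∈ OP ⌊X⌋₊, Av A B p * jc d p * (Real.log p / p) with hU
  have h2 : -(1 / Real.log X) * (U + (if 2 ≤ ⌊X⌋₊ then Av (twA d A) (twB d B) 2 *
      (Real.log ((2 : ℕ) : ℝ) / ((2 : ℕ) : ℝ)) else 0)) + 1 / Real.log X * U =
      -(1 / Real.log X) * (if 2 ≤ ⌊X⌋₊ then Av (twA d A) (twB d B) 2 *
        (Real.log ((2 : ℕ) : ℝ) / ((2 : ℕ) : ℝ)) else 0) := by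
    ring
  rw [h2, abs_mul, abs_neg, abs_of_pos (by positivity : 0 < 1 / Real.log X)]
  have h3 : |(if 2 ≤ ⌊X⌋₊ then Av (twA d A) (twB d B) 2 *
      (Real.log ((2 : ℕ) : ℝ) / ((2 : ℕ) : ℝ)) else 0)| ≤ 4 := by
    split_ifs
    · rw [abs_mul]
      have h4 : |Real.log ((2 : ℕ) : ℝ) / ((2 : ℕ) : ℝ)| ≤ 1 := by
        rw [abs_of_nonneg (div_nonneg (Real.log_nonneg (by norm_num)) (by norm_num))]
        push_cast
        have := Real.log_two_lt_d9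
        linarith
      calc |Av (twA d A) (twB d B) 2| * |Real.log ((2 : ℕ) : ℝ) / ((2 : ℕ) : ℝ)| ≤ 2 * 1 :=
            mul_le_mul (Nss_av2 _ _) h4 (abs_nonneg _) (by norm_num)
        _ ≤ 4 := by norm_num
    · simp
  calc 1 / Real.log X * |(if 2 ≤ ⌊X⌋₊ then Av (twA d A) (twB d B) 2 *
        (Real.log ((2 : ℕ) : ℝ) / ((2 : ℕ) : ℝ)) else 0)| ≤ 1 / Real.log X * 4 :=
        mul_le_mul_of_nonneg_left h3 (by positivity)
    _ = 4 / Real.log X := by ring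

end Pool.Agent.Lib.NagA
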