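import Pool.Agent.Lib.MP_60fb2a_nt.An.Spec

/-!
# Nagao sums, module Nsq: a nonsquare is a nonresidue somewhere
-/

set_option autoImplicit false

namespace Pool.Agent.Lib.NagA

open Polynomial Finset Classical
open scoped NumberTheorySymbols

private theorem Nsq_s {s : ℤ} (hs : s = 1 ∨ s = -1 ∨ s = 2 ∨ s = -2) {n : ℕ} (hn : n % 8 = 1) :
    jacobiSym s n = 1 := by
  have ho : Odd n := Nat.odd_iff.2 (by omega)
  rcases hs with rfl | rfl | rfl | rfl
  · exact jacobiSym.one_left n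
  · rw [jacobiSym.at_neg_one ho]
    exact ZMod.χ₄_nat_one_mod_four (by omega)
  · rw [jacobiSym.at_two ho, ZMod.χ₈_nat_eq_if_mod_eight]
    rw [if_neg (by omega), if_pos (Or.inl hn)]
  · rw [jacobiSym.at_neg_two ho, ZMod.χ₈'_nat_eq_if_mod_eight]
    rw [if_neg (by omega), if_pos (Or.inl hn)]

/-- The case of an odd squarefree part larger than `1`. -/
private theorem Nsq_big {s : ℤ} (hs : s = 1 ∨ s = -1 ∨ s = 2 ∨ s = -2) {u : ℕ} (hu : 1 < u)
    (hodd : u % 2 = 1) (hsq : Squarefree u) {K : ℕ} (hK : K ≠ 0) :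
    ∃ n : ℕ, n % 2 = 1 ∧ n.Coprime K ∧ jacobiSym (s * u) n = -1 := by
  obtain ⟨q, hq, v, rfl⟩ := Nat.exists_prime_and_dvd (show u ≠ 1 by omega)
  have : Fact q.Prime := ⟨hq⟩
  have hq2 : q ≠ 2 := by
    rintro rfl
    omega
  have hv0 : v ≠ 0 := by
    rintro rfl
    simp at hodd
  have hqo : Odd q := hq.odd_of_ne_two hq2
  have hvo : v % 2 = 1 := by
    rcases Nat.mod_two_eq_zero_or_one v with h | h
    · rw [Nat.mul_mod, h] at hodd
      simp at hodd
    · exact h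
  have hqv : ¬ q ∣ v := by
    intro h
    have h1 : q * q ∣ q * v := Nat.mul_dvd_mul_left q h
    have h2 := hsq q h1
    exact hq.one_lt.ne' (Nat.isUnit_iff.1 h2)
  obtain ⟨a, K', hK', hKe⟩ := Nat.exists_eq_pow_mul_and_not_dvd hK q hq.ne_one
  obtain ⟨c, hc⟩ := FiniteField.exists_nonsquare (F := ZMod q)
    (by rw [ZMod.ringChar_zmod_n]; exact hq2)
  have hco : (8 * v * K').Coprime q := by
    rw [Nat.coprime_comm, Nat.Prime.coprime_iff_not_dvd hq]
    intro h
    rcases (Nat.Prime.dvd_mul hq).1 h with h | h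
    · rcases (Nat.Prime.dvd_mul hq).1 h with h | h
      · have h8 : q ∣ 2 ^ 3 := by simpa using h
        exact hq2 ((Nat.prime_dvd_prime_iff_eq hq Nat.prime_two).1 (hq.dvd_of_dvd_pow h8))
      · exact hqv h
    · exact hK' h
  obtain ⟨n, hn1, hn2⟩ := Nat.chineseRemainder hco 1 c.val
  have hn8 : n % 8 = 1 := by
    have h := Nat.ModEq.of_dvd (Dvd.intro (v * K') (by ring)) hn1 (m := 8)
    exact h
  have hnv : n ≡ 1 [MOD v] := Nat.ModEq.of_dvd (Dvd.intro (8 * K') (by ring)) hn1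
  have hnK : n ≡ 1 [MOD K'] := Nat.ModEq.of_dvd (Dvd.intro_left (8 * v) rfl) hn1
  have hcz : ((n : ℕ) : ZMod q) = c := by
    have h := (ZMod.natCast_eq_natCast_iff n c.val q).2 hn2
    rw [h, ZMod.natCast_zmod_val]
  have hqn : n.Coprime q := by
    rw [Nat.coprime_comm, Nat.Prime.coprime_iff_not_dvd hq]
    intro h
    have h1 := (ZMod.natCast_eq_zero_iff n q).2 h
    rw [hcz] at h1
    exact hc (by rw [h1]; exact IsSquare.zero)
  refine ⟨n, by omega, ?_, ?_⟩
  · rw [hKe]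
    refine Nat.Coprime.mul_right (hqn.pow_right a) ?_
    rw [Nat.coprime_iff_gcd_eq_one, Nat.ModEq.gcd_eq hnK]
    exact Nat.gcd_one_left K'
  · rw [jacobiSym.mul_left, Nsq_s hs hn8, one_mul]
    have : NeZero q := ⟨hq.ne_zero⟩
    have : NeZero v := ⟨hv0⟩
    rw [← jacobiSym.quadratic_reciprocity_one_mod_four (by omega) (Nat.odd_iff.2 hodd),
      jacobiSym.mul_right]
    have h1 : jacobiSym n v = 1 := by
      rw [jacobiSym.mod_left' (a₂ := 1), jacobiSym.one_left]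
      exact_mod_cast hnv
    have h2 : jacobiSym n q = -1 := by
      rw [← jacobiSym.legendreSym.to_jacobiSym, legendreSym.eq_neg_one_iff]
      rw [Int.cast_natCast, hcz]
      exact hc
    rw [h1, h2, mul_one]

/-- The case of the odd squarefree part `1`. -/
private theorem Nsq_small {s : ℤ} (hs : s = -1 ∨ s = 2 ∨ s = -2) {K : ℕ} (hK : K ≠ 0) :
    ∃ n : ℕ, n % 2 = 1 ∧ n.Coprime K ∧ jacobiSym s n = -1 := by
  obtain ⟨a, K', hK', hKe⟩ := Nat.exists_eq_pow_mul_and_not_dvd hK 2 (by norm_num)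
  have hco : (8 : ℕ).Coprime K' := by
    have h1 : Nat.Coprime 2 K' := (Nat.Prime.coprime_iff_not_dvd Nat.prime_two).2 hK'
    have h2 : Nat.Coprime (2 ^ 3) K' := h1.pow_left 3
    simpa using h2
  have key : ∀ c : ℕ, c % 2 = 1 → c < 8 → ∃ n : ℕ, n % 2 = 1 ∧ n.Coprime K ∧ n % 8 = c := by
    intro c hc hc8
    obtain ⟨n, hn1, hn2⟩ := Nat.chineseRemainder hco c 1
    have h8 : n % 8 = c := by
      have h : n % 8 = c % 8 := hn1
      omega
    have hno : n % 2 = 1 := by omega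
    refine ⟨n, hno, ?_, h8⟩
    rw [hKe]
    refine Nat.Coprime.mul_right ?_ ?_
    · refine Nat.Coprime.pow_right a ?_
      rw [Nat.coprime_comm]
      exact Nat.coprime_two_left.2 (Nat.odd_iff.2 hno)
    · rw [Nat.coprime_iff_gcd_eq_one, Nat.ModEq.gcd_eq hn2]
      exact Nat.gcd_one_left K'
  rcases hs with rfl | rfl | rfl
  · obtain ⟨n, h1, h2, h3⟩ := key 3 rfl (by norm_num)
    refine ⟨n, h1, h2, ?_⟩
    rw [jacobiSym.at_neg_one (Nat.odd_iff.2 h1)]
    exact ZMod.χ₄_nat_three_mod_four (by omega)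
  · obtain ⟨n, h1, h2, h3⟩ := key 3 rfl (by norm_num)
    refine ⟨n, h1, h2, ?_⟩
    rw [jacobiSym.at_two (Nat.odd_iff.2 h1), ZMod.χ₈_nat_eq_if_mod_eight]
    rw [if_neg (by omega), if_neg (by omega)]
  · obtain ⟨n, h1, h2, h3⟩ := key 5 rfl (by norm_num)
    refine ⟨n, h1, h2, ?_⟩
    rw [jacobiSym.at_neg_two (Nat.odd_iff.2 h1), ZMod.χ₈'_nat_eq_if_mod_eight]
    rw [if_neg (by omega), if_neg (by omega)]

/-- **Nsq.** -/
theorem tNsq : NsqStmt := by
  intro m hm
  have hm0 : m ≠ 0 := by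
    rintro rfl
    exact hm IsSquare.zero
  obtain ⟨r, k, hrk, hr⟩ := Nat.sq_mul_squarefree m.natAbs
  have hk0 : k ≠ 0 := by
    rintro rfl
    simp at hrk
    exact hm0 (Int.natAbs_eq_zero.1 hrk.symm)
  -- the odd part
  have hdec : ∃ u e : ℕ, (e = 1 ∨ e = 2) ∧ r = e * u ∧ u % 2 = 1 ∧ Squarefree u := by
    rcases Nat.mod_two_eq_zero_or_one r with h | h
    · obtain ⟨u, rfl⟩ := Nat.dvd_of_mod_eq_zero h
      refine ⟨u, 2, Or.inr rfl, rfl, ?_, Squarefree.of_mul_right hr⟩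
      rcases Nat.mod_two_eq_zero_or_one u with h2 | h2
      · obtain ⟨w, rfl⟩ := Nat.dvd_of_mod_eq_zero h2
        have h3 : 2 * 2 ∣ 2 * (2 * w) := ⟨w, by ring⟩
        have h4 := Nat.isUnit_iff.1 (hr 2 h3)
        omega
      · exact h2
    · exact ⟨r, 1, Or.inl rfl, (one_mul r).symm, h, hr⟩
  obtain ⟨u, e, he, hre, huo, hus⟩ := hdec
  -- the sign
  have hsg : ∃ s : ℤ, (s = 1 ∨ s = -1 ∨ s = 2 ∨ s = -2) ∧ m = s * u * (k : ℤ) ^ 2 := by
    have h1 : (m.natAbs : ℤ) = (k : ℤ) ^ 2 * ((e : ℤ) * u) := by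
      rw [← hrk, hre]
      push_cast
      ring
    rcases Int.natAbs_eq m with h | h
    · refine ⟨e, ?_, ?_⟩
      · rcases he with rfl | rfl
        · exact Or.inl rfl
        · exact Or.inr (Or.inr (Or.inl rfl))
      · rw [h, h1]
        ring
    · refine ⟨-e, ?_, ?_⟩
      · rcases he with rfl | rfl
        · exact Or.inr (Or.inl rfl)
        · exact Or.inr (Or.inr (Or.inr rfl))
      · rw [h, h1]
        ring
  obtain ⟨s, hs, hms⟩ := hsg
  have hfin : ∃ n : ℕ, n % 2 = 1 ∧ n.Coprime k ∧ jacobiSym (s * u) n = -1 := by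
    rcases Nat.lt_or_ge 1 u with h | h
    · exact Nsq_big hs h huo hus hk0
    · have hu1 : u = 1 := by omega
      subst hu1
      have hs' : s = -1 ∨ s = 2 ∨ s = -2 := by
        rcases hs with rfl | h | h | h
        · exfalso
          apply hm
          refine ⟨k, ?_⟩
          rw [hms]
          push_cast
          ring
        · exact Or.inl h
        · exact Or.inr (Or.inl h)
        · exact Or.inr (Or.inr h)
      obtain ⟨n, h1, h2, h3⟩ := Nsq_small hs' hk0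
      refine ⟨n, h1, h2, ?_⟩
      simpa using h3
  obtain ⟨n, hn1, hn2, hn3⟩ := hfin
  refine ⟨n, hn1, ?_⟩
  rw [hms, jacobiSym.mul_left, hn3, jacobiSym.sq_one', mul_one]
  rw [Int.gcd_natCast_natCast, Nat.gcd_comm]
  exact hn2

end Pool.Agent.Lib.NagA
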