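import Pool.Agent.Lib.MP_60fb2a_nt.An.Spec

set_option autoImplicit false

namespace Pool.Agent.Lib.NagA

open Polynomial Finset Classical

theorem One_asy (η : ℝ) (hη : 0 < η) (K : ℝ) : ∃ N₀ : ℕ, ∀ N : ℕ, N₀ ≤ N →
    (N : ℝ) ^ (1 - η) + K ≤ (N : ℝ) ^ (1 - min η (1 / 2) / 2) := by
  set μ := min η (1 / 2) with hμ
  have hμ0 : 0 < μ := lt_min hη (by norm_num)
  have hμ1 : μ ≤ η := min_le_left _ _
  have hμ2 : μ ≤ 1 / 2 := min_le_right _ _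
  obtain ⟨M, hM⟩ := exists_nat_ge ((2 : ℝ) ^ (2 / μ))
  obtain ⟨M', hM'⟩ := exists_nat_ge (|K| ^ (2 : ℝ))
  refine ⟨max 1 (max M M'), fun N hN => ?_⟩
  have hN0 : (1 : ℝ) ≤ N := by exact_mod_cast le_trans (le_max_left _ _) hN
  have hNM : (2 : ℝ) ^ (2 / μ) ≤ N :=
    le_trans hM (by exact_mod_cast le_trans (le_trans (le_max_left _ _) (le_max_right _ _)) hN)
  have hNM' : |K| ^ (2 : ℝ) ≤ N :=
    le_trans hM' (by exact_mod_cast le_trans (le_trans (le_max_right _ _) (le_max_right _ _)) hN)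
  have hNpos : (0 : ℝ) < N := by linarith
  have e1 : (N : ℝ) ^ (1 - η) ≤ (N : ℝ) ^ (1 - μ) :=
    Real.rpow_le_rpow_of_exponent_le hN0 (by linarith)
  have e2 : K ≤ (N : ℝ) ^ (1 - μ) := by
    calc K ≤ |K| := le_abs_self _
      _ = (|K| ^ (2 : ℝ)) ^ (1 / 2 : ℝ) := by
          rw [← Real.rpow_mul (abs_nonneg _)]
          norm_num
      _ ≤ (N : ℝ) ^ (1 / 2 : ℝ) := Real.rpow_le_rpow (by positivity) hNM' (by norm_num)
      _ ≤ (N : ℝ) ^ (1 - μ) := Real.rpow_le_rpow_of_exponent_le hN0 (by linarith)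
  have e3 : (2 : ℝ) ≤ (N : ℝ) ^ (μ / 2) := by
    calc (2 : ℝ) = ((2 : ℝ) ^ (2 / μ)) ^ (μ / 2) := by
          rw [← Real.rpow_mul (by norm_num)]
          rw [show (2 / μ) * (μ / 2) = 1 by field_simp]
          rw [Real.rpow_one]
      _ ≤ (N : ℝ) ^ (μ / 2) := Real.rpow_le_rpow (by positivity) hNM (by positivity)
  have e4 : (N : ℝ) ^ (1 - μ / 2) = (N : ℝ) ^ (μ / 2) * (N : ℝ) ^ (1 - μ) := by
    rw [← Real.rpow_add hNpos]
    congr 1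
    ring
  have e5 : 0 ≤ (N : ℝ) ^ (1 - μ) := by positivity
  rw [e4]
  calc (N : ℝ) ^ (1 - η) + K ≤ 2 * (N : ℝ) ^ (1 - μ) := by linarith
    _ ≤ (N : ℝ) ^ (μ / 2) * (N : ℝ) ^ (1 - μ) := mul_le_mul_of_nonneg_right e3 e5

theorem One_gen (F G : ℤ → Prop) (d₁ : ℕ) (h : ∀ d : ℤ, (d₁ : ℝ) ≤ |(d : ℝ)| → F d → G d) (η : ℝ)
    (hη : 0 < η) (N₀ : ℕ) (H : ∀ N : ℕ, N₀ ≤ N → (((Sq N).filter G).card : ℝ) ≤ (N : ℝ) ^ (1 - η)) :
    ∃ η' : ℝ, 0 < η' ∧ ∃ N₁ : ℕ, ∀ N : ℕ, N₁ ≤ N →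
      (((Sq N).filter F).card : ℝ) ≤ (N : ℝ) ^ (1 - η') := by
  obtain ⟨N₂, h2⟩ := One_asy η hη (2 * (d₁ : ℝ) + 1)
  refine ⟨min η (1 / 2) / 2, by have := lt_min hη (by norm_num : (0 : ℝ) < 1 / 2); positivity,
    max N₀ N₂, fun N hN => ?_⟩
  refine le_trans ?_ (h2 N (le_trans (le_max_right _ _) hN))
  have hsub : (Sq N).filter F ⊆ (Sq N).filter G ∪ Finset.Icc (-(d₁ : ℤ)) d₁ := by
    intro d hd
    rw [Finset.mem_filter] at hd
    rw [Finset.mem_union, Finset.mem_filter]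
    by_cases hdd : (d₁ : ℝ) ≤ |(d : ℝ)|
    · left
      exact ⟨hd.1, h d hdd hd.2⟩
    · right
      rw [not_le] at hdd
      have h3 : |d| < (d₁ : ℤ) := by exact_mod_cast hdd
      rw [Finset.mem_Icc]
      exact abs_le.1 h3.le
  have hc : ((Finset.Icc (-(d₁ : ℤ)) d₁).card : ℝ) = 2 * (d₁ : ℝ) + 1 := by
    rw [Int.card_Icc]
    have : ((d₁ : ℤ) + 1 - -(d₁ : ℤ)).toNat = 2 * d₁ + 1 := by omega
    rw [this]
    push_cast
    ring
  calc (((Sq N).filter F).card : ℝ) ≤ (((Sq N).filter G ∪ Finset.Icc (-(d₁ : ℤ)) d₁).card : ℝ) := by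
        exact_mod_cast Finset.card_le_card hsub
    _ ≤ (((Sq N).filter G).card : ℝ) + ((Finset.Icc (-(d₁ : ℤ)) d₁).card : ℝ) := by
        exact_mod_cast Finset.card_union_le _ _
    _ ≤ (N : ℝ) ^ (1 - η) + (2 * (d₁ : ℝ) + 1) := by
        rw [hc]
        have := H N (le_trans (le_max_left _ _) hN)
        linarith

theorem tOne (hF : FixStmt) (hN : NssStmt) : OneStmt := by
  intro A B hC ε δ hε hδ hδ1
  obtain ⟨C, hC⟩ := hC
  have hBd : Bd (Av A B) (max C 1) := fun p hp => le_trans (hC p hp) (le_max_left _ _)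
  obtain ⟨η, hη, N₀, H⟩ := hF (max C 1) (ε / 2) δ (by positivity) (by positivity) hδ hδ1
  obtain ⟨d₁, hd₁⟩ := exists_nat_ge (Real.exp (max 1 (8 / ε)))
  refine One_gen _ _ d₁ ?_ η hη N₀ (fun N hN' => H N hN' (Av A B) hBd)
  rintro d hd ⟨X, hX, hX2⟩
  refine ⟨X, hX, ?_⟩
  have h1 : max 1 (8 / ε) ≤ Real.log |(d : ℝ)| := by
    rw [Real.le_log_iff_exp_le (lt_of_lt_of_le (Real.exp_pos _) (le_trans hd₁ hd))]
    exact le_trans hd₁ hd
  have h2 : 1 ≤ Real.log |(d : ℝ)| := le_trans (le_max_left _ _) h1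
  have h3 : Real.log |(d : ℝ)| ≤ Real.log |(d : ℝ)| ^ 5 := le_self_pow₀ h2 (by norm_num)
  have h4 : 1 ≤ X := le_trans h2 (le_trans h3 hX.1)
  have h5 : 8 / ε ≤ X := le_trans (le_max_right _ _) (le_trans h1 (le_trans h3 hX.1))
  have h6 : 4 / X ≤ ε / 2 := by
    rw [div_le_iff₀ (by linarith)]
    rw [div_le_iff₀ hε] at h5
    linarith
  have h7 := hN A B d X h4
  have h8 : |NS (twA d A) (twB d B) X| ≤ |NS (twA d A) (twB d B) X + SX (Av A B) d X| +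
      |SX (Av A B) d X| := by
    have := abs_sub (NS (twA d A) (twB d B) X + SX (Av A B) d X) (SX (Av A B) d X)
    rw [add_sub_cancel_right] at this
    exact this
  linarith

end Pool.Agent.Lib.NagA
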