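import Pool.Agent.Lib.MP_60fb2a_nt.An.Spec

/-!
# Nagao sums, module Per: sums of the Jacobi symbol over intervals
-/

set_option autoImplicit false

namespace Pool.Agent.Lib.NagA

open Polynomial Finset Classical
open scoped NumberTheorySymbols

private noncomputable def Per_f (m : ℤ) (n : ℕ) : ℝ := if n % 2 = 1 then jc m n else 0

private theorem Per_abs (m : ℤ) (n : ℕ) : |Per_f m n| ≤ 1 := by
  unfold Per_f jc
  split_ifs with h
  · rcases jacobiSym.trichotomy m n with h | h | h <;> rw [h] <;> simp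
  · simp

private theorem Per_mod (m : ℤ) (n : ℕ) : Per_f m (n % (4 * m.natAbs)) = Per_f m n := by
  unfold Per_f
  have h2 : (n % (4 * m.natAbs)) % 2 = n % 2 := by
    rw [Nat.mod_mod_of_dvd]
    exact ⟨2 * m.natAbs, by ring⟩
  rw [h2]
  split_ifs with h
  · unfold jc
    rw [← jacobiSym.mod_right m (Nat.odd_iff.2 h)]
  · rfl

private theorem Per_mul (m : ℤ) {a : ℕ} (ha : a % 2 = 1) (n : ℕ) :
    Per_f m (a * n) = Per_f m a * Per_f m n := by
  unfold Per_f
  rw [if_pos ha]
  by_cases h : n % 2 = 1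
  · have h1 : (a * n) % 2 = 1 := by rw [Nat.mul_mod, ha, h]
    rw [if_pos h, if_pos h1]
    unfold jc
    have i1 : NeZero a := ⟨by omega⟩
    have i2 : NeZero n := ⟨by omega⟩
    rw [jacobiSym.mul_right]
    push_cast
    rfl
  · have h0 : n % 2 = 0 := by omega
    have h1 : (a * n) % 2 = 0 := by rw [Nat.mul_mod, h0, mul_zero, Nat.zero_mod]
    rw [if_neg h, if_neg (by omega), mul_zero]

/-- **Per.** -/
theorem tPer (h1 : NsqStmt) : PerStmt := by
  intro m hm N
  have hm0 : m ≠ 0 := by
    rintro rfl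
    exact hm IsSquare.zero
  obtain ⟨a, ha, hJ⟩ := h1 m hm
  set q : ℕ := 4 * m.natAbs with hq
  have hq0 : 0 < q := by
    have := Int.natAbs_pos.2 hm0
    omega
  have hcop : Nat.Coprime q a := by
    have i1 : NeZero a := ⟨by omega⟩
    have h2 : m.gcd a = 1 := by
      by_contra h3
      have h4 := jacobiSym.eq_zero_iff_not_coprime.2 h3
      rw [h4] at hJ
      norm_num at hJ
    have h3 : Nat.Coprime m.natAbs a := by
      have h4 : m.gcd a = Nat.gcd m.natAbs a := by
        rw [Int.gcd_eq_natAbs, Int.natAbs_natCast]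
      rw [Nat.coprime_iff_gcd_eq_one, ← h4]
      exact h2
    have h4 : Nat.Coprime 4 a := by
      have h5 : Nat.Coprime (2 ^ 2) a := (Nat.coprime_two_left.2 (Nat.odd_iff.2 ha)).pow_left 2
      simpa using h5
    exact Nat.Coprime.mul_left h4 h3
  have hfa : Per_f m a = -1 := by
    unfold Per_f jc
    rw [if_pos ha, hJ]
    norm_num
  -- the sum over a period
  have hS : ∑ x ∈ range q, Per_f m x = 0 := by
    have hinj : Set.InjOn (fun x => (a * x) % q) (range q : Finset ℕ) := by
      intro x hx y hy hxy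
      have hx' : x < q := by simpa using hx
      have hy' : y < q := by simpa using hy
      have h2 : a * x ≡ a * y [MOD q] := hxy
      exact (Nat.ModEq.cancel_left_of_coprime hcop h2).eq_of_lt_of_lt hx' hy'
    have hmaps : ∀ x ∈ range q, (a * x) % q ∈ range q := by
      intro x _
      exact mem_range.2 (Nat.mod_lt _ hq0)
    have hsurj : Set.SurjOn (fun x => (a * x) % q) (range q : Finset ℕ) (range q : Finset ℕ) :=
      Finset.surjOn_of_injOn_of_card_le _ (fun x hx => hmaps x hx) hinj le_rfl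
    have h2 : ∑ x ∈ range q, Per_f m (a * x) = ∑ x ∈ range q, Per_f m x := by
      refine Finset.sum_nbij (fun x => (a * x) % q) hmaps hinj hsurj ?_
      intro x _
      exact (Per_mod m (a * x)).symm
    have h3 : ∑ x ∈ range q, Per_f m (a * x) = -∑ x ∈ range q, Per_f m x := by
      rw [← Finset.sum_neg_distrib]
      refine Finset.sum_congr rfl fun x _ => ?_
      rw [Per_mul m ha, hfa]
      ring
    linarith
  have hper : ∀ k x : ℕ, Per_f m (q * k + x) = Per_f m x := by
    intro k x
    rw [← Per_mod m (q * k + x), ← Per_mod m x, ← hq, Nat.mul_add_mod]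
  have hk : ∀ k : ℕ, ∑ x ∈ range (q * k), Per_f m x = 0 := by
    intro k
    induction k with
    | zero => simp
    | succ k ih =>
      rw [Nat.mul_succ, Finset.sum_range_add, ih, zero_add]
      rw [← hS]
      exact Finset.sum_congr rfl fun x _ => hper k x
  have hsum : ∑ n ∈ Od N, jc m n = ∑ x ∈ range (N + 1), Per_f m x := by
    unfold Od
    rw [Finset.sum_filter, Finset.range_eq_Ico, Finset.sum_eq_sum_Ico_succ_bot (Nat.succ_pos N)]
    have h0 : Per_f m 0 = 0 := by
      unfold Per_f
      rw [if_neg (by norm_num)]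
    rw [h0, zero_add]
    rfl
  have hN : N + 1 = q * ((N + 1) / q) + (N + 1) % q := (Nat.div_add_mod (N + 1) q).symm
  rw [hsum, hN, Finset.sum_range_add, hk, zero_add]
  have h5 : |∑ x ∈ range ((N + 1) % q), Per_f m (q * ((N + 1) / q) + x)| ≤
      ∑ x ∈ range ((N + 1) % q), (1 : ℝ) := by
    refine (Finset.abs_sum_le_sum_abs _ _).trans ?_
    exact Finset.sum_le_sum fun x _ => Per_abs m _
  refine h5.trans ?_
  rw [Finset.sum_const, card_range, nsmul_eq_mul, mul_one]
  have h6 : (((N + 1) % q : ℕ) : ℝ) ≤ (q : ℝ) := by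
    exact_mod_cast (Nat.mod_lt _ hq0).le
  refine h6.trans (le_of_eq ?_)
  rw [hq]
  push_cast
  rw [Nat.cast_natAbs]
  push_cast
  rfl

end Pool.Agent.Lib.NagA
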