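import Pool.Agent.Lib.MP_60fb2a_nt.An.Spec

/-!
# Module Prc: the primitive character of a nonsquare (author helper62)
-/

set_option autoImplicit false

namespace Pool.Agent.Lib.NagA

open Polynomial Finset Classical

private theorem Prc_odd {Q n : ℕ} (h4 : 4 ∣ Q) (h : n.Coprime Q) : Odd n := by
  rw [← Nat.coprime_two_right]
  exact Nat.Coprime.coprime_dvd_right (dvd_trans ⟨2, by norm_num⟩ h4) h

private theorem Prc_ne {Q n : ℕ} (h4 : 4 ∣ Q) (h : n.Coprime Q) : n ≠ 0 := by
  rintro rfl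
  have h1 := Prc_odd h4 h
  exact (by decide : ¬ Odd 0) h1

private theorem Prc_val {Q : ℕ} {x : ZMod Q} (hx : IsUnit x) : x.val.Coprime Q := by
  obtain ⟨u, rfl⟩ := hx
  exact ZMod.val_coe_unit_coprime u

/-- the character modulo `4 |m|` -/
private noncomputable def Prc_f (m : ℤ) (hm : m ≠ 0) : DirichletCharacter ℂ (4 * m.natAbs) where
  toFun x := if IsUnit x then ((jacobiSym m x.val : ℤ) : ℂ) else 0
  map_one' := by
    have h1 : 0 < m.natAbs := Int.natAbs_pos.2 hm
    have : Fact (1 < 4 * m.natAbs) := ⟨by omega⟩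
    rw [if_pos isUnit_one, ZMod.val_one, jacobiSym.one_right, Int.cast_one]
  map_mul' := by
    intro x y
    have h1 : 0 < m.natAbs := Int.natAbs_pos.2 hm
    have : NeZero (4 * m.natAbs) := ⟨by omega⟩
    by_cases hx : IsUnit x
    · by_cases hy : IsUnit y
      · have hxc := Prc_val hx
        have hyc := Prc_val hy
        have hox := Prc_odd (Dvd.intro _ rfl) hxc
        have hoy := Prc_odd (Dvd.intro _ rfl) hyc
        rw [if_pos (hx.mul hy), if_pos hx, if_pos hy, ZMod.val_mul,
          ← jacobiSym.mod_right m (hox.mul hoy),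
          jacobiSym.mul_right' m (Prc_ne (Dvd.intro _ rfl) hxc) (Prc_ne (Dvd.intro _ rfl) hyc), Int.cast_mul]
      · rw [if_neg hy, if_neg (fun h => hy (isUnit_of_mul_isUnit_right h)), mul_zero]
    · rw [if_neg hx, if_neg (fun h => hx (isUnit_of_mul_isUnit_left h)), zero_mul]
  map_nonunit' := by
    intro x hx
    exact if_neg hx

private theorem Prc_apply (m : ℤ) (hm : m ≠ 0) {n : ℕ} (hn : n.Coprime (4 * m.natAbs)) :
    Prc_f m hm ((n : ℕ) : ZMod (4 * m.natAbs)) = ((jacobiSym m n : ℤ) : ℂ) := by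
  have hu : IsUnit ((n : ℕ) : ZMod (4 * m.natAbs)) := (ZMod.isUnit_iff_coprime n _).2 hn
  change (if IsUnit ((n : ℕ) : ZMod (4 * m.natAbs)) then
    ((jacobiSym m ((n : ℕ) : ZMod (4 * m.natAbs)).val : ℤ) : ℂ) else 0) = _
  rw [if_pos hu, ZMod.val_natCast, ← jacobiSym.mod_right m (Prc_odd (Dvd.intro _ rfl) hn)]

theorem tPrc (h1 : NsqStmt) : PrcStmt := by
  intro m hm
  have hm0 : m ≠ 0 := by
    rintro rfl
    exact hm ⟨0, rfl⟩
  have hpos : 0 < m.natAbs := Int.natAbs_pos.2 hm0
  have hne : NeZero (4 * m.natAbs) := ⟨by omega⟩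
  have hcop : ∀ n : ℕ, n % 2 = 1 → Int.gcd m n = 1 → n.Coprime (4 * m.natAbs) := by
    intro n hn hg
    have h2 : n.Coprime 2 := (Nat.coprime_two_right).2 (Nat.odd_iff.2 hn)
    have h4 : n.Coprime 4 := by
      have h3 := h2.pow_right 2
      norm_num at h3
      exact h3
    refine Nat.Coprime.mul_right h4 ?_
    rw [Int.gcd_eq_natAbs, Int.natAbs_natCast] at hg
    exact Nat.Coprime.symm hg
  refine ⟨(Prc_f m hm0).conductor, (Prc_f m hm0).primitiveCharacter, ?_,
    (Prc_f m hm0).conductor_dvd_level, (Prc_f m hm0).primitiveCharacter_isPrimitive, ?_⟩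
  · have c0 : (Prc_f m hm0).conductor ≠ 0 := DirichletCharacter.conductor_ne_zero _
    have c1 : (Prc_f m hm0).conductor ≠ 1 := by
      intro hc
      have hone := ((Prc_f m hm0).eq_one_iff_conductor_eq_one).2 hc
      obtain ⟨n, hn, hJ⟩ := h1 m hm
      have hn0 : n ≠ 0 := by
        rintro rfl
        omega
      have hg : Int.gcd m n = 1 := by
        by_contra hg
        have := jacobiSym.eq_zero_iff.2 ⟨hn0, hg⟩
        rw [hJ] at this
        omega
      have hc2 := hcop n hn hg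
      have h3 := Prc_apply m hm0 hc2
      rw [hone, hJ, MulChar.one_apply ((ZMod.isUnit_iff_coprime n _).2 hc2)] at h3
      norm_num at h3
    omega
  · intro p hp hpm
    have hp2 : p % 2 = 1 := by
      rcases hp.eq_two_or_odd with h | h
      · exact absurd (by rw [h]; exact Dvd.intro _ rfl) hpm
      · exact h
    have hg : Int.gcd m p = 1 := by
      rw [Int.gcd_eq_natAbs, Int.natAbs_natCast]
      refine Nat.Coprime.symm ((Nat.Prime.coprime_iff_not_dvd hp).2 fun h => hpm ?_)
      exact Dvd.dvd.mul_left (Int.natCast_dvd.2 h) 2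
    have hc := hcop p hp2 hg
    have hc' : IsCoprime (p : ℤ) ((4 * m.natAbs : ℕ) : ℤ) := Nat.isCoprime_iff_coprime.2 hc
    have h3 := (Prc_f m hm0).primitiveCharacter_apply_of_isCoprime hc'
    rw [Int.cast_natCast, Int.cast_natCast, Prc_apply m hm0 hc] at h3
    exact h3

end Pool.Agent.Lib.NagA
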