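import Pool.Agent.Lib.MP_60fb2a_nt.An.Spec

/-!
MP_60fb2a_nt, module Rga: bad twists at small scales.
-/

set_option autoImplicit false

namespace Pool.Agent.Lib.NagA

open Polynomial Finset Classical

/-- The numbers. -/
private theorem Rga_num (R L l : ℝ) (k : ℕ) (hR : 1 ≤ R) (hL : 16384 ≤ L)
    (hL2 : Real.exp (24 * Real.log (6 * R)) ≤ L) (hl : 4 * Real.log L ≤ l) (hl3 : l ≤ 3 * L)
    (hk : (k : ℝ) < 3 * L / l + 1) :
    (k.factorial : ℝ) * (R * l) ^ k ≤ Real.exp (13 / 16 * L) := by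
  have hL0 : 0 < L := by linarith
  have hc0 : 0 < Real.log (6 * R) := Real.log_pos (by linarith)
  have hL2' : 24 * Real.log (6 * R) ≤ Real.log L := by
    rw [← Real.log_exp (24 * Real.log (6 * R))]
    exact Real.log_le_log (Real.exp_pos _) hL2
  have hlL : 0 < Real.log L := by linarith
  have hl0 : 0 < l := by linarith
  have hsq : Real.log L ≤ L / 64 := by
    have h1 : Real.log L = 2 * Real.log (Real.sqrt L) := by
      rw [Real.log_sqrt hL0.le]
      ring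
    have h2 : Real.log (Real.sqrt L) ≤ Real.sqrt L := by
      have := Real.log_le_sub_one_of_pos (Real.sqrt_pos.2 hL0)
      linarith
    have h3 : 128 ≤ Real.sqrt L := by
      rw [Real.le_sqrt (by norm_num) hL0.le]
      norm_num
      exact hL
    have h4 : Real.sqrt L * Real.sqrt L = L := Real.mul_self_sqrt hL0.le
    nlinarith
  have hk0 : (0 : ℝ) ≤ k := Nat.cast_nonneg k
  -- `k l ≤ 6 L`
  have hkl : (k : ℝ) * l ≤ 6 * L := by
    have h1 : (k : ℝ) * l ≤ (3 * L / l + 1) * l := mul_le_mul_of_nonneg_right hk.le hl0.le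
    have h2 : (3 * L / l + 1) * l = 3 * L + l := by
      field_simp
    linarith
  have h1 : (k.factorial : ℝ) * (R * l) ^ k ≤ (6 * R * L) ^ k := by
    calc (k.factorial : ℝ) * (R * l) ^ k ≤ (k : ℝ) ^ k * (R * l) ^ k := by
          refine mul_le_mul_of_nonneg_right ?_ (by positivity)
          exact_mod_cast Nat.factorial_le_pow k
      _ = (R * (k * l)) ^ k := by
          rw [← mul_pow]
          ring
      _ ≤ (6 * R * L) ^ k := by
          refine pow_le_pow_left₀ (by positivity) ?_ k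
          calc R * (k * l) ≤ R * (6 * L) := mul_le_mul_of_nonneg_left hkl (by linarith)
            _ = 6 * R * L := by ring
  refine h1.trans ?_
  have h2 : (6 * R * L) ^ k = Real.exp (k * (Real.log (6 * R) + Real.log L)) := by
    rw [Real.exp_nat_mul, Real.exp_add, Real.exp_log (by positivity), Real.exp_log hL0]
  rw [h2]
  refine Real.exp_le_exp.2 ?_
  have h3 : (k : ℝ) ≤ 3 * L / (4 * Real.log L) + 1 := by
    have h4 : 3 * L / l ≤ 3 * L / (4 * Real.log L) :=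
      div_le_div_of_nonneg_left (by positivity) (by positivity) hl
    linarith
  calc (k : ℝ) * (Real.log (6 * R) + Real.log L) ≤
        (3 * L / (4 * Real.log L) + 1) * (Real.log (6 * R) + Real.log L) :=
        mul_le_mul_of_nonneg_right h3 (by linarith)
    _ = 3 / 4 * L * (Real.log (6 * R) / Real.log L) + 3 / 4 * L + Real.log (6 * R) + Real.log L := by
        field_simp
        ring
    _ ≤ 3 / 4 * L * (1 / 24) + 3 / 4 * L + Real.log L + Real.log L := by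
        have h5 : Real.log (6 * R) / Real.log L ≤ 1 / 24 := by
          rw [div_le_iff₀ hlL]
          linarith
        have h6 : 3 / 4 * L * (Real.log (6 * R) / Real.log L) ≤ 3 / 4 * L * (1 / 24) :=
          mul_le_mul_of_nonneg_left h5 (by positivity)
        linarith
    _ ≤ 13 / 16 * L := by linarith

theorem tRga (h1 : LsqStmt) (h2 : MomStmt) (h3 : ChbStmt) : RgaStmt := by
  intro C ε hC hε
  obtain ⟨R, hR⟩ : ∃ R : ℝ, R = max 1 (2 * C ^ 2 / ε ^ 2) := ⟨_, rfl⟩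
  have hR1 : 1 ≤ R := by rw [hR]; exact le_max_left _ _
  have hR2 : 2 * C ^ 2 ≤ R * ε ^ 2 := by
    have : 2 * C ^ 2 / ε ^ 2 ≤ R := by rw [hR]; exact le_max_right _ _
    rwa [div_le_iff₀ (by positivity)] at this
  refine ⟨⌈Real.exp (max 16384 (Real.exp (24 * Real.log (6 * R))))⌉₊, ?_⟩
  intro D hD W hW X hX hX3
  have hDR : Real.exp (max 16384 (Real.exp (24 * Real.log (6 * R)))) ≤ D :=
    (Nat.le_ceil _).trans (by exact_mod_cast hD)
  have hD0 : (0 : ℝ) < D := lt_of_lt_of_le (Real.exp_pos _) hDR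
  obtain ⟨L, hL⟩ : ∃ L : ℝ, L = Real.log D := ⟨_, rfl⟩
  have hLm : max 16384 (Real.exp (24 * Real.log (6 * R))) ≤ L := by
    rw [hL, ← Real.log_exp (max 16384 (Real.exp (24 * Real.log (6 * R))))]
    exact Real.log_le_log (Real.exp_pos _) hDR
  have hL1 : 16384 ≤ L := (le_max_left _ _).trans hLm
  have hL2 : Real.exp (24 * Real.log (6 * R)) ≤ L := (le_max_right _ _).trans hLm
  have hL0 : 0 < L := by linarith
  have hDe : (D : ℝ) = Real.exp L := by rw [hL, Real.exp_log hD0]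
  rw [← hL] at hX
  have hX1 : 1 ≤ X := by
    refine le_trans ?_ hX
    exact one_le_pow₀ (by linarith)
  have hX0 : 0 < X := by linarith
  have hlX : 4 * Real.log L ≤ Real.log X := by
    have h4 := Real.log_le_log (by positivity) hX
    rw [Real.log_pow] at h4
    exact_mod_cast h4
  have hlL : 0 < Real.log L := Real.log_pos (by linarith)
  have hl0 : 0 < Real.log X := by linarith
  have hl3 : Real.log X ≤ 3 * L := by
    have h4 := Real.log_le_log hX0 hX3
    rw [Real.log_pow, ← hL] at h4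
    exact_mod_cast h4
  obtain ⟨k, hk⟩ : ∃ k, k = ⌈3 * L / Real.log X⌉₊ := ⟨_, rfl⟩
  have hk1 : 3 * L / Real.log X ≤ k := by rw [hk]; exact Nat.le_ceil _
  have hk2 : (k : ℝ) < 3 * L / Real.log X + 1 := by
    rw [hk]
    exact Nat.ceil_lt_add_one (by positivity)
  obtain ⟨F, hF⟩ : ∃ F : ℝ, F = (k.factorial : ℝ) * (R * Real.log X) ^ k := ⟨_, rfl⟩
  have hFle : F ≤ Real.exp (13 / 16 * L) := by
    rw [hF]
    exact Rga_num R L (Real.log X) k hR1 hL1 hL2 hlX hl3 hk2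
  have hF0 : 0 ≤ F := by
    rw [hF]
    positivity
  have hDX : (D : ℝ) ^ 3 ≤ X ^ k := by
    rw [div_le_iff₀ hl0] at hk1
    have h4 : X ^ k = Real.exp (k * Real.log X) := by
      rw [Real.exp_nat_mul, Real.exp_log hX0]
    have h5 : (D : ℝ) ^ 3 = Real.exp ((3 : ℕ) * L) := by
      rw [Real.exp_nat_mul, hDe]
    rw [h4, h5]
    refine Real.exp_le_exp.2 ?_
    push_cast
    exact hk1
  have h2e : (2 : ℝ) ≤ Real.exp (L / 16) := by
    have := Real.add_one_le_exp (L / 16)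
    linarith
  -- `8 D² F ≤ D³`
  have h8 : 8 * (D : ℝ) ^ 2 * F ≤ (D : ℝ) ^ 3 := by
    calc 8 * (D : ℝ) ^ 2 * F ≤ 8 * (D : ℝ) ^ 2 * Real.exp (13 / 16 * L) :=
          mul_le_mul_of_nonneg_left hFle (by positivity)
      _ ≤ Real.exp (L / 16) ^ 3 * (D : ℝ) ^ 2 * Real.exp (13 / 16 * L) := by
          have : (8 : ℝ) ≤ Real.exp (L / 16) ^ 3 := by
            calc (8 : ℝ) = 2 ^ 3 := by norm_num
              _ ≤ _ := pow_le_pow_left₀ (by norm_num) h2e 3
          gcongr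
      _ = (D : ℝ) ^ 2 * (Real.exp (L / 16) ^ 3 * Real.exp (13 / 16 * L)) := by ring
      _ = (D : ℝ) ^ 2 * D := by
          rw [← Real.exp_nat_mul, ← Real.exp_add, hDe]
          congr 2
          push_cast
          ring
      _ = _ := by ring
  -- the moments
  obtain ⟨B, hB⟩ : ∃ B, B = bad W D ε X := ⟨_, rfl⟩
  obtain ⟨b, hb1, hb2⟩ := h2 (OP ⌊X⌋₊) ⌊X⌋₊ (by
    intro p hp
    have := mem_filter.1 hp
    exact ⟨this.2.1, this.2.2, by
      have := mem_range.1 this.1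
      omega⟩) (fun p => W p * Real.log p) k
  have hsub : B ⊆ Sq D := by
    rw [hB]
    exact filter_subset _ _
  have hls := h1 B D (⌊X⌋₊ ^ k) b hsub
  have hlow : ∀ d ∈ B, (ε * X) ^ (2 * k) ≤ (∑ n ∈ Od (⌊X⌋₊ ^ k), b n * jc d n) ^ 2 := by
    intro d hd
    rw [hB] at hd
    have h5 := (mem_filter.1 hd).2
    rw [← hb1 d]
    have h6 : ε * X ≤ |∑ p ∈ OP ⌊X⌋₊, W p * Real.log p * jc d p| := by
      have h7 : SX W d X = (1 / X) * ∑ p ∈ OP ⌊X⌋₊, W p * Real.log p * jc d p := by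
        unfold SX
        congr 1
        refine sum_congr rfl (fun p _ => ?_)
        ring
      rw [h7, abs_mul, abs_of_pos (by positivity), one_div, inv_mul_eq_div, lt_div_iff₀ hX0] at h5
      exact h5.le
    have h8 : ((∑ p ∈ OP ⌊X⌋₊, W p * Real.log p * jc d p) ^ k) ^ 2 =
        |∑ p ∈ OP ⌊X⌋₊, W p * Real.log p * jc d p| ^ (2 * k) := by
      rw [← sq_abs, abs_pow, ← pow_mul, mul_comm k 2]
    rw [h8]
    exact pow_le_pow_left₀ (by positivity) h6 _
  have ha : ∑ p ∈ OP ⌊X⌋₊, (W p * Real.log p) ^ 2 ≤ R * ε ^ 2 * X * Real.log X := by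
    have h5 := (h3 X hX1).2
    calc ∑ p ∈ OP ⌊X⌋₊, (W p * Real.log p) ^ 2 ≤ ∑ p ∈ OP ⌊X⌋₊, C ^ 2 * Real.log p ^ 2 := by
          refine sum_le_sum (fun p hp => ?_)
          rw [mul_pow]
          refine mul_le_mul_of_nonneg_right ?_ (sq_nonneg _)
          rw [← sq_abs]
          exact pow_le_pow_left₀ (abs_nonneg _) (hW p (mem_filter.1 hp).2.1) 2
      _ = C ^ 2 * ∑ p ∈ OP ⌊X⌋₊, Real.log p ^ 2 := by rw [mul_sum]
      _ ≤ C ^ 2 * (2 * X * Real.log X) := mul_le_mul_of_nonneg_left h5 (sq_nonneg _)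
      _ = (2 * C ^ 2) * (X * Real.log X) := by ring
      _ ≤ (R * ε ^ 2) * (X * Real.log X) := mul_le_mul_of_nonneg_right hR2 (by positivity)
      _ = _ := by ring
  have hb3 : ∑ n ∈ Od (⌊X⌋₊ ^ k), b n ^ 2 ≤ F * (ε ^ 2 * X) ^ k := by
    calc ∑ n ∈ Od (⌊X⌋₊ ^ k), b n ^ 2 ≤
          (k.factorial : ℝ) * (∑ p ∈ OP ⌊X⌋₊, (W p * Real.log p) ^ 2) ^ k := hb2
      _ ≤ (k.factorial : ℝ) * (R * ε ^ 2 * X * Real.log X) ^ k := by
          refine mul_le_mul_of_nonneg_left ?_ (Nat.cast_nonneg _)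
          exact pow_le_pow_left₀ (sum_nonneg (fun _ _ => sq_nonneg _)) ha k
      _ = F * (ε ^ 2 * X) ^ k := by
          have h6 : R * ε ^ 2 * X * Real.log X = (R * Real.log X) * (ε ^ 2 * X) := by ring
          rw [hF, h6, mul_pow (R * Real.log X), mul_assoc]
  have hBn : (0 : ℝ) ≤ B.card := Nat.cast_nonneg _
  have hfl : ((⌊X⌋₊ ^ k : ℕ) : ℝ) ≤ X ^ k := by
    push_cast
    exact pow_le_pow_left₀ (Nat.cast_nonneg _) (Nat.floor_le hX0.le) k
  have hmain : (B.card : ℝ) * X ^ k * (ε ^ 2 * X) ^ k ≤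
      (X ^ k + 4 * (D : ℝ) ^ 2 * B.card) * F * (ε ^ 2 * X) ^ k := by
    calc (B.card : ℝ) * X ^ k * (ε ^ 2 * X) ^ k = ∑ _d ∈ B, (ε * X) ^ (2 * k) := by
          rw [sum_const, nsmul_eq_mul, mul_assoc, ← mul_pow, pow_mul]
          congr 2
          ring
      _ ≤ ∑ d ∈ B, (∑ n ∈ Od (⌊X⌋₊ ^ k), b n * jc d n) ^ 2 := sum_le_sum hlow
      _ ≤ (((⌊X⌋₊ ^ k : ℕ) : ℝ) + 4 * (D : ℝ) ^ 2 * (B.card : ℝ)) *
          ∑ n ∈ Od (⌊X⌋₊ ^ k), b n ^ 2 := hls
      _ ≤ (X ^ k + 4 * (D : ℝ) ^ 2 * B.card) * (F * (ε ^ 2 * X) ^ k) := by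
          have h7 : (0 : ℝ) ≤ X ^ k + 4 * (D : ℝ) ^ 2 * B.card :=
            add_nonneg (pow_nonneg hX0.le k) (mul_nonneg (mul_nonneg (by norm_num) (sq_nonneg _)) hBn)
          refine mul_le_mul ?_ hb3 (sum_nonneg (fun _ _ => sq_nonneg _)) h7
          linarith
      _ = _ := by ring
  have hmain2 : (B.card : ℝ) * X ^ k ≤ (X ^ k + 4 * (D : ℝ) ^ 2 * B.card) * F :=
    le_of_mul_le_mul_right hmain (by positivity)
  have hXk : 0 < X ^ k := by positivity
  have hfin : (B.card : ℝ) ≤ 2 * F := by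
    have h5 : 4 * (D : ℝ) ^ 2 * B.card * F ≤ B.card * X ^ k / 2 := by
      have h6 : 8 * (D : ℝ) ^ 2 * F ≤ X ^ k := h8.trans hDX
      have h7 : (B.card : ℝ) * (8 * (D : ℝ) ^ 2 * F) ≤ B.card * X ^ k :=
        mul_le_mul_of_nonneg_left h6 hBn
      linarith
    have h6 : (B.card : ℝ) * X ^ k ≤ (2 * F) * X ^ k := by
      have h7 : (X ^ k + 4 * (D : ℝ) ^ 2 * B.card) * F =
          X ^ k * F + 4 * (D : ℝ) ^ 2 * B.card * F := by ring
      rw [h7] at hmain2
      linarith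
    exact le_of_mul_le_mul_right h6 hXk
  rw [← hB]
  refine hfin.trans ?_
  have h9 : (D : ℝ) ^ (7 / 8 : ℝ) = Real.exp (7 / 8 * L) := by
    rw [Real.rpow_def_of_pos hD0, ← hL, mul_comm]
  rw [h9]
  calc 2 * F ≤ Real.exp (L / 16) * Real.exp (13 / 16 * L) :=
        mul_le_mul h2e hFle hF0 (Real.exp_pos _).le
    _ = Real.exp (7 / 8 * L) := by
        rw [← Real.exp_add]
        congr 1
        ring

end Pool.Agent.Lib.NagA
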