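import Pool.Agent.Lib.MP_60fb2a_nt.An.Spec

/-!
MP_60fb2a_nt, module Rgc: bad twists at large scales.
-/

set_option autoImplicit false

namespace Pool.Agent.Lib.NagA

open Polynomial Finset Classical

private theorem Rgc_T (W : ℕ → ℝ) (d : ℤ) {ε X : ℝ} (hX : 0 < X) (h : ε < |SX W d X|) :
    ε * X ≤ |∑ p ∈ OP ⌊X⌋₊, W p * Real.sqrt (Real.log p) * (Real.sqrt (Real.log p) * jc d p)| := by
  have h7 : SX W d X = (1 / X) * ∑ p ∈ OP ⌊X⌋₊,
      W p * Real.sqrt (Real.log p) * (Real.sqrt (Real.log p) * jc d p) := by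
    unfold SX
    congr 1
    refine sum_congr rfl (fun p _ => ?_)
    have h8 : Real.sqrt (Real.log p) * Real.sqrt (Real.log p) = Real.log p :=
      Real.mul_self_sqrt (Real.log_natCast_nonneg p)
    calc W p * jc d p * Real.log p = W p * jc d p *
          (Real.sqrt (Real.log p) * Real.sqrt (Real.log p)) := by rw [h8]
      _ = _ := by ring
  rw [h7, abs_mul, abs_of_pos (by positivity), one_div, inv_mul_eq_div, lt_div_iff₀ hX] at h
  exact h.le

private theorem Rgc_jc2 (d : ℤ) (n : ℕ) : jc d n ^ 2 ≤ 1 := by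
  unfold jc
  rcases jacobiSym.trichotomy d n with h | h | h <;> rw [h] <;> norm_num

theorem tRgc (h1 : SchStmt) (h2 : SqfStmt) (h3 : ChbStmt) (h4 : SwwStmt) : RgcStmt := by
  intro C ε κ hC hε hκ
  obtain ⟨C₁, hC₁, hsw⟩ := h4 (1 / κ + 1) (2 / κ) (by positivity) (by positivity)
  obtain ⟨m, hm⟩ : ∃ m : ℝ, m = max 2 (3 * C₁) := ⟨_, rfl⟩
  have hm2 : 2 ≤ m := by rw [hm]; exact le_max_left _ _
  have hm3 : 3 * C₁ ≤ m := by rw [hm]; exact le_max_right _ _
  refine ⟨6 * C ^ 2 / ε ^ 2, ⌈m ^ (1 / κ)⌉₊, by positivity, ?_⟩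
  intro D hD W hW X hX
  have hDm : m ^ (1 / κ) ≤ D := (Nat.le_ceil _).trans (by exact_mod_cast hD)
  have hm1 : 1 ≤ m ^ (1 / κ) := Real.one_le_rpow (by linarith) (by positivity)
  have hD1 : (1 : ℝ) ≤ D := hm1.trans hDm
  have hD0 : (0 : ℝ) < D := by linarith
  have hDκ : m ≤ (D : ℝ) ^ κ := by
    calc m = (m ^ (1 / κ)) ^ κ := by
          rw [← Real.rpow_mul (by linarith), one_div, inv_mul_cancel₀ hκ.ne', Real.rpow_one]
      _ ≤ (D : ℝ) ^ κ := Real.rpow_le_rpow (by positivity) hDm hκ.le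
  have hX0 : 0 < X := lt_of_lt_of_le (Real.exp_pos _) hX
  obtain ⟨x, hx⟩ : ∃ x : ℝ, x = Real.log X := ⟨_, rfl⟩
  have hDx : (D : ℝ) ^ κ ≤ x := by
    rw [hx, ← Real.log_exp ((D : ℝ) ^ κ)]
    exact Real.log_le_log (Real.exp_pos _) hX
  have hmx : m ≤ x := hDκ.trans hDx
  have hx0 : 0 < x := by linarith
  have hX3 : 3 ≤ X := by
    have h5 : Real.exp 2 ≤ X := le_trans (Real.exp_le_exp.2 (hm2.trans hDκ)) hX
    have h6 := Real.add_one_le_exp (2 : ℝ)
    linarith
  have hDx1 : (D : ℝ) ≤ x ^ (1 / κ) := by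
    calc (D : ℝ) = ((D : ℝ) ^ κ) ^ (1 / κ) := by
          rw [← Real.rpow_mul hD0.le, mul_one_div, div_self hκ.ne', Real.rpow_one]
      _ ≤ x ^ (1 / κ) := Real.rpow_le_rpow (by positivity) hDx (by positivity)
  have hDx2 : (D : ℝ) ^ 2 ≤ x ^ (2 / κ) := by
    calc (D : ℝ) ^ 2 ≤ (x ^ (1 / κ)) ^ 2 := pow_le_pow_left₀ hD0.le hDx1 2
      _ = x ^ (2 / κ) := by
          rw [← Real.rpow_natCast, ← Real.rpow_mul hx0.le]
          congr 1
          push_cast
          ring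
  obtain ⟨B, hB⟩ : ∃ B, B = bad W D ε X := ⟨_, rfl⟩
  have hsub : B ⊆ Sq D := by
    rw [hB]
    exact filter_subset _ _
  have hBc : (B.card : ℝ) ≤ 3 * D := by
    have h5 : B.card ≤ (Finset.Icc (-(D : ℤ)) D).card :=
      card_le_card (hsub.trans (filter_subset _ _))
    rw [Int.card_Icc] at h5
    have h6 : ((D : ℤ) + 1 - -(D : ℤ)).toNat = 2 * D + 1 := by omega
    rw [h6] at h5
    have h7 : (B.card : ℝ) ≤ 2 * D + 1 := by exact_mod_cast h5
    linarith
  obtain ⟨E, hE⟩ : ∃ E : ℝ, E = C₁ * (X / x ^ (1 / κ + 1)) := ⟨_, rfl⟩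
  have hE0 : 0 ≤ E := by
    rw [hE]
    positivity
  have hEB : E * B.card ≤ X := by
    calc E * B.card ≤ C₁ * (X / x ^ (1 / κ + 1)) * (3 * x ^ (1 / κ)) := by
          rw [hE]
          refine mul_le_mul_of_nonneg_left ?_ (by positivity)
          linarith
      _ = 3 * C₁ * X / x := by
          rw [Real.rpow_add hx0, Real.rpow_one]
          field_simp
      _ ≤ X := by
          rw [div_le_iff₀ hx0]
          have : 3 * C₁ ≤ x := hm3.trans hmx
          nlinarith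
  have hlog : ∀ p : ℕ, Real.sqrt (Real.log p) * Real.sqrt (Real.log p) = Real.log p :=
    fun p => Real.mul_self_sqrt (Real.log_natCast_nonneg p)
  have hsq : ∀ p : ℕ, Real.sqrt (Real.log p) ^ 2 = Real.log p := fun p => by
    rw [sq]
    exact hlog p
  have key := h1 ℤ ℕ B (OP ⌊X⌋₊) (fun d p => Real.sqrt (Real.log p) * jc d p)
    (fun p => W p * Real.sqrt (Real.log p)) (2 * X) E (by positivity) hE0 (by
      intro d _
      refine le_trans (sum_le_sum (fun p _ => ?_)) (h3 X (by linarith)).1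
      rw [mul_pow, hsq]
      exact mul_le_of_le_one_right (Real.log_natCast_nonneg p) (Rgc_jc2 d p)) (by
      intro d hd d' hd' hne
      obtain ⟨hd1, hd2⟩ := mem_filter.1 (hsub hd)
      obtain ⟨hd3, hd4⟩ := mem_filter.1 (hsub hd')
      have h5 := hsw X (d * d') hX3 (h2 d d' hd2 hd4 hne) (by
        rw [← hx]
        refine le_trans ?_ hDx2
        push_cast
        rw [abs_mul, sq]
        have e1 : |(d : ℝ)| ≤ D := by
          rw [mem_Icc] at hd1
          rw [abs_le]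
          exact ⟨by exact_mod_cast hd1.1, by exact_mod_cast hd1.2⟩
        have e2 : |(d' : ℝ)| ≤ D := by
          rw [mem_Icc] at hd3
          rw [abs_le]
          exact ⟨by exact_mod_cast hd3.1, by exact_mod_cast hd3.2⟩
        exact mul_le_mul e1 e2 (abs_nonneg _) hD0.le)
      rw [← hx, ← hE] at h5
      refine le_trans (le_of_eq ?_) h5
      congr 1
      refine sum_congr rfl (fun p _ => ?_)
      have e3 : jc (d * d') p = jc d p * jc d' p := by
        unfold jc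
        rw [jacobiSym.mul_left]
        push_cast
        rfl
      rw [e3]
      calc Real.sqrt (Real.log p) * jc d p * (Real.sqrt (Real.log p) * jc d' p) =
            jc d p * jc d' p * (Real.sqrt (Real.log p) * Real.sqrt (Real.log p)) := by ring
        _ = _ := by rw [hlog])
  have hlow : ∀ d ∈ B, (ε * X) ^ 2 ≤ (∑ p ∈ OP ⌊X⌋₊,
      W p * Real.sqrt (Real.log p) * (Real.sqrt (Real.log p) * jc d p)) ^ 2 := by
    intro d hd
    rw [hB] at hd
    rw [← sq_abs (∑ p ∈ OP ⌊X⌋₊, W p * Real.sqrt (Real.log p) * (Real.sqrt (Real.log p) * jc d p))]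
    exact pow_le_pow_left₀ (by positivity) (Rgc_T W d hX0 (mem_filter.1 hd).2) 2
  have ha : ∑ p ∈ OP ⌊X⌋₊, (W p * Real.sqrt (Real.log p)) ^ 2 ≤ 2 * C ^ 2 * X := by
    calc ∑ p ∈ OP ⌊X⌋₊, (W p * Real.sqrt (Real.log p)) ^ 2 ≤
          ∑ p ∈ OP ⌊X⌋₊, C ^ 2 * Real.log p := by
          refine sum_le_sum (fun p hp => ?_)
          rw [mul_pow, hsq]
          refine mul_le_mul_of_nonneg_right ?_ (Real.log_natCast_nonneg p)
          rw [← sq_abs]
          exact pow_le_pow_left₀ (abs_nonneg _) (hW p (mem_filter.1 hp).2.1) 2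
      _ = C ^ 2 * ∑ p ∈ OP ⌊X⌋₊, Real.log p := by rw [mul_sum]
      _ ≤ C ^ 2 * (2 * X) := mul_le_mul_of_nonneg_left (h3 X (by linarith)).1 (sq_nonneg _)
      _ = _ := by ring
  have hmain : (B.card : ℝ) * (ε ^ 2 * X ^ 2) ≤ (6 * C ^ 2) * X ^ 2 := by
    calc (B.card : ℝ) * (ε ^ 2 * X ^ 2) = ∑ _d ∈ B, (ε * X) ^ 2 := by
          rw [sum_const, nsmul_eq_mul]
          ring
      _ ≤ _ := sum_le_sum hlow
      _ ≤ (2 * X + E * (B.card : ℝ)) * ∑ p ∈ OP ⌊X⌋₊, (W p * Real.sqrt (Real.log p)) ^ 2 := key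
      _ ≤ (3 * X) * (2 * C ^ 2 * X) := by
          refine mul_le_mul (by linarith) ha (sum_nonneg (fun _ _ => sq_nonneg _)) (by positivity)
      _ = _ := by ring
  rw [← hB, le_div_iff₀ (by positivity)]
  have h9 : (B.card : ℝ) * ε ^ 2 * X ^ 2 ≤ 6 * C ^ 2 * X ^ 2 := by
    calc (B.card : ℝ) * ε ^ 2 * X ^ 2 = (B.card : ℝ) * (ε ^ 2 * X ^ 2) := by ring
      _ ≤ _ := hmain
  exact le_of_mul_le_mul_right h9 (by positivity)

end Pool.Agent.Lib.NagA
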