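import Pool.Agent.Lib.MP_60fb2a_nt.An.Spec

set_option autoImplicit false

namespace Pool.Agent.Lib.NagA

open Polynomial Finset Classical

theorem tSch : SchStmt := by
  intro ι κ S T φ b M E hM hE h1 h2
  obtain ⟨t, ht⟩ : ∃ t : ι → ℝ, ∀ d, t d = ∑ n ∈ T, b n * φ d n := ⟨_, fun _ => rfl⟩
  have hgoal : ∑ d ∈ S, (∑ n ∈ T, b n * φ d n) ^ 2 = ∑ d ∈ S, t d ^ 2 :=
    Finset.sum_congr rfl fun d _ => by rw [ht]
  rw [hgoal]
  set Q : ℝ := ∑ d ∈ S, t d ^ 2 with hQ
  have hQ0 : 0 ≤ Q := Finset.sum_nonneg fun d _ => sq_nonneg _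
  have e1 : Q = ∑ n ∈ T, b n * ∑ d ∈ S, t d * φ d n := by
    rw [hQ]
    have : ∀ d ∈ S, t d ^ 2 = ∑ n ∈ T, b n * (t d * φ d n) := by
      intro d _
      rw [sq]
      nth_rewrite 2 [ht d]
      rw [Finset.mul_sum]
      apply Finset.sum_congr rfl
      intro n _
      ring
    rw [Finset.sum_congr rfl this, Finset.sum_comm]
    apply Finset.sum_congr rfl
    intro n _
    rw [Finset.mul_sum]
  have e2 : Q ^ 2 ≤ (∑ n ∈ T, b n ^ 2) * ∑ n ∈ T, (∑ d ∈ S, t d * φ d n) ^ 2 := by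
    nth_rewrite 1 [e1]
    exact Finset.sum_mul_sq_le_sq_mul_sq T _ _
  have e3 : ∑ n ∈ T, (∑ d ∈ S, t d * φ d n) ^ 2 =
      ∑ d ∈ S, ∑ d' ∈ S, t d * t d' * ∑ n ∈ T, φ d n * φ d' n := by
    have : ∀ n ∈ T, (∑ d ∈ S, t d * φ d n) ^ 2 =
        ∑ d ∈ S, ∑ d' ∈ S, t d * t d' * (φ d n * φ d' n) := by
      intro n _
      rw [sq, Finset.sum_mul_sum]
      apply Finset.sum_congr rfl
      intro d _
      apply Finset.sum_congr rfl
      intro d' _
      ring
    rw [Finset.sum_congr rfl this, Finset.sum_comm]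
    apply Finset.sum_congr rfl
    intro d _
    rw [Finset.sum_comm]
    apply Finset.sum_congr rfl
    intro d' _
    rw [Finset.mul_sum]
  have e4 : ∀ d ∈ S, ∀ d' ∈ S, t d * t d' * ∑ n ∈ T, φ d n * φ d' n ≤
      (if d = d' then M * t d ^ 2 else 0) + E * (|t d| * |t d'|) := by
    intro d hd d' hd'
    by_cases h : d = d'
    · subst h
      rw [if_pos rfl]
      have h5 : ∑ n ∈ T, φ d n * φ d n ≤ M := by
        refine le_trans (le_of_eq ?_) (h1 d hd)
        apply Finset.sum_congr rfl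
        intro n _
        ring
      have h6 : 0 ≤ E * (|t d| * |t d|) := by positivity
      have h7 : t d * t d * ∑ n ∈ T, φ d n * φ d n ≤ t d * t d * M :=
        mul_le_mul_of_nonneg_left h5 (mul_self_nonneg _)
      nlinarith
    · rw [if_neg h, zero_add]
      calc t d * t d' * ∑ n ∈ T, φ d n * φ d' n ≤ |t d * t d' * ∑ n ∈ T, φ d n * φ d' n| := le_abs_self _
        _ = |t d| * |t d'| * |∑ n ∈ T, φ d n * φ d' n| := by rw [abs_mul, abs_mul]
        _ ≤ |t d| * |t d'| * E := mul_le_mul_of_nonneg_left (h2 d hd d' hd' h) (by positivity)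
        _ = E * (|t d| * |t d'|) := by ring
  have e5 : (∑ d ∈ S, |t d|) ^ 2 ≤ (S.card : ℝ) * Q := by
    have := sq_sum_le_card_mul_sum_sq (s := S) (f := fun d => |t d|)
    simpa only [sq_abs] using this
  have e6 : ∑ n ∈ T, (∑ d ∈ S, t d * φ d n) ^ 2 ≤ (M + E * (S.card : ℝ)) * Q := by
    rw [e3]
    calc ∑ d ∈ S, ∑ d' ∈ S, t d * t d' * ∑ n ∈ T, φ d n * φ d' n
        ≤ ∑ d ∈ S, ∑ d' ∈ S, ((if d = d' then M * t d ^ 2 else 0) + E * (|t d| * |t d'|)) :=
          Finset.sum_le_sum fun d hd => Finset.sum_le_sum fun d' hd' => e4 d hd d' hd'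
      _ = M * Q + E * (∑ d ∈ S, |t d|) ^ 2 := by
          simp only [Finset.sum_add_distrib]
          congr 1
          · rw [hQ, Finset.mul_sum]
            apply Finset.sum_congr rfl
            intro d hd
            rw [Finset.sum_ite_eq, if_pos hd]
          · rw [sq, Finset.sum_mul_sum, Finset.mul_sum]
            apply Finset.sum_congr rfl
            intro d _
            rw [Finset.mul_sum]
      _ ≤ M * Q + E * ((S.card : ℝ) * Q) := by
          have := mul_le_mul_of_nonneg_left e5 hE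
          linarith
      _ = (M + E * (S.card : ℝ)) * Q := by ring
  have hB : 0 ≤ ∑ n ∈ T, b n ^ 2 := Finset.sum_nonneg fun n _ => sq_nonneg _
  have hR : 0 ≤ (M + E * (S.card : ℝ)) * ∑ n ∈ T, b n ^ 2 := by positivity
  rcases hQ0.eq_or_lt with h | h
  · rw [← h]
    exact hR
  · have h8 : Q ^ 2 ≤ (∑ n ∈ T, b n ^ 2) * ((M + E * (S.card : ℝ)) * Q) :=
      le_trans e2 (mul_le_mul_of_nonneg_left e6 hB)
    have h9 : Q * Q ≤ ((M + E * (S.card : ℝ)) * ∑ n ∈ T, b n ^ 2) * Q := by nlinarith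
    exact le_of_mul_le_mul_right h9 h

end Pool.Agent.Lib.NagA
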