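import Pool.Agent.Lib.MP_60fb2a_nt.An.Spec

set_option autoImplicit false

namespace Pool.Agent.Lib.NagA

open Polynomial Finset Classical

theorem tSqf : SqfStmt := by
  rintro d d' hd hd' hne ⟨k, hk⟩
  have hd0 : d ≠ 0 := hd.ne_zero
  have h1 : d ∣ k := by
    have h2 : d ∣ k ^ 2 := ⟨d', by rw [hk]; ring⟩
    exact (hd.dvd_pow_iff_dvd two_ne_zero).mp h2
  obtain ⟨e, rfl⟩ := h1
  have h3 : d' = d * (e * e) := by
    apply mul_left_cancel₀ hd0
    rw [hk]
    ring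
  have h4 : IsUnit e := hd' e ⟨d, by rw [h3]; ring⟩
  apply hne
  rcases Int.isUnit_iff.mp h4 with h5 | h5
  · rw [h3, h5]; ring
  · rw [h3, h5]; ring

end Pool.Agent.Lib.NagA
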