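import Pool.Agent.Lib.MP_60fb2a_nt.An.Spec

/-!
MP_60fb2a_nt, module Swa: Siegel-Walfisz for real characters, unweighted (author helper86).
-/

set_option autoImplicit false

namespace Pool.Agent.Lib.NagA

open Polynomial Finset Classical

private theorem log3 : (1.05 : ℝ) ≤ Real.log 3 := by
  rw [Real.le_log_iff_exp_le (by norm_num)]
  have h1 : Real.exp 1.05 = Real.exp 1 * Real.exp 0.05 := by
    rw [← Real.exp_add]
    norm_num
  have h2 := Real.exp_one_lt_d9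
  have h3 : Real.exp 0.05 ≤ 1 / (1 - 0.05) :=
    Real.exp_bound_div_one_sub_of_interval (by norm_num) (by norm_num)
  have h4 := Real.exp_pos (0.05 : ℝ)
  rw [h1]
  calc Real.exp 1 * Real.exp 0.05 ≤ 2.7182818286 * (1 / (1 - 0.05)) :=
        mul_le_mul h2.le h3 h4.le (by norm_num)
    _ ≤ 3 := by norm_num

private theorem pow30 {L : ℝ} (hL : (1.05 : ℝ) ≤ L) : 4 ≤ L ^ (30 : ℝ) := by
  have h1 : L ^ (30 : ℝ) = L ^ (30 : ℕ) := by
    rw [← Real.rpow_natCast]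
    norm_num
  rw [h1]
  calc (4 : ℝ) ≤ 1.05 ^ (30 : ℕ) := by norm_num
    _ ≤ L ^ (30 : ℕ) := pow_le_pow_left₀ (by norm_num) hL 30

/-- `(log x)^s ≤ s^s x`. -/
private theorem logpow {s x : ℝ} (hs : 0 < s) (hx : 3 ≤ x) : Real.log x ^ s ≤ s ^ s * x := by
  have hx0 : 0 ≤ x := by linarith
  have h1 : Real.log x ≤ x ^ (1 / s) / (1 / s) := Real.log_le_rpow_div hx0 (by positivity)
  have h2 : 0 ≤ Real.log x := Real.log_nonneg (by linarith)
  calc Real.log x ^ s ≤ (x ^ (1 / s) / (1 / s)) ^ s := Real.rpow_le_rpow h2 h1 hs.le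
    _ = (s * x ^ (1 / s)) ^ s := by
        congr 1
        field_simp
    _ = s ^ s * (x ^ (1 / s)) ^ s := Real.mul_rpow hs.le (Real.rpow_nonneg hx0 _)
    _ = s ^ s * x := by
        rw [← Real.rpow_mul hx0, one_div_mul_cancel hs.ne', Real.rpow_one]

private theorem jac_abs (m : ℤ) (p : ℕ) : ‖((jacobiSym m p : ℤ) : ℂ)‖ ≤ 1 := by
  rcases jacobiSym.trichotomy m p with h | h | h <;> rw [h] <;> norm_num

theorem tSwa (h1 : PrcStmt) (h2 : SwH) : SwaStmt := by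
  intro A B hA hB
  obtain ⟨C, hC, hSw⟩ := h2 A (B + 30) hA (by linarith)
  refine ⟨C + 4 * (A + B) ^ (A + B), by positivity, fun x m hx hm hmx => ?_⟩
  obtain ⟨q, χ, hq2, hqd, hprim, hχ⟩ := h1 m hm
  have hm0 : m ≠ 0 := by
    rintro rfl
    exact hm ⟨0, rfl⟩
  have hlog : (1.05 : ℝ) ≤ Real.log x := log3.trans (Real.log_le_log (by norm_num) hx)
  have hlog0 : 0 < Real.log x := by linarith
  have hmn : ((m.natAbs : ℕ) : ℝ) = |(m : ℝ)| := by
    rw [Nat.cast_natAbs, Int.cast_abs]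
  have hq : (q : ℝ) ≤ Real.log x ^ (B + 30) := by
    have h3 : q ≤ 4 * m.natAbs := Nat.le_of_dvd (by
      have := Int.natAbs_pos.2 hm0
      omega) hqd
    have h4 : (q : ℝ) ≤ 4 * |(m : ℝ)| := by
      rw [← hmn]
      exact_mod_cast h3
    rw [Real.rpow_add hlog0]
    have h5 := pow30 hlog
    have h6 : 0 ≤ Real.log x ^ B := Real.rpow_nonneg hlog0.le _
    calc (q : ℝ) ≤ 4 * |(m : ℝ)| := h4
      _ ≤ 4 * Real.log x ^ B := by linarith
      _ ≤ Real.log x ^ (30 : ℝ) * Real.log x ^ B := mul_le_mul_of_nonneg_right h5 h6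
      _ = Real.log x ^ B * Real.log x ^ (30 : ℝ) := mul_comm _ _
  have hT := hSw x q χ hx hq2 hq hprim
  obtain ⟨P, hP⟩ : ∃ P, P = (Icc 1 ⌊x⌋₊).filter Nat.Prime := ⟨_, rfl⟩
  rw [← hP] at hT
  have hOP : OP ⌊x⌋₊ = P.filter (fun p => p ≠ 2) := by
    rw [hP]
    unfold OP
    ext p
    simp only [Finset.mem_filter, Finset.mem_range, Finset.mem_Icc]
    constructor
    · rintro ⟨h3, h4, h5⟩
      exact ⟨⟨⟨h4.one_lt.le, by omega⟩, h4⟩, h5⟩
    · rintro ⟨⟨⟨-, h3⟩, h4⟩, h5⟩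
      exact ⟨by omega, h4, h5⟩
  have hS : ((∑ p ∈ OP ⌊x⌋₊, jc m p : ℝ) : ℂ) =
      ∑ p ∈ P, if p ≠ 2 then ((jacobiSym m p : ℤ) : ℂ) else 0 := by
    rw [hOP, ← Finset.sum_filter]
    unfold jc
    push_cast
    rfl
  have hdiff : ‖(∑ p ∈ P, χ (p : ZMod q)) - ((∑ p ∈ OP ⌊x⌋₊, jc m p : ℝ) : ℂ)‖ ≤
      4 * Real.log x ^ B := by
    rw [hS, ← Finset.sum_sub_distrib]
    have h3 : ∀ p ∈ P, ‖χ (p : ZMod q) - (if p ≠ 2 then ((jacobiSym m p : ℤ) : ℂ) else 0)‖ ≤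
        if (p : ℤ) ∣ 2 * m then 2 else 0 := by
      intro p hp
      rw [hP, Finset.mem_filter] at hp
      by_cases hd : (p : ℤ) ∣ 2 * m
      · rw [if_pos hd]
        have h4 : ‖χ (p : ZMod q)‖ ≤ 1 := DirichletCharacter.norm_le_one χ _
        have h5 : ‖(if p ≠ 2 then ((jacobiSym m p : ℤ) : ℂ) else 0)‖ ≤ 1 := by
          split_ifs
          · exact jac_abs m p
          · simp
        exact (norm_sub_le _ _).trans (by linarith)
      · rw [if_neg hd]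
        have h4 : p ≠ 2 := by
          rintro rfl
          exact hd ⟨m, by push_cast; rfl⟩
        rw [if_pos h4, hχ p hp.2 hd, sub_self, norm_zero]
    refine (norm_sum_le _ _).trans ((Finset.sum_le_sum h3).trans ?_)
    rw [← Finset.sum_filter, Finset.sum_const, nsmul_eq_mul]
    have h4 : (P.filter (fun p : ℕ => (p : ℤ) ∣ 2 * m)).card ≤ 2 * m.natAbs := by
      have h5 : P.filter (fun p : ℕ => (p : ℤ) ∣ 2 * m) ⊆ Icc 1 (2 * m.natAbs) := by
        intro p hp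
        rw [Finset.mem_filter, hP, Finset.mem_filter] at hp
        rw [Finset.mem_Icc]
        refine ⟨hp.1.2.one_lt.le, ?_⟩
        have h6 := Int.natCast_dvd.1 hp.2
        rw [Int.natAbs_mul] at h6
        refine Nat.le_of_dvd ?_ h6
        have := Int.natAbs_pos.2 hm0
        omega
      have h7 := Finset.card_le_card h5
      rwa [Nat.card_Icc, Nat.add_sub_cancel] at h7
    have h5 : ((P.filter (fun p : ℕ => (p : ℤ) ∣ 2 * m)).card : ℝ) ≤ 2 * |(m : ℝ)| := by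
      rw [← hmn]
      exact_mod_cast h4
    calc ((P.filter (fun p : ℕ => (p : ℤ) ∣ 2 * m)).card : ℝ) * 2 ≤ 2 * |(m : ℝ)| * 2 :=
          mul_le_mul_of_nonneg_right h5 (by norm_num)
      _ ≤ 4 * Real.log x ^ B := by linarith
  have hlp : Real.log x ^ B ≤ (A + B) ^ (A + B) * (x / Real.log x ^ A) := by
    have h3 := logpow (s := A + B) (by linarith) hx
    have h4 : 0 < Real.log x ^ A := Real.rpow_pos_of_pos hlog0 _
    rw [← mul_div_assoc, le_div_iff₀ h4, ← Real.rpow_add hlog0, add_comm B A]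
    exact h3
  have hfin : |∑ p ∈ OP ⌊x⌋₊, jc m p| = ‖((∑ p ∈ OP ⌊x⌋₊, jc m p : ℝ) : ℂ)‖ := by
    rw [Complex.norm_real, Real.norm_eq_abs]
  rw [hfin]
  have h3 : ‖((∑ p ∈ OP ⌊x⌋₊, jc m p : ℝ) : ℂ)‖ ≤ ‖∑ p ∈ P, χ (p : ZMod q)‖ +
      ‖(∑ p ∈ P, χ (p : ZMod q)) - ((∑ p ∈ OP ⌊x⌋₊, jc m p : ℝ) : ℂ)‖ := by
    have h4 := norm_sub_le (∑ p ∈ P, χ (p : ZMod q))
      ((∑ p ∈ P, χ (p : ZMod q)) - ((∑ p ∈ OP ⌊x⌋₊, jc m p : ℝ) : ℂ))
    rwa [sub_sub_cancel] at h4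
  calc ‖((∑ p ∈ OP ⌊x⌋₊, jc m p : ℝ) : ℂ)‖ ≤ C * (x / Real.log x ^ A) + 4 * Real.log x ^ B :=
        h3.trans (add_le_add hT hdiff)
    _ ≤ C * (x / Real.log x ^ A) + 4 * ((A + B) ^ (A + B) * (x / Real.log x ^ A)) := by linarith
    _ = (C + 4 * (A + B) ^ (A + B)) * (x / Real.log x ^ A) := by ring

end Pool.Agent.Lib.NagA
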