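import Pool.Agent.Lib.MP_60fb2a_nt.An.SpecL

set_option autoImplicit false

namespace Pool.Agent.Lib.NagA

open Polynomial Finset Classical

private noncomputable def Swl_T (m : ℤ) (n : ℕ) : ℝ := ∑ p ∈ OP n, jc m p * Real.log p

private noncomputable def Swl_L (m : ℤ) (n : ℕ) : ℝ := ∑ p ∈ OP n, jc m p * (Real.log p / p)

private lemma Swl_step (n : ℕ) (f : ℕ → ℝ) :
    ∑ p ∈ OP (n + 1), f p = ∑ p ∈ OP n, f p + (if (n + 1).Prime ∧ n + 1 ≠ 2 then f (n + 1) else 0) := by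
  unfold OP
  rw [Finset.range_add_one (n := n + 1), Finset.filter_insert]
  by_cases h : (n + 1).Prime ∧ n + 1 ≠ 2
  · rw [if_pos h, if_pos h, Finset.sum_insert (by simp), add_comm]
  · rw [if_neg h, if_neg h, add_zero]

private lemma Swl_G (m : ℤ) (n : ℕ) :
    (Swl_L m (n + 1) - Swl_T m (n + 1) / ((n : ℝ) + 2)) - (Swl_L m n - Swl_T m n / ((n : ℝ) + 1)) =
      Swl_T m (n + 1) / (((n : ℝ) + 1) * ((n : ℝ) + 2)) := by
  have h1 : ((n : ℝ) + 1) ≠ 0 := by positivity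
  have h2 : ((n : ℝ) + 2) ≠ 0 := by positivity
  unfold Swl_L Swl_T
  rw [Swl_step n, Swl_step n (fun p => jc m p * Real.log p)]
  by_cases h : (n + 1).Prime ∧ n + 1 ≠ 2
  · rw [if_pos h, if_pos h]
    push_cast
    field_simp
    ring
  · rw [if_neg h, if_neg h]
    field_simp
    ring

private lemma Swl_jc (m : ℤ) (p : ℕ) : |jc m p| ≤ 1 := by
  unfold jc
  rcases jacobiSym.trichotomy m p with h | h | h <;> rw [h] <;> norm_num

private lemma Swl_tel (n : ℕ) (hn : 3 ≤ n) (C T : ℝ) (hC : 0 < C)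
    (hT : |T| ≤ C * (((n : ℝ) + 1) / Real.log ((n : ℝ) + 1) ^ 2)) :
    |T / (((n : ℝ) + 1) * ((n : ℝ) + 2))| ≤ C * (1 / Real.log n - 1 / Real.log ((n : ℝ) + 1)) := by
  have hn3 : (3 : ℝ) ≤ n := by exact_mod_cast hn
  have hl : 0 < Real.log n := Real.log_pos (by linarith)
  have hl' : Real.log n ≤ Real.log ((n : ℝ) + 1) := Real.log_le_log (by linarith) (by linarith)
  have hl1 : 0 < Real.log ((n : ℝ) + 1) := lt_of_lt_of_le hl hl'
  have hd : 1 / ((n : ℝ) + 1) ≤ Real.log ((n : ℝ) + 1) - Real.log n := by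
    have h0 : Real.log ((n : ℝ) / (n + 1)) ≤ (n : ℝ) / (n + 1) - 1 :=
      Real.log_le_sub_one_of_pos (by positivity)
    rw [Real.log_div (by linarith) (by linarith)] at h0
    have h1 : (n : ℝ) / (n + 1) - 1 = - (1 / ((n : ℝ) + 1)) := by
      field_simp
      ring
    linarith
  rw [abs_div, abs_of_pos (show (0 : ℝ) < ((n : ℝ) + 1) * ((n : ℝ) + 2) by positivity)]
  have h1 : |T| / (((n : ℝ) + 1) * ((n : ℝ) + 2)) ≤
      C * (((n : ℝ) + 1) / Real.log ((n : ℝ) + 1) ^ 2) / (((n : ℝ) + 1) * ((n : ℝ) + 2)) :=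
    div_le_div_of_nonneg_right hT (by positivity)
  have h2 : C * (((n : ℝ) + 1) / Real.log ((n : ℝ) + 1) ^ 2) / (((n : ℝ) + 1) * ((n : ℝ) + 2)) =
      C * (1 / ((n : ℝ) + 2) / Real.log ((n : ℝ) + 1) ^ 2) := by
    field_simp
  have h3 : 1 / ((n : ℝ) + 2) / Real.log ((n : ℝ) + 1) ^ 2 ≤ 1 / Real.log n - 1 / Real.log ((n : ℝ) + 1) := by
    have e : 1 / Real.log n - 1 / Real.log ((n : ℝ) + 1) =
        (Real.log ((n : ℝ) + 1) - Real.log n) / (Real.log n * Real.log ((n : ℝ) + 1)) := by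
      field_simp
    rw [e]
    have h4 : 1 / ((n : ℝ) + 2) ≤ Real.log ((n : ℝ) + 1) - Real.log n := by
      have : 1 / ((n : ℝ) + 2) ≤ 1 / ((n : ℝ) + 1) :=
        one_div_le_one_div_of_le (by positivity) (by linarith)
      linarith
    have h5 : 0 ≤ Real.log ((n : ℝ) + 1) - Real.log n := by linarith
    apply div_le_div₀ h5 h4 (by positivity)
    nlinarith
  calc |T| / (((n : ℝ) + 1) * ((n : ℝ) + 2)) ≤ C * (1 / ((n : ℝ) + 2) / Real.log ((n : ℝ) + 1) ^ 2) := by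
        rw [← h2]; exact h1
    _ ≤ C * (1 / Real.log n - 1 / Real.log ((n : ℝ) + 1)) := mul_le_mul_of_nonneg_left h3 hC.le

private lemma Swl_ind (m : ℤ) (n0 : ℕ) (hn : 3 ≤ n0) (C : ℝ) (hC : 0 < C)
    (hT : ∀ n : ℕ, n0 < n → |Swl_T m n| ≤ C * ((n : ℝ) / Real.log (n : ℝ) ^ 2)) (N : ℕ) (hN : n0 ≤ N) :
    |(Swl_L m N - Swl_T m N / ((N : ℝ) + 1)) - (Swl_L m n0 - Swl_T m n0 / ((n0 : ℝ) + 1))| ≤
      C * (1 / Real.log n0 - 1 / Real.log N) := by
  induction N, hN using Nat.le_induction with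
  | base => simp
  | succ N hN ih =>
    have h1 := Swl_tel N (le_trans hn hN) C (Swl_T m (N + 1)) hC (by
      have := hT (N + 1) (by omega)
      push_cast at this
      exact this)
    rw [← Swl_G] at h1
    push_cast
    have e2 : ((N : ℝ) + 1 + 1) = (N : ℝ) + 2 := by ring
    rw [e2]
    have h2 := abs_add_le
      ((Swl_L m (N + 1) - Swl_T m (N + 1) / ((N : ℝ) + 2)) - (Swl_L m N - Swl_T m N / ((N : ℝ) + 1)))
      ((Swl_L m N - Swl_T m N / ((N : ℝ) + 1)) - (Swl_L m n0 - Swl_T m n0 / ((n0 : ℝ) + 1)))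
    rw [sub_add_sub_cancel] at h2
    refine h2.trans ?_
    have h3 : C * (1 / Real.log n0 - 1 / Real.log ((N : ℝ) + 1)) =
        C * (1 / Real.log N - 1 / Real.log ((N : ℝ) + 1)) + C * (1 / Real.log n0 - 1 / Real.log N) := by
      ring
    rw [h3]
    exact add_le_add h1 ih

/-- Module Swl: character sums over the odd primes with the weights `(log p)/p`. -/
theorem tSwl (h1 : SwwStmt) (h2 : MrtStmt) : SwlStmt := by
  intro κ hκ
  obtain ⟨C, hC, hS⟩ := h1 2 (4 / κ) (by norm_num) (by positivity)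
  have hlim : Filter.Tendsto (fun D : ℕ => (D : ℝ) ^ (κ / 2)) Filter.atTop Filter.atTop :=
    (tendsto_rpow_atTop (by positivity)).comp tendsto_natCast_atTop_atTop
  obtain ⟨D₀, hD₀⟩ := Filter.eventually_atTop.1 (hlim.eventually_ge_atTop (2 + 3 * C))
  refine ⟨max D₀ 1, ?_⟩
  intro D hD m hm hmD x hx
  have hDD : D₀ ≤ D := le_trans (le_max_left _ _) hD
  have hD1 : (1 : ℝ) ≤ D := by
    exact_mod_cast le_trans (le_max_right D₀ 1) hD
  have hbig : 2 + 3 * C ≤ (D : ℝ) ^ (κ / 2) := hD₀ D hDD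
  set w : ℝ := (D : ℝ) ^ (κ / 2) with hw
  have hw2 : 2 ≤ w := by linarith
  set z : ℝ := Real.exp w with hz
  have hlz : Real.log z = w := Real.log_exp w
  have hz3 : 3 ≤ z := by
    have := Real.add_one_le_exp w
    linarith
  have hzx : z ≤ x := by
    refine le_trans (Real.exp_le_exp.2 ?_) hx
    exact Real.rpow_le_rpow_of_exponent_le hD1 (by linarith)
  set n0 : ℕ := ⌊z⌋₊ with hn0
  have hn03 : 3 ≤ n0 := Nat.le_floor (by exact_mod_cast hz3)
  have hn0z : z < (n0 : ℝ) + 1 := Nat.lt_floor_add_one z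
  have hn0le : (n0 : ℝ) ≤ z := Nat.floor_le (by linarith)
  have hN : n0 ≤ ⌊x⌋₊ := Nat.floor_le_floor hzx
  have hDw : (D : ℝ) ^ 2 = w ^ (4 / κ) := by
    rw [hw, ← Real.rpow_mul (by linarith), ← Real.rpow_natCast]
    congr 1
    field_simp
    norm_num
  -- the bound for Θ at real points
  have hT : ∀ t : ℝ, z ≤ t → |Swl_T m ⌊t⌋₊| ≤ C * (t / Real.log t ^ 2) := by
    intro t ht
    have hlt : w ≤ Real.log t := by
      rw [← hlz]
      exact Real.log_le_log (by linarith) ht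
    have h3 := hS t m (by linarith) hm (by
      refine hmD.trans ?_
      rw [hDw]
      exact Real.rpow_le_rpow (by linarith) hlt (by positivity))
    rw [show (2 : ℝ) = ((2 : ℕ) : ℝ) by norm_num, Real.rpow_natCast] at h3
    exact h3
  have hTn : ∀ n : ℕ, n0 < n → |Swl_T m n| ≤ C * ((n : ℝ) / Real.log (n : ℝ) ^ 2) := by
    intro n hn
    have h3 := hT (n : ℝ) (by
      have : ((n0 : ℝ) + 1) ≤ n := by exact_mod_cast hn
      linarith)
    rw [Nat.floor_natCast] at h3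
    exact h3
  have hmain := Swl_ind m n0 hn03 C hC hTn ⌊x⌋₊ hN
  -- logs
  have hl0 : 1 ≤ Real.log n0 := by
    rw [Real.le_log_iff_exp_le (by positivity)]
    have h3 : (3 : ℝ) ≤ n0 := by exact_mod_cast hn03
    have := Real.exp_one_lt_d9
    linarith
  have hlN : 0 ≤ 1 / Real.log (⌊x⌋₊ : ℝ) := by
    apply div_nonneg zero_le_one
    apply Real.log_natCast_nonneg
  have hA : C * (1 / Real.log n0 - 1 / Real.log (⌊x⌋₊ : ℝ)) ≤ C := by
    have : 1 / Real.log (n0 : ℝ) ≤ 1 := by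
      rw [div_le_one (by linarith)]
      exact hl0
    nlinarith
  -- boundary terms
  have hB : ∀ t : ℝ, z ≤ t → |Swl_T m ⌊t⌋₊ / ((⌊t⌋₊ : ℝ) + 1)| ≤ C := by
    intro t ht
    have h4 := hT t ht
    have h5 : t < (⌊t⌋₊ : ℝ) + 1 := Nat.lt_floor_add_one t
    have hlt : 2 ≤ Real.log t := by
      have : w ≤ Real.log t := by
        rw [← hlz]
        exact Real.log_le_log (by linarith) ht
      linarith
    have ht0 : 0 < t := by linarith
    rw [abs_div, abs_of_pos (show (0 : ℝ) < (⌊t⌋₊ : ℝ) + 1 by positivity), div_le_iff₀ (by positivity)]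
    refine h4.trans ?_
    apply mul_le_mul_of_nonneg_left _ hC.le
    have h6 : t / Real.log t ^ 2 ≤ t := by
      apply div_le_self ht0.le
      nlinarith
    linarith
  have hB0 : |Swl_T m n0 / ((n0 : ℝ) + 1)| ≤ C := hB z le_rfl
  have hBN := hB x hzx
  -- the small primes
  have hL0 : |Swl_L m n0| ≤ 2 + 2 * w := by
    have h3 := h2 1 z le_rfl (by linarith)
    rw [div_one, hlz] at h3
    refine le_trans ?_ h3
    unfold Swl_L
    refine (Finset.abs_sum_le_sum_abs _ _).trans ?_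
    have e : (OP ⌊z⌋₊).filter (fun p : ℕ => (1 : ℝ) < (p : ℝ)) = OP ⌊z⌋₊ := by
      apply Finset.filter_true_of_mem
      intro p hp
      unfold OP at hp
      rw [Finset.mem_filter] at hp
      exact_mod_cast hp.2.1.one_lt
    rw [e]
    apply Finset.sum_le_sum
    intro p _
    have h0 : 0 ≤ Real.log (p : ℝ) / p := div_nonneg (Real.log_natCast_nonneg p) (Nat.cast_nonneg p)
    rw [abs_mul, abs_of_nonneg h0]
    calc |jc m p| * (Real.log (p : ℝ) / p) ≤ 1 * (Real.log (p : ℝ) / p) :=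
          mul_le_mul_of_nonneg_right (Swl_jc m p) h0
      _ = Real.log (p : ℝ) / p := one_mul _
  have hfin : |Swl_L m ⌊x⌋₊| ≤ 2 + 2 * w + 3 * C := by
    rw [abs_le] at *
    constructor <;> linarith [hmain.1, hmain.2, hB0.1, hB0.2, hBN.1, hBN.2, hL0.1, hL0.2]
  refine le_trans hfin ?_
  linarith

end Pool.Agent.Lib.NagA
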