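import Pool.Agent.Lib.MP_60fb2a_nt.An.Spec

/-!
# Module Sww: Siegel-Walfisz for real characters, with the weights `log p` (author helper62)
-/

set_option autoImplicit false

namespace Pool.Agent.Lib.NagA

open Polynomial Finset Classical

private theorem Sww_sum (f : ℕ → ℝ) (N : ℕ) :
    ∑ p ∈ OP (N + 1), f p = ∑ p ∈ OP N, f p + (if (N + 1).Prime ∧ N + 1 ≠ 2 then f (N + 1) else 0) := by
  unfold OP
  rw [Finset.sum_filter, Finset.sum_filter, Finset.sum_range_succ _ (N + 1)]

private theorem Sww_zero (f : ℕ → ℝ) : ∑ p ∈ OP 0, f p = 0 := by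
  refine Finset.sum_eq_zero fun p hp => ?_
  have h1 := (Finset.mem_filter.1 hp)
  have h2 := Finset.mem_range.1 h1.1
  have h3 := h1.2.1.pos
  omega

/-- Abel summation -/
private theorem Sww_abel (m : ℤ) (N : ℕ) : ∑ p ∈ OP N, jc m p * Real.log p =
    (∑ p ∈ OP N, jc m p) * Real.log N -
      ∑ n ∈ Finset.range N, (∑ p ∈ OP n, jc m p) * (Real.log ((n + 1 : ℕ) : ℝ) - Real.log n) := by
  induction N with
  | zero => rw [Sww_zero, Sww_zero, Finset.sum_range_zero, zero_mul, sub_zero]
  | succ N ih =>
    rw [Sww_sum (fun p => jc m p * Real.log p), ih, Finset.sum_range_succ, Sww_sum (fun p => jc m p)]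
    by_cases h : (N + 1).Prime ∧ N + 1 ≠ 2
    · rw [if_pos h, if_pos h]
      ring
    · rw [if_neg h, if_neg h]
      ring

private theorem Sww_jc (m : ℤ) (n : ℕ) : |jc m n| ≤ 1 := by
  unfold jc
  rcases jacobiSym.trichotomy m n with h | h | h <;> rw [h] <;> norm_num

private theorem Sww_card (n : ℕ) : ((OP n).card : ℝ) ≤ n := by
  have h : (OP n).card ≤ (Finset.Icc 1 n).card := by
    refine Finset.card_le_card fun p hp => ?_
    have h1 := (Finset.mem_filter.1 hp)
    have h2 := Finset.mem_range.1 h1.1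
    have h3 := h1.2.1.pos
    exact Finset.mem_Icc.2 ⟨h3, by omega⟩
  rw [Nat.card_Icc, Nat.add_sub_cancel] at h
  exact_mod_cast h

private theorem Sww_F (m : ℤ) (n : ℕ) : |∑ p ∈ OP n, jc m p| ≤ n := by
  refine (Finset.abs_sum_le_sum_abs _ _).trans ?_
  refine (Finset.sum_le_sum fun p _ => Sww_jc m p).trans ?_
  rw [Finset.sum_const, nsmul_eq_mul, mul_one]
  exact Sww_card n

private theorem Sww_log {n : ℕ} (hn : 1 ≤ n) : Real.log ((n + 1 : ℕ) : ℝ) - Real.log n ≤ 1 / n := by
  have h1 : (0 : ℝ) < n := by exact_mod_cast hn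
  rw [← Real.log_div (by positivity) h1.ne']
  have h2 := Real.log_le_sub_one_of_pos (x := ((n + 1 : ℕ) : ℝ) / n) (by positivity)
  refine h2.trans (le_of_eq ?_)
  push_cast
  field_simp
  ring

private theorem Sww_log0 (n : ℕ) : 0 ≤ Real.log ((n + 1 : ℕ) : ℝ) - Real.log n := by
  rcases Nat.eq_zero_or_pos n with rfl | hn
  · simp
  · have h1 : (0 : ℝ) < n := by exact_mod_cast hn
    have h2 : Real.log n ≤ Real.log ((n + 1 : ℕ) : ℝ) := Real.log_le_log h1 (by push_cast; linarith)
    linarith

theorem tSww (h1 : SwaStmt) : SwwStmt := by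
  intro A B hA hB
  obtain ⟨C₁, hC₁, hsw⟩ := h1 (A + 1) (B + 1) (by linarith) (by linarith)
  set L₀ : ℝ := 2 ^ (B + 1) + 8 with hL₀
  have h2B : (0 : ℝ) < 2 ^ (B + 1) := by positivity
  have hL8 : 8 ≤ L₀ := by rw [hL₀]; linarith
  set K : ℝ := C₁ * 2 ^ (A + 1) with hK
  have hKpos : 0 < K := by positivity
  set C₂ : ℝ := (2 * A) ^ A with hC₂
  have hC₂pos : 0 < C₂ := by positivity
  have hL₀pos : 0 < L₀ ^ (A + 1) := Real.rpow_pos_of_pos (by linarith) _
  refine ⟨L₀ ^ (A + 1) + C₁ + K + 2 * C₂, by positivity, ?_⟩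
  intro x m hx hm hmx
  have hx0 : 0 < x := by linarith
  have hlog1 : 1 < Real.log x := by
    rw [Real.lt_log_iff_exp_lt hx0]
    have := Real.exp_one_lt_d9
    linarith
  have hlogA : 0 < Real.log x ^ A := Real.rpow_pos_of_pos (by linarith) _
  have hbase : 0 < x / Real.log x ^ A := by positivity
  set N := ⌊x⌋₊ with hN
  have hNx : (N : ℝ) ≤ x := Nat.floor_le hx0.le
  have hN1 : 1 ≤ N := by
    rw [hN]
    exact Nat.le_floor (by push_cast; linarith)
  have hNpos : (0 : ℝ) < N := by exact_mod_cast hN1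
  rcases le_or_gt (Real.log x) L₀ with hcase | hcase
  · -- small `x`
    have e1 : |∑ p ∈ OP N, jc m p * Real.log p| ≤ x * Real.log x := by
      refine (Finset.abs_sum_le_sum_abs _ _).trans ?_
      have e2 : ∀ p ∈ OP N, |jc m p * Real.log p| ≤ Real.log x := by
        intro p hp
        have h1 := (Finset.mem_filter.1 hp)
        have h2 := Finset.mem_range.1 h1.1
        have h3 : (1 : ℝ) ≤ p := by exact_mod_cast h1.2.1.pos
        have h4 : (p : ℝ) ≤ x := by
          have : (p : ℝ) ≤ N := by exact_mod_cast (by omega : p ≤ N)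
          linarith
        rw [abs_mul, abs_of_nonneg (Real.log_nonneg h3)]
        calc |jc m p| * Real.log p ≤ 1 * Real.log p :=
              mul_le_mul_of_nonneg_right (Sww_jc m p) (Real.log_nonneg h3)
          _ ≤ Real.log x := by rw [one_mul]; exact Real.log_le_log (by linarith) h4
      refine (Finset.sum_le_sum e2).trans ?_
      rw [Finset.sum_const, nsmul_eq_mul]
      exact mul_le_mul_of_nonneg_right ((Sww_card N).trans hNx) (by linarith)
    have e3 : x * Real.log x = (x / Real.log x ^ A) * Real.log x ^ (A + 1) := by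
      rw [Real.rpow_add (by linarith), Real.rpow_one]
      field_simp
    have e4 : Real.log x ^ (A + 1) ≤ L₀ ^ (A + 1) :=
      Real.rpow_le_rpow (by linarith) hcase (by linarith)
    calc |∑ p ∈ OP N, jc m p * Real.log p| ≤ x * Real.log x := e1
      _ = (x / Real.log x ^ A) * Real.log x ^ (A + 1) := e3
      _ ≤ (x / Real.log x ^ A) * L₀ ^ (A + 1) := mul_le_mul_of_nonneg_left e4 hbase.le
      _ = L₀ ^ (A + 1) * (x / Real.log x ^ A) := mul_comm _ _
      _ ≤ (L₀ ^ (A + 1) + C₁ + K + 2 * C₂) * (x / Real.log x ^ A) :=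
        mul_le_mul_of_nonneg_right (by linarith) hbase.le
  · -- large `x`
    have hlogx : 2 ^ (B + 1) < Real.log x := by linarith
    have hx9 : 9 ≤ x := by
      have h3 : Real.exp 8 < x := (Real.lt_log_iff_exp_lt hx0).1 (by linarith)
      have h4 := Real.add_one_le_exp (8 : ℝ)
      linarith
    have hsq3 : 3 ≤ Real.sqrt x := by
      rw [show (3 : ℝ) = Real.sqrt 9 by
        rw [show (9 : ℝ) = 3 ^ 2 by norm_num, Real.sqrt_sq (by norm_num)]]
      exact Real.sqrt_le_sqrt hx9
    have hlogsq : Real.log (Real.sqrt x) = Real.log x / 2 := Real.log_sqrt hx0.le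
    have hApos : 0 < Real.log x ^ (A + 1) := Real.rpow_pos_of_pos (by linarith) _
    have hAA : x / Real.log x ^ (A + 1) ≤ x / Real.log x ^ A := by
      refine div_le_div_of_nonneg_left hx0.le hlogA ?_
      exact Real.rpow_le_rpow_of_exponent_le hlog1.le (by linarith)
    -- the last term
    have t1 : |(∑ p ∈ OP N, jc m p) * Real.log N| ≤ C₁ * (x / Real.log x ^ A) := by
      have e1 : |(m : ℝ)| ≤ Real.log x ^ (B + 1) :=
        hmx.trans (Real.rpow_le_rpow_of_exponent_le hlog1.le (by linarith))
      have e2 := hsw x m hx hm e1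
      have e3 : 0 ≤ Real.log N := Real.log_nonneg (by exact_mod_cast hN1)
      have e4 : Real.log N ≤ Real.log x := Real.log_le_log hNpos hNx
      rw [abs_mul, abs_of_nonneg e3]
      calc |∑ p ∈ OP N, jc m p| * Real.log N ≤ (C₁ * (x / Real.log x ^ (A + 1))) * Real.log x :=
            mul_le_mul e2 e4 e3 (by positivity)
        _ = C₁ * (x / Real.log x ^ A) := by
            rw [Real.rpow_add (by linarith), Real.rpow_one]
            field_simp
    -- the terms of the sum
    set c : ℝ := K / Real.log x ^ (A + 1) with hc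
    have hcpos : 0 < c := by positivity
    have t2 : ∀ n ∈ Finset.range N, |(∑ p ∈ OP n, jc m p) *
        (Real.log ((n + 1 : ℕ) : ℝ) - Real.log n)| ≤ (if (n : ℝ) < Real.sqrt x then 1 else 0) + c := by
      intro n _
      rw [abs_mul, abs_of_nonneg (Sww_log0 n)]
      rcases Nat.eq_zero_or_pos n with rfl | hn
      · rw [Sww_zero, abs_zero, zero_mul]
        have h5 : (0 : ℝ) ≤ (if ((0 : ℕ) : ℝ) < Real.sqrt x then 1 else 0) := by split_ifs <;> norm_num
        linarith
      · have hnr : (0 : ℝ) < n := by exact_mod_cast hn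
        have hl := Sww_log hn
        by_cases hns : (n : ℝ) < Real.sqrt x
        · rw [if_pos hns]
          have h5 : |∑ p ∈ OP n, jc m p| * (Real.log ((n + 1 : ℕ) : ℝ) - Real.log n) ≤ n * (1 / n) :=
            mul_le_mul (Sww_F m n) hl (Sww_log0 n) hnr.le
          rw [mul_one_div_cancel hnr.ne'] at h5
          linarith
        · rw [if_neg hns, zero_add]
          have hns' := not_lt.1 hns
          have hn3 : (3 : ℝ) ≤ n := hsq3.trans hns'
          have hln : Real.log x / 2 ≤ Real.log n := by
            rw [← hlogsq]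
            exact Real.log_le_log (by linarith) hns'
          have hhalf : 0 < Real.log x / 2 := by linarith
          have hmn : |(m : ℝ)| ≤ Real.log n ^ (B + 1) := by
            refine hmx.trans ?_
            calc Real.log x ^ B ≤ (Real.log x / 2) ^ (B + 1) := by
                  rw [Real.div_rpow (by linarith) (by norm_num), le_div_iff₀ h2B,
                    Real.rpow_add (show 0 < Real.log x by linarith), Real.rpow_one]
                  exact mul_le_mul_of_nonneg_left hlogx.le (Real.rpow_nonneg (by linarith) _)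
              _ ≤ Real.log n ^ (B + 1) := Real.rpow_le_rpow hhalf.le hln (by linarith)
          have h6 := hsw n m hn3 hm hmn
          rw [Nat.floor_natCast] at h6
          have h7 : C₁ * ((n : ℝ) / Real.log n ^ (A + 1)) ≤ c * n := by
            have h8 : (Real.log x / 2) ^ (A + 1) ≤ Real.log n ^ (A + 1) :=
              Real.rpow_le_rpow hhalf.le hln (by linarith)
            have h9 : 0 < (Real.log x / 2) ^ (A + 1) := Real.rpow_pos_of_pos hhalf _
            calc C₁ * ((n : ℝ) / Real.log n ^ (A + 1)) ≤ C₁ * ((n : ℝ) / (Real.log x / 2) ^ (A + 1)) :=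
                  mul_le_mul_of_nonneg_left (div_le_div_of_nonneg_left hnr.le h9 h8) hC₁.le
              _ = c * n := by
                  rw [hc, hK, Real.div_rpow (by linarith) (by norm_num)]
                  field_simp
          calc |∑ p ∈ OP n, jc m p| * (Real.log ((n + 1 : ℕ) : ℝ) - Real.log n) ≤ (c * n) * (1 / n) :=
                mul_le_mul (h6.trans h7) hl (Sww_log0 n) (by positivity)
            _ = c := by field_simp
    have t3 : |∑ n ∈ Finset.range N, (∑ p ∈ OP n, jc m p) *
        (Real.log ((n + 1 : ℕ) : ℝ) - Real.log n)| ≤ (Real.sqrt x + 1) + x * c := by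
      refine (Finset.abs_sum_le_sum_abs _ _).trans ((Finset.sum_le_sum t2).trans ?_)
      rw [Finset.sum_add_distrib, Finset.sum_const, Finset.card_range, nsmul_eq_mul]
      have h5 : ∑ n ∈ Finset.range N, (if (n : ℝ) < Real.sqrt x then (1 : ℝ) else 0) ≤ Real.sqrt x + 1 := by
        rw [← Finset.sum_filter, Finset.sum_const, nsmul_eq_mul, mul_one]
        have h6 : ((Finset.range N).filter (fun n : ℕ => (n : ℝ) < Real.sqrt x)).card ≤
            (Finset.range ⌈Real.sqrt x⌉₊).card := by
          refine Finset.card_le_card fun n hn => ?_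
          exact Finset.mem_range.2 (Nat.lt_ceil.2 (Finset.mem_filter.1 hn).2)
        rw [Finset.card_range] at h6
        have h7 : (((Finset.range N).filter (fun n : ℕ => (n : ℝ) < Real.sqrt x)).card : ℝ) ≤
            ((⌈Real.sqrt x⌉₊ : ℕ) : ℝ) := by exact_mod_cast h6
        have h8 := (Nat.ceil_lt_add_one (Real.sqrt_nonneg x)).le
        linarith
      have h9 : (N : ℝ) * c ≤ x * c := mul_le_mul_of_nonneg_right hNx hcpos.le
      linarith
    have t4 : x * c ≤ K * (x / Real.log x ^ A) := by
      have h5 : x * c = K * (x / Real.log x ^ (A + 1)) := by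
        rw [hc]
        ring
      rw [h5]
      exact mul_le_mul_of_nonneg_left hAA hKpos.le
    have t5 : Real.sqrt x ≤ C₂ * (x / Real.log x ^ A) := by
      have h5 : Real.log x ≤ x ^ (1 / (2 * A)) / (1 / (2 * A)) := Real.log_le_rpow_div hx0.le (by positivity)
      have h6 : Real.log x ^ A ≤ (x ^ (1 / (2 * A)) / (1 / (2 * A))) ^ A :=
        Real.rpow_le_rpow (by linarith) h5 hA.le
      have h7 : (x ^ (1 / (2 * A)) / (1 / (2 * A))) ^ A = C₂ * Real.sqrt x := by
        rw [div_div_eq_mul_div, div_one, Real.mul_rpow (by positivity) (by positivity), ← Real.rpow_mul hx0.le,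
          Real.sqrt_eq_rpow, hC₂, mul_comm]
        congr 2
        field_simp
      rw [h7] at h6
      have h8 : Real.sqrt x * Real.log x ^ A ≤ C₂ * x := by
        calc Real.sqrt x * Real.log x ^ A ≤ Real.sqrt x * (C₂ * Real.sqrt x) :=
              mul_le_mul_of_nonneg_left h6 (Real.sqrt_nonneg x)
          _ = C₂ * (Real.sqrt x * Real.sqrt x) := by ring
          _ = C₂ * x := by rw [Real.mul_self_sqrt hx0.le]
      rw [← mul_div_assoc, le_div_iff₀ hlogA]
      exact h8
    rw [Sww_abel]
    refine (abs_sub _ _).trans ?_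
    have t6 : Real.sqrt x + 1 ≤ 2 * Real.sqrt x := by linarith
    have e : (L₀ ^ (A + 1) + C₁ + K + 2 * C₂) * (x / Real.log x ^ A) = L₀ ^ (A + 1) * (x / Real.log x ^ A) +
        C₁ * (x / Real.log x ^ A) + K * (x / Real.log x ^ A) + 2 * (C₂ * (x / Real.log x ^ A)) := by ring
    rw [e]
    have t7 : 0 < L₀ ^ (A + 1) * (x / Real.log x ^ A) := mul_pos hL₀pos hbase
    linarith

end Pool.Agent.Lib.NagA
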