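import Pool.Agent.Lib.MP_60fb2a_nt.An.Spec

/-!
MP_60fb2a_nt, module The: the prime number theorem for `θ` (author helper86). Instead of Abel summation:
`(1 - ε) log X (π(X) - X^(1-ε)) ≤ θ(X) ≤ π(X) log X`, and
`(X - 2)/log X ≤ li X ≤ X^(1-ε)/log 2 + X/((1-ε) log X)`.
-/

set_option autoImplicit false

namespace Pool.Agent.Lib.NagA

open Polynomial Finset Classical

private theorem ii {a b : ℝ} (ha : 2 ≤ a) (hab : a ≤ b) :
    IntervalIntegrable (fun t : ℝ => (Real.log t)⁻¹) MeasureTheory.volume a b := by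
  refine ContinuousOn.intervalIntegrable ?_
  rw [Set.uIcc_of_le hab]
  refine ContinuousOn.inv₀ (Real.continuousOn_log.mono fun t ht => ?_) fun t ht => ?_
  · have : 2 ≤ t := ha.trans ht.1
    simp only [Set.mem_compl_iff, Set.mem_singleton_iff]
    linarith
  · have : 2 ≤ t := ha.trans ht.1
    exact (Real.log_pos (by linarith)).ne'

private theorem up {a b : ℝ} (ha : 2 ≤ a) (hab : a ≤ b) :
    ∫ t in a..b, (Real.log t)⁻¹ ≤ (b - a) * (Real.log a)⁻¹ := by
  have h1 : ∫ t in a..b, (Real.log t)⁻¹ ≤ ∫ _ in a..b, (Real.log a)⁻¹ := by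
    refine intervalIntegral.integral_mono_on hab (ii ha hab) intervalIntegrable_const fun t ht => ?_
    exact inv_anti₀ (Real.log_pos (by linarith)) (Real.log_le_log (by linarith) ht.1)
  rwa [intervalIntegral.integral_const, smul_eq_mul] at h1

private theorem lo {a b : ℝ} (ha : 2 ≤ a) (hab : a ≤ b) :
    (b - a) * (Real.log b)⁻¹ ≤ ∫ t in a..b, (Real.log t)⁻¹ := by
  have h1 : ∫ _ in a..b, (Real.log b)⁻¹ ≤ ∫ t in a..b, (Real.log t)⁻¹ := by
    refine intervalIntegral.integral_mono_on hab intervalIntegrable_const (ii ha hab) fun t ht => ?_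
    have : 2 ≤ t := ha.trans ht.1
    exact inv_anti₀ (Real.log_pos (by linarith)) (Real.log_le_log (by linarith) ht.2)
  rwa [intervalIntegral.integral_const, smul_eq_mul] at h1

private theorem main {X Y : ℝ} (hX : 3 ≤ X) (hY : 2 ≤ Y) (hYX : Y ≤ X) :
    ∑ p ∈ OP ⌊X⌋₊, Real.log p ≤ (((Icc 1 ⌊X⌋₊).filter Nat.Prime).card : ℝ) * Real.log X ∧
    ((((Icc 1 ⌊X⌋₊).filter Nat.Prime).card : ℝ) - Y) * Real.log Y ≤ ∑ p ∈ OP ⌊X⌋₊, Real.log p := by
  have hX0 : 0 ≤ X := by linarith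
  obtain ⟨P, hP⟩ : ∃ P, P = (Icc 1 ⌊X⌋₊).filter Nat.Prime := ⟨_, rfl⟩
  rw [← hP]
  have hsub : OP ⌊X⌋₊ ⊆ P := by
    intro p hp
    unfold OP at hp
    rw [Finset.mem_filter, Finset.mem_range] at hp
    rw [hP, Finset.mem_filter, Finset.mem_Icc]
    exact ⟨⟨hp.2.1.one_lt.le, by omega⟩, hp.2.1⟩
  have hpX : ∀ p ∈ P, (p : ℝ) ≤ X ∧ 1 < p := by
    intro p hp
    rw [hP, Finset.mem_filter, Finset.mem_Icc] at hp
    exact ⟨(Nat.le_floor_iff hX0).1 hp.1.2, hp.2.one_lt⟩
  constructor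
  · calc ∑ p ∈ OP ⌊X⌋₊, Real.log p ≤ ∑ p ∈ P, Real.log p :=
          Finset.sum_le_sum_of_subset_of_nonneg hsub fun p _ _ => Real.log_natCast_nonneg p
      _ ≤ ∑ _ ∈ P, Real.log X := Finset.sum_le_sum fun p hp =>
          Real.log_le_log (by exact_mod_cast (lt_trans one_pos (hpX p hp).2)) (hpX p hp).1
      _ = (P.card : ℝ) * Real.log X := by rw [Finset.sum_const, nsmul_eq_mul]
  · obtain ⟨Q, hQ⟩ : ∃ Q, Q = P.filter (fun p : ℕ => Y < p) := ⟨_, rfl⟩
    have hQO : Q ⊆ OP ⌊X⌋₊ := by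
      intro p hp
      rw [hQ, Finset.mem_filter, hP, Finset.mem_filter, Finset.mem_Icc] at hp
      unfold OP
      rw [Finset.mem_filter, Finset.mem_range]
      refine ⟨by omega, hp.1.2, ?_⟩
      rintro rfl
      have := hp.2
      push_cast at this
      linarith
    have hcard : (P.card : ℝ) - Y ≤ Q.card := by
      have h1 : P.card ≤ Q.card + ⌊Y⌋₊ := by
        have h2 : P ⊆ Q ∪ Icc 1 ⌊Y⌋₊ := by
          intro p hp
          rw [Finset.mem_union]
          by_cases h : Y < p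
          · left
            rw [hQ, Finset.mem_filter]
            exact ⟨hp, h⟩
          · right
            rw [Finset.mem_Icc]
            exact ⟨(hpX p hp).2.le, Nat.le_floor (not_lt.1 h)⟩
        have h3 := (Finset.card_le_card h2).trans (Finset.card_union_le _ _)
        rwa [Nat.card_Icc, Nat.add_sub_cancel] at h3
      have h2 : ((⌊Y⌋₊ : ℕ) : ℝ) ≤ Y := Nat.floor_le (by linarith)
      have h3 : (P.card : ℝ) ≤ Q.card + (⌊Y⌋₊ : ℕ) := by exact_mod_cast h1
      linarith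
    have hlY : 0 ≤ Real.log Y := Real.log_nonneg (by linarith)
    calc ((P.card : ℝ) - Y) * Real.log Y ≤ (Q.card : ℝ) * Real.log Y :=
          mul_le_mul_of_nonneg_right hcard hlY
      _ = ∑ _ ∈ Q, Real.log Y := by rw [Finset.sum_const, nsmul_eq_mul]
      _ ≤ ∑ p ∈ Q, Real.log p := Finset.sum_le_sum fun p hp => by
          rw [hQ, Finset.mem_filter] at hp
          exact Real.log_le_log (by linarith) hp.2.le
      _ ≤ ∑ p ∈ OP ⌊X⌋₊, Real.log p :=
          Finset.sum_le_sum_of_subset_of_nonneg hQO fun p _ _ => Real.log_natCast_nonneg p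

theorem tThe (h1 : PntH) : TheStmt := by
  intro κ hκ
  obtain ⟨C, hC, hP⟩ := h1 2 (by norm_num)
  obtain ⟨ε, hε⟩ : ∃ ε, ε = min (1 / 2) (κ / 4) := ⟨_, rfl⟩
  have he0 : 0 < ε := by rw [hε]; positivity
  have he1 : ε ≤ 1 / 2 := by rw [hε]; exact min_le_left _ _
  have he2 : ε ≤ κ / 4 := by rw [hε]; exact min_le_right _ _
  obtain ⟨η, hη⟩ : ∃ η, η = κ / 6 := ⟨_, rfl⟩
  have hη0 : 0 < η := by rw [hη]; positivity
  have e1 : ∀ᶠ X : ℝ in Filter.atTop, Real.log X ≤ η * X ^ ε := by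
    have h2 := (isLittleO_log_rpow_atTop he0).bound hη0
    filter_upwards [h2, Filter.eventually_ge_atTop 1] with X h3 h4
    have h5 : 0 ≤ X ^ ε := Real.rpow_nonneg (by linarith) _
    rw [Real.norm_eq_abs, Real.norm_eq_abs, abs_of_nonneg h5] at h3
    exact (le_abs_self _).trans h3
  have e2 : ∀ᶠ X : ℝ in Filter.atTop, C / η ≤ Real.log X :=
    Real.tendsto_log_atTop.eventually_ge_atTop _
  have e3 : ∀ᶠ X : ℝ in Filter.atTop, 2 ≤ X ^ (1 - ε) :=
    (tendsto_rpow_atTop (by linarith)).eventually_ge_atTop _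
  have e4 : ∀ᶠ X : ℝ in Filter.atTop, 2 / η ≤ X := Filter.eventually_ge_atTop _
  obtain ⟨X₀, hX₀⟩ := Filter.eventually_atTop.1
    (e1.and (e2.and (e3.and (e4.and (Filter.eventually_ge_atTop (3 : ℝ))))))
  refine ⟨X₀, fun X hX => ?_⟩
  obtain ⟨a1, a2, a3, a4, a5⟩ := hX₀ X hX
  have hX0 : 0 < X := by linarith
  obtain ⟨Y, hY⟩ : ∃ Y, Y = X ^ (1 - ε) := ⟨_, rfl⟩
  rw [← hY] at a3
  have hYX : Y ≤ X := by
    rw [hY]
    calc X ^ (1 - ε) ≤ X ^ (1 : ℝ) := Real.rpow_le_rpow_of_exponent_le (by linarith) (by linarith)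
      _ = X := Real.rpow_one X
  have hlX : 0 < Real.log X := Real.log_pos (by linarith)
  have hlY : Real.log Y = (1 - ε) * Real.log X := by rw [hY, Real.log_rpow hX0]
  have hYl : Y * Real.log X ≤ η * X := by
    have h2 : Y * X ^ ε = X := by
      rw [hY, ← Real.rpow_add hX0]
      have : 1 - ε + ε = 1 := by ring
      rw [this, Real.rpow_one]
    calc Y * Real.log X ≤ Y * (η * X ^ ε) := mul_le_mul_of_nonneg_left a1 (by linarith)
      _ = η * (Y * X ^ ε) := by ring
      _ = η * X := by rw [h2]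
  obtain ⟨m1, m2⟩ := main a5 a3 hYX
  have hPX := hP X a5
  rw [Real.rpow_two] at hPX
  generalize (((Icc 1 ⌊X⌋₊).filter Nat.Prime).card : ℝ) = π at *
  generalize ∑ p ∈ OP ⌊X⌋₊, Real.log p = θ at *
  obtain ⟨b1, b2⟩ := abs_le.1 hPX
  have hCl : C * (X / Real.log X ^ 2) * Real.log X ≤ η * X := by
    have h2 : C ≤ η * Real.log X := by
      rw [div_le_iff₀ hη0] at a2
      linarith
    have h3 : C * (X / Real.log X ^ 2) * Real.log X = C * X / Real.log X := by
      field_simp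
    rw [h3, div_le_iff₀ hlX]
    nlinarith
  have h2X : 2 ≤ η * X := by
    rw [div_le_iff₀ hη0] at a4
    linarith
  -- the integral
  have l1 : X - 2 ≤ (∫ t in (2 : ℝ)..X, (Real.log t)⁻¹) * Real.log X := by
    have h2 := lo (le_refl (2 : ℝ)) (by linarith : (2 : ℝ) ≤ X)
    calc X - 2 = (X - 2) * (Real.log X)⁻¹ * Real.log X := by field_simp
      _ ≤ _ := mul_le_mul_of_nonneg_right h2 hlX.le
  have l2 : (∫ t in (2 : ℝ)..X, (Real.log t)⁻¹) * Real.log X ≤ 2 * (η * X) + (1 + 2 * ε) * X := by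
    have h2 := up (le_refl (2 : ℝ)) a3
    have h3 := up a3 hYX
    have h4 := intervalIntegral.integral_add_adjacent_intervals (ii (le_refl (2 : ℝ)) a3) (ii a3 hYX)
    rw [← h4, add_mul]
    refine add_le_add ?_ ?_
    · have h5 : (Real.log 2)⁻¹ ≤ 2 := by
        have h6 := Real.log_two_gt_d9
        rw [inv_le_comm₀ (by linarith) (by norm_num)]
        linarith
      calc (∫ t in (2 : ℝ)..Y, (Real.log t)⁻¹) * Real.log X
          ≤ ((Y - 2) * (Real.log 2)⁻¹) * Real.log X := mul_le_mul_of_nonneg_right h2 hlX.le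
        _ ≤ (Y * 2) * Real.log X := by
            refine mul_le_mul_of_nonneg_right ?_ hlX.le
            refine mul_le_mul (by linarith) h5 ?_ (by linarith)
            exact inv_nonneg.2 (Real.log_nonneg (by norm_num))
        _ ≤ 2 * (η * X) := by linarith
    · calc (∫ t in Y..X, (Real.log t)⁻¹) * Real.log X
          ≤ ((X - Y) * (Real.log Y)⁻¹) * Real.log X := mul_le_mul_of_nonneg_right h3 hlX.le
        _ = (X - Y) * (1 - ε)⁻¹ := by
            rw [hlY, mul_inv]
            field_simp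
        _ ≤ X * (1 + 2 * ε) := by
            refine mul_le_mul (by linarith) ?_ (inv_nonneg.2 (by linarith)) hX0.le
            rw [inv_le_comm₀ (by linarith) (by linarith), inv_le_comm₀ (by linarith) (by linarith)]
            rw [inv_eq_one_div, div_le_iff₀ (by linarith)]
            nlinarith
        _ = (1 + 2 * ε) * X := mul_comm _ _
  generalize (∫ t in (2 : ℝ)..X, (Real.log t)⁻¹) = I at *
  have c1 : ε * X ≤ κ / 4 * X := mul_le_mul_of_nonneg_right he2 hX0.le
  have c2 : 0 ≤ ε * (η * X) := by positivity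
  have c3 : 3 * (η * X) = κ / 2 * X := by rw [hη]; ring
  have c4 : (π - I) * Real.log X ≤ C * (X / Real.log X ^ 2) * Real.log X :=
    mul_le_mul_of_nonneg_right b2 hlX.le
  have c5 : -(C * (X / Real.log X ^ 2)) * Real.log X ≤ (π - I) * Real.log X :=
    mul_le_mul_of_nonneg_right b1 hlX.le
  rw [sub_mul] at c4 c5
  rw [neg_mul] at c5
  rw [abs_le]
  constructor
  · -- lower bound
    have h3 : (1 - ε) * ((π - Y) * Real.log X) ≤ θ := by
      rw [hlY] at m2
      linarith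
    have h4 : X - 3 * (η * X) ≤ (π - Y) * Real.log X := by
      rw [sub_mul]
      linarith
    have h5 : (1 - ε) * (X - 3 * (η * X)) ≤ (1 - ε) * ((π - Y) * Real.log X) :=
      mul_le_mul_of_nonneg_left h4 (by linarith)
    have h8 : (1 - ε) * (X - 3 * (η * X)) = X - 3 * (η * X) - ε * X + 3 * (ε * (η * X)) := by ring
    have h9 : 0 ≤ κ / 4 * X := by positivity
    linarith
  · have h8 : (1 + 2 * ε) * X = X + 2 * (ε * X) := by ring
    linarith

end Pool.Agent.Lib.NagA
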