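import Pool.Agent.Lib.MP_60fb2a_nt.An.SpecL
import Pool.Agent.Lib.MP_60fb2a_nt.An.One

set_option autoImplicit false

namespace Pool.Agent.Lib.NagA

open Polynomial Finset Classical

theorem tThr (hF : LfxStmt) (hN : NlsStmt) : ThrStmt := by
  intro A B hC ε δ hε hδ hδ1
  obtain ⟨C, hC⟩ := hC
  have hBd : Bd (Av A B) (max C 1) := fun p hp => le_trans (hC p hp) (le_max_left _ _)
  obtain ⟨η, hη, N₀, H⟩ := hF (max C 1) (ε / 2) δ (by positivity) (by positivity) hδ hδ1
  obtain ⟨d₁, hd₁⟩ := exists_nat_ge (Real.exp (max 1 (8 / ε)))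
  refine One_gen _ _ d₁ ?_ η hη N₀ (fun N hN' => H N hN' (Av A B) hBd)
  rintro d hd ⟨X, hX, hX2⟩
  refine ⟨X, hX, ?_⟩
  have h0 : Real.exp (max 1 (8 / ε)) ≤ X := le_trans hd₁ (le_trans hd hX.1)
  have hX0 : 0 < X := lt_of_lt_of_le (Real.exp_pos _) h0
  have h1 : max 1 (8 / ε) ≤ Real.log X := by
    rw [Real.le_log_iff_exp_le hX0]
    exact h0
  have h2 : 1 ≤ Real.log X := le_trans (le_max_left _ _) h1
  have h5 : 8 / ε ≤ Real.log X := le_trans (le_max_right _ _) h1
  have h4 : 1 < X := by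
    have h3 : Real.exp 1 ≤ X := le_trans (Real.exp_le_exp.2 (le_max_left _ _)) h0
    have := Real.add_one_le_exp (1 : ℝ)
    linarith
  have h6 : 4 / Real.log X ≤ ε / 2 := by
    rw [div_le_iff₀ (by linarith)]
    rw [div_le_iff₀ hε] at h5
    linarith
  have h7 := hN A B d X h4
  have h8 : |NL (twA d A) (twB d B) X| ≤ |NL (twA d A) (twB d B) X + SL (Av A B) d X| +
      |SL (Av A B) d X| := by
    have := abs_sub (NL (twA d A) (twB d B) X + SL (Av A B) d X) (SL (Av A B) d X)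
    rw [add_sub_cancel_right] at this
    exact this
  linarith

end Pool.Agent.Lib.NagA
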