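import Pool.Agent.Lib.MP_60fb2a_nt.An.Spec

set_option autoImplicit false

namespace Pool.Agent.Lib.NagA

open Polynomial Finset Classical

theorem tTwo (hB : BesStmt) (hN : NssStmt) : TwoStmt := by
  intro A B C hC S hS κ hκ
  have hC0 : 0 ≤ C := le_trans (abs_nonneg _) (hC 2 Nat.prime_two)
  obtain ⟨t, ht0, ht1⟩ : ∃ t : ℝ, 0 < t ∧ (C + t) ^ 2 ≤ C ^ 2 + κ / 3 := by
    refine ⟨min 1 (κ / (3 * (2 * C + 1))), lt_min one_pos (by positivity), ?_⟩
    set t := min 1 (κ / (3 * (2 * C + 1))) with ht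
    have h1 : t ≤ 1 := min_le_left _ _
    have h2 : t ≤ κ / (3 * (2 * C + 1)) := min_le_right _ _
    have h3 : 0 < t := lt_min one_pos (by positivity)
    rw [le_div_iff₀ (by positivity)] at h2
    nlinarith
  obtain ⟨X₁, h1⟩ := hB (C + t) (by linarith) S hS (κ / 3) (by positivity)
  have hBd : Bd (Av A B) (C + t) := fun p hp => le_trans (hC p hp) (by linarith)
  set M : ℝ := C ^ 2 + 2 * κ / 3 with hM
  have hM0 : 0 ≤ M := by positivity
  set L : ℝ := 8 * (M + 1) + 16 with hL
  have hL0 : 0 ≤ L := by positivity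
  refine ⟨max X₁ (max 1 ((S.card : ℝ) * L * 3 / κ)), fun X hX => ?_⟩
  have hX1 : X₁ ≤ X := le_trans (le_max_left _ _) hX
  have hX2 : 1 ≤ X := le_trans (le_trans (le_max_left _ _) (le_max_right _ _)) hX
  have hX3 : (S.card : ℝ) * L * 3 / κ ≤ X := le_trans (le_trans (le_max_right _ _) (le_max_right _ _)) hX
  have hX0 : 0 < X := by linarith
  have h2 : ∑ d ∈ S, SX (Av A B) d X ^ 2 ≤ M := by
    have := h1 (Av A B) hBd X hX1
    rw [hM]
    linarith
  have h3 : ∀ d ∈ S, NS (twA d A) (twB d B) X ^ 2 ≤ SX (Av A B) d X ^ 2 + L / X := by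
    intro d hd
    have h4 : SX (Av A B) d X ^ 2 ≤ M :=
      le_trans (Finset.single_le_sum (f := fun d => SX (Av A B) d X ^ 2) (fun i _ => sq_nonneg _) hd) h2
    have h5 : |SX (Av A B) d X| ≤ M + 1 := by
      by_contra h
      rw [not_le] at h
      have h6 : (M + 1) ^ 2 < |SX (Av A B) d X| ^ 2 := by
        exact pow_lt_pow_left₀ h (by linarith) (by norm_num)
      rw [sq_abs] at h6
      nlinarith
    have h7 : |NS (twA d A) (twB d B) X| ≤ |SX (Av A B) d X| + 4 / X := by
      have h8 := hN A B d X hX2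
      have := abs_sub (NS (twA d A) (twB d B) X + SX (Av A B) d X) (SX (Av A B) d X)
      rw [add_sub_cancel_right] at this
      linarith
    have h9 : 1 / X ≤ 1 := by
      rw [div_le_one hX0]
      exact hX2
    have h10 : 0 < 1 / X := by positivity
    calc NS (twA d A) (twB d B) X ^ 2 = |NS (twA d A) (twB d B) X| ^ 2 := (sq_abs _).symm
      _ ≤ (|SX (Av A B) d X| + 4 / X) ^ 2 := pow_le_pow_left₀ (abs_nonneg _) h7 2
      _ = |SX (Av A B) d X| ^ 2 + (8 * |SX (Av A B) d X| + 16 * (1 / X)) * (1 / X) := by ring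
      _ ≤ |SX (Av A B) d X| ^ 2 + L * (1 / X) := by
          have : 8 * |SX (Av A B) d X| + 16 * (1 / X) ≤ L := by
            rw [hL]
            linarith
          have := mul_le_mul_of_nonneg_right this h10.le
          linarith
      _ = SX (Av A B) d X ^ 2 + L / X := by
          rw [sq_abs]
          ring
  calc ∑ d ∈ S, NS (twA d A) (twB d B) X ^ 2 ≤ ∑ d ∈ S, (SX (Av A B) d X ^ 2 + L / X) :=
        Finset.sum_le_sum h3
    _ = ∑ d ∈ S, SX (Av A B) d X ^ 2 + (S.card : ℝ) * (L / X) := by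
        rw [Finset.sum_add_distrib, Finset.sum_const, nsmul_eq_mul]
    _ ≤ M + κ / 3 := by
        have h4 : (S.card : ℝ) * (L / X) ≤ κ / 3 := by
          rw [div_le_iff₀ hκ] at hX3
          rw [← mul_div_assoc, div_le_iff₀ hX0]
          linarith
        linarith
    _ = C ^ 2 + κ := by
        rw [hM]
        ring

end Pool.Agent.Lib.NagA
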