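import Pool.Agent.Lib.MP_60fb2a_nt.An.Nss

/-!
# The averages of a quadratic twist (MP_60fb2a_nt)
-/

set_option autoImplicit false

namespace Pool.Agent.Lib.NagA

open Polynomial Finset Classical

/-- Sums over `range p` and over `ZMod p`. -/
theorem Tws_sum {R : Type*} [AddCommMonoid R] (p : ℕ) [NeZero p] (g : ZMod p → R) :
    ∑ t ∈ range p, g (t : ZMod p) = ∑ t : ZMod p, g t := by
  refine Finset.sum_bij (fun t _ => (t : ZMod p)) (fun _ _ => mem_univ _) ?_ ?_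
    (fun _ _ => rfl)
  · intro x hx y hy h
    rw [ZMod.natCast_eq_natCast_iff'] at h
    rwa [Nat.mod_eq_of_lt (mem_range.1 hx), Nat.mod_eq_of_lt (mem_range.1 hy)] at h
  · intro z _
    exact ⟨z.val, mem_range.2 z.val_lt, ZMod.natCast_zmod_val z⟩

/-- Number of square roots. -/
theorem Tws_sqrts (p : ℕ) [Fact p.Prime] (hp : p ≠ 2) (c : ZMod p) :
    ∑ y : ZMod p, (if y ^ 2 = c then (1 : ℤ) else 0) = quadraticChar (ZMod p) c + 1 := by
  have hF : ringChar (ZMod p) ≠ 2 := by rwa [ZMod.ringChar_zmod_n]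
  rw [← quadraticChar_card_sqrts hF c, Finset.sum_boole]
  congr 2
  ext y
  simp

/-- The cubic power of the quadratic character. -/
theorem Tws_cube (p : ℕ) [Fact p.Prime] (x : ZMod p) :
    quadraticChar (ZMod p) (x ^ 3) = quadraticChar (ZMod p) x := by
  rw [map_pow]
  by_cases hx : x = 0
  · subst hx
    simp
  · rcases quadraticChar_dichotomy hx with h | h <;> rw [h] <;> norm_num

/-- The sum over `x` for a twist by `d`. -/
theorem Tws_tw (p : ℕ) [Fact p.Prime] (hp : p ≠ 2) (a b d : ZMod p) :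
    ∑ x : ZMod p, quadraticChar (ZMod p) (x ^ 3 + d ^ 2 * a * x + d ^ 3 * b) =
      quadraticChar (ZMod p) d * ∑ u : ZMod p, quadraticChar (ZMod p) (u ^ 3 + a * u + b) := by
  by_cases hd : d = 0
  · subst hd
    have hF : ringChar (ZMod p) ≠ 2 := by rwa [ZMod.ringChar_zmod_n]
    have h1 : ∀ x : ZMod p, quadraticChar (ZMod p) (x ^ 3 + 0 ^ 2 * a * x + 0 ^ 3 * b) =
        quadraticChar (ZMod p) x := by
      intro x
      rw [← Tws_cube p x]
      congr 1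
      ring
    rw [Finset.sum_congr rfl fun x _ => h1 x, quadraticChar_sum_zero hF]
    simp
  · rw [← Equiv.sum_comp (Equiv.mulLeft₀ d hd) (fun x : ZMod p =>
      quadraticChar (ZMod p) (x ^ 3 + d ^ 2 * a * x + d ^ 3 * b)), Finset.mul_sum]
    refine Finset.sum_congr rfl fun u _ => ?_
    have h1 : (Equiv.mulLeft₀ d hd u) = d * u := rfl
    rw [h1, ← Tws_cube p d, ← map_mul]
    congr 1
    ring

/-- the character sum of the fibre over `t` -/
noncomputable def Tws_U (A B : ℤ[X]) (p : ℕ) [Fact p.Prime] (t : ℕ) : ℤ :=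
  ∑ x : ZMod p, quadraticChar (ZMod p) (x ^ 3 + ((A.eval (t : ℤ) : ℤ) : ZMod p) * x +
    ((B.eval (t : ℤ) : ℤ) : ZMod p))

theorem Tws_cnt (A B : ℤ[X]) (p : ℕ) [Fact p.Prime] (hp : p ≠ 2) (t : ℕ) :
    (Nss_cnt A B p t : ℤ) = p + Tws_U A B p t := by
  unfold Nss_cnt Tws_U
  have hp0 : NeZero p := ⟨(Fact.out : p.Prime).ne_zero⟩
  rw [Finset.card_filter, Finset.sum_product]
  push_cast
  have h1 : ∀ x y : ℕ, ((p : ℤ) ∣ (y : ℤ) ^ 2 -
      ((x : ℤ) ^ 3 + A.eval (t : ℤ) * (x : ℤ) + B.eval (t : ℤ))) ↔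
      (y : ZMod p) ^ 2 = (x : ZMod p) ^ 3 + ((A.eval (t : ℤ) : ℤ) : ZMod p) * x +
        ((B.eval (t : ℤ) : ℤ) : ZMod p) := by
    intro x y
    rw [← ZMod.intCast_zmod_eq_zero_iff_dvd]
    push_cast
    rw [sub_eq_zero]
  have h2 : ∀ x ∈ range p, (∑ y ∈ range p, (if ((p : ℤ) ∣ (y : ℤ) ^ 2 -
      ((x : ℤ) ^ 3 + A.eval (t : ℤ) * (x : ℤ) + B.eval (t : ℤ)))
      then (1 : ℤ) else 0)) =
      quadraticChar (ZMod p) ((x : ZMod p) ^ 3 + ((A.eval (t : ℤ) : ℤ) : ZMod p) * x +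
        ((B.eval (t : ℤ) : ℤ) : ZMod p)) + 1 := by
    intro x _
    rw [← Tws_sqrts p hp, ← Tws_sum p]
    exact Finset.sum_congr rfl fun y _ => if_congr (h1 x y) rfl rfl
  rw [Finset.sum_congr rfl h2, Tws_sum p (fun x : ZMod p =>
    quadraticChar (ZMod p) (x ^ 3 + ((A.eval (t : ℤ) : ℤ) : ZMod p) * x +
        ((B.eval (t : ℤ) : ℤ) : ZMod p)) + 1),
    Finset.sum_add_distrib]
  simp [add_comm]

theorem Tws_av (A B : ℤ[X]) (p : ℕ) [Fact p.Prime] (hp : p ≠ 2) :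
    Av A B p = -(1 / (p : ℝ)) * ((∑ t ∈ Finset.range p, Tws_U A B p t : ℤ) : ℝ) := by
  rw [Nss_av]
  have h : ∀ t ∈ Finset.range p, ((p : ℝ) - (Nss_cnt A B p t : ℝ)) = -((Tws_U A B p t : ℤ) : ℝ) := by
    intro t _
    have h := congrArg (fun z : ℤ => (z : ℝ)) (Tws_cnt A B p hp t)
    rw [Int.cast_natCast] at h
    rw [h]
    push_cast
    ring
  rw [Finset.sum_congr rfl h, Finset.sum_neg_distrib]
  push_cast
  ring

theorem tTws : TwsStmt := by
  intro A B d p hp hp2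
  have : Fact p.Prime := ⟨hp⟩
  rw [Tws_av _ _ p hp2, Tws_av _ _ p hp2]
  have h1 : ∀ t ∈ Finset.range p, Tws_U (twA d A) (twB d B) p t =
      quadraticChar (ZMod p) (d : ZMod p) * Tws_U A B p t := by
    intro t _
    unfold Tws_U twA twB
    rw [← Tws_tw p hp2]
    refine Finset.sum_congr rfl fun x _ => ?_
    simp only [eval_mul, eval_C]
    push_cast
    rfl
  rw [Finset.sum_congr rfl h1, ← Finset.mul_sum]
  have h2 : jc d p = ((quadraticChar (ZMod p) (d : ZMod p) : ℤ) : ℝ) := by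
    unfold jc
    rw [← jacobiSym.legendreSym.to_jacobiSym]
    rfl
  rw [h2]
  push_cast
  ring

end Pool.Agent.Lib.NagA
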