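import Pool.Agent.Lib.MP_60fb2a_nt.An.Spec

/-!
MP_60fb2a_nt, module Wbd: the Weil bound with any constant, for all odd primes (author helper86).
-/

set_option autoImplicit false

namespace Pool.Agent.Lib.NagA

open Polynomial Finset Classical

private theorem chi_abs {p : ℕ} [Fact p.Prime] (a : ZMod p) : |quadraticChar (ZMod p) a| ≤ 1 := by
  rcases quadraticChar_isQuadratic (ZMod p) a with h | h | h <;> rw [h] <;> norm_num

theorem tWbd (h1 : NcsStmt) (h2 : ChrH) : WbdStmt := by
  intro f hf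
  obtain ⟨N, hN, hNp⟩ := h1 f hf
  have hm : 1 ≤ f.natDegree := by
    by_contra hc
    have h3 : f.natDegree = 0 := by omega
    rw [Polynomial.natDegree_eq_zero] at h3
    obtain ⟨c, rfl⟩ := h3
    refine hf (c : ℚ) 1 ?_
    rw [Polynomial.map_C]
    simp
  have hf0 : f ≠ 0 := by
    rintro rfl
    simp at hm
  have hlc : f.leadingCoeff ≠ 0 := Polynomial.leadingCoeff_ne_zero.2 hf0
  let M : ℕ := N.natAbs + f.leadingCoeff.natAbs + 20 * f.natDegree + 16
  refine ⟨15 * f.natDegree + Real.sqrt M, by positivity, fun p hp hp2 => ?_⟩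
  have hsp : 0 ≤ Real.sqrt p := Real.sqrt_nonneg _
  by_cases hbad : p ≤ M
  · -- the trivial bound
    have h3 : |∑ y : ZMod p, quadraticChar (ZMod p) ((f.map (Int.castRingHom (ZMod p))).eval y)| ≤
        (p : ℤ) := by
      refine (Finset.abs_sum_le_sum_abs _ _).trans ?_
      refine (Finset.sum_le_card_nsmul _ _ 1 fun y _ => chi_abs _).trans ?_
      rw [Finset.card_univ, ZMod.card]
      simp
    have h4 : |((∑ y : ZMod p, quadraticChar (ZMod p)
        ((f.map (Int.castRingHom (ZMod p))).eval y) : ℤ) : ℝ)| ≤ p := by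
      rw [← Int.cast_abs]
      exact_mod_cast h3
    refine h4.trans ?_
    have h5 : (p : ℝ) = Real.sqrt p * Real.sqrt p := (Real.mul_self_sqrt (Nat.cast_nonneg p)).symm
    have h6 : Real.sqrt p ≤ Real.sqrt M := Real.sqrt_le_sqrt (by exact_mod_cast hbad)
    calc (p : ℝ) = Real.sqrt p * Real.sqrt p := h5
      _ ≤ Real.sqrt M * Real.sqrt p := mul_le_mul_of_nonneg_right h6 hsp
      _ ≤ (15 * f.natDegree + Real.sqrt M) * Real.sqrt p :=
          mul_le_mul_of_nonneg_right (le_add_of_nonneg_left (by positivity)) hsp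
  · -- the good primes
    have hM : M < p := not_le.1 hbad
    have hN' : ¬ (p : ℤ) ∣ N := by
      intro h
      have h3 := Nat.le_of_dvd (Int.natAbs_pos.2 hN) (Int.natCast_dvd.1 h)
      omega
    have hl' : ¬ (p : ℤ) ∣ f.leadingCoeff := by
      intro h
      have h3 := Nat.le_of_dvd (Int.natAbs_pos.2 hlc) (Int.natCast_dvd.1 h)
      omega
    have hlp : (Int.castRingHom (ZMod p)) f.leadingCoeff ≠ 0 := by
      rw [eq_intCast, Ne, ZMod.intCast_zmod_eq_zero_iff_dvd]
      exact hl'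
    obtain ⟨F, hF⟩ : ∃ F, F = f.map (Int.castRingHom (ZMod p)) := ⟨_, rfl⟩
    have hdeg : F.natDegree = f.natDegree := by
      rw [hF]
      exact Polynomial.natDegree_map_of_leadingCoeff_ne_zero _ hlp
    have hFl : F.leadingCoeff = (Int.castRingHom (ZMod p)) f.leadingCoeff := by
      rw [hF]
      exact Polynomial.leadingCoeff_map_of_leadingCoeff_ne_zero _ hlp
    obtain ⟨l, hl⟩ : ∃ l, l = F.leadingCoeff := ⟨_, rfl⟩
    have hl0 : l ≠ 0 := by rw [hl, hFl]; exact hlp
    have hfac : F = C l * (C l⁻¹ * F) := by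
      rw [← mul_assoc, ← Polynomial.C_mul, mul_inv_cancel₀ hl0, Polynomial.C_1, one_mul]
    have hmon : (C l⁻¹ * F).Monic := by
      rw [Polynomial.Monic, Polynomial.leadingCoeff_mul, Polynomial.leadingCoeff_C, ← hl,
        inv_mul_cancel₀ hl0]
    have hd1 : (C l⁻¹ * F).natDegree = f.natDegree := by
      rw [Polynomial.natDegree_C_mul (inv_ne_zero hl0), hdeg]
    have h3 := h2 p hp2 (C l⁻¹ * F) hmon (by rw [hd1]; exact hm) (fun x g h => by
      refine hNp p hp.out hN' (l * x) g ?_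
      rw [← hF, hfac, h, Polynomial.C_mul, mul_assoc]) (by rw [hd1]; omega) (by omega)
    rw [hd1] at h3
    have h4 : ∑ y : ZMod p, quadraticChar (ZMod p) (F.eval y) =
        quadraticChar (ZMod p) l * ∑ y : ZMod p, quadraticChar (ZMod p) ((C l⁻¹ * F).eval y) := by
      rw [Finset.mul_sum]
      refine Finset.sum_congr rfl fun y _ => ?_
      rw [← map_mul]
      congr 1
      conv_lhs => rw [hfac]
      rw [Polynomial.eval_mul, Polynomial.eval_C]
    have h5 : |∑ y : ZMod p, quadraticChar (ZMod p) (F.eval y)| ≤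
        ((15 * f.natDegree * Nat.sqrt p : ℕ) : ℤ) := by
      rw [h4, abs_mul]
      calc |quadraticChar (ZMod p) l| * |∑ y : ZMod p, quadraticChar (ZMod p) ((C l⁻¹ * F).eval y)|
          ≤ 1 * |∑ y : ZMod p, quadraticChar (ZMod p) ((C l⁻¹ * F).eval y)| :=
            mul_le_mul_of_nonneg_right (chi_abs l) (abs_nonneg _)
        _ ≤ _ := by rw [one_mul]; exact h3
    rw [← hF, ← Int.cast_abs]
    have h6 : ((|∑ y : ZMod p, quadraticChar (ZMod p) (F.eval y)| : ℤ) : ℝ) ≤
        (((15 * f.natDegree * Nat.sqrt p : ℕ) : ℤ) : ℝ) := Int.cast_le.2 h5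
    refine h6.trans ?_
    push_cast
    have h7 : ((Nat.sqrt p : ℕ) : ℝ) ≤ Real.sqrt p := Real.nat_sqrt_le_real_sqrt
    calc (15 * (f.natDegree : ℝ)) * (Nat.sqrt p : ℝ) ≤ (15 * f.natDegree) * Real.sqrt p :=
          mul_le_mul_of_nonneg_left h7 (by positivity)
      _ ≤ (15 * f.natDegree + Real.sqrt M) * Real.sqrt p :=
          mul_le_mul_of_nonneg_right (le_add_of_nonneg_right (Real.sqrt_nonneg _)) hsp

end Pool.Agent.Lib.NagA
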