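import Pool.Agent.Lib.MP_60fb2a_nt.Fin
import Pool.Agent.Lib.MP_60fb2a_nt.An.Bri
import Pool.Agent.Lib.MP_60fb2a_nt.An.Sch
import Pool.Agent.Lib.MP_60fb2a_nt.An.Nsq
import Pool.Agent.Lib.MP_60fb2a_nt.An.Per
import Pool.Agent.Lib.MP_60fb2a_nt.An.Sqf
import Pool.Agent.Lib.MP_60fb2a_nt.An.Lsq
import Pool.Agent.Lib.MP_60fb2a_nt.An.Mom
import Pool.Agent.Lib.MP_60fb2a_nt.An.Chb
import Pool.Agent.Lib.MP_60fb2a_nt.An.Rga
import Pool.Agent.Lib.MP_60fb2a_nt.An.Rgb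
import Pool.Agent.Lib.MP_60fb2a_nt.An.Prc
import Pool.Agent.Lib.MP_60fb2a_nt.An.Swa
import Pool.Agent.Lib.MP_60fb2a_nt.An.Sww
import Pool.Agent.Lib.MP_60fb2a_nt.An.The
import Pool.Agent.Lib.MP_60fb2a_nt.An.Rgc
import Pool.Agent.Lib.MP_60fb2a_nt.An.Bes
import Pool.Agent.Lib.MP_60fb2a_nt.An.Lip
import Pool.Agent.Lib.MP_60fb2a_nt.An.Cnt
import Pool.Agent.Lib.MP_60fb2a_nt.An.Fix
import Pool.Agent.Lib.MP_60fb2a_nt.An.Tws
import Pool.Agent.Lib.MP_60fb2a_nt.An.Nss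
import Pool.Agent.Lib.MP_60fb2a_nt.An.One
import Pool.Agent.Lib.MP_60fb2a_nt.An.Two
import Pool.Agent.Lib.MP_60fb2a_nt.An.Ncs
import Pool.Agent.Lib.MP_60fb2a_nt.An.Wbd
import Pool.Agent.Lib.MP_60fb2a_nt.An.Fac
import Pool.Agent.Lib.MP_60fb2a_nt.An.Bdd
import Pool.Agent.Lib.MP_60fb2a_nt.An.Mrt
import Pool.Agent.Lib.MP_60fb2a_nt.An.Swl
import Pool.Agent.Lib.MP_60fb2a_nt.An.Lgc
import Pool.Agent.Lib.MP_60fb2a_nt.An.Lgl
import Pool.Agent.Lib.MP_60fb2a_nt.An.Lgt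
import Pool.Agent.Lib.MP_60fb2a_nt.An.Lab
import Pool.Agent.Lib.MP_60fb2a_nt.An.Llo
import Pool.Agent.Lib.MP_60fb2a_nt.An.Lfx
import Pool.Agent.Lib.MP_60fb2a_nt.An.Nls
import Pool.Agent.Lib.MP_60fb2a_nt.An.Thr

/-!
MP_60fb2a_nt, directory An: assembly.
-/

set_option autoImplicit false

namespace Pool.Agent.Lib.NagA

theorem aSch : SchStmt := tSch
theorem aNsq : NsqStmt := tNsq
theorem aPer : PerStmt := tPer aNsq
theorem aSqf : SqfStmt := tSqf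
theorem aLsq : LsqStmt := tLsq aSch aPer aSqf
theorem aMom : MomStmt := tMom
theorem aChb : ChbStmt := tChb
theorem aRga : RgaStmt := tRga aLsq aMom aChb
theorem aRgb : RgbStmt := tRgb aLsq aChb
theorem aPrc : PrcStmt := tPrc aNsq
theorem aSwa : SwaStmt := tSwa aPrc aSwH
theorem aSww : SwwStmt := tSww aSwa
theorem aThe : TheStmt := tThe aPntH
theorem aRgc : RgcStmt := tRgc aSch aSqf aChb aSww
theorem aBes : BesStmt := tBes aSch aSqf aSww aThe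
theorem aLip : LipStmt := tLip aChb aThe
theorem aCnt : CntStmt := tCnt aRga aRgb aRgc aLip
theorem aFix : FixStmt := tFix aCnt
theorem aTws : TwsStmt := tTws
theorem aNss : NssStmt := tNss aTws
theorem aOne : OneStmt := tOne aFix aNss
theorem aTwo : TwoStmt := tTwo aBes aNss
theorem aNcs : NcsStmt := tNcs
theorem aWbd : WbdStmt := tWbd aNcs aChrH
theorem aFac : FacStmt := tFac
theorem aBdd : BddStmt := tBdd aWbd aFac
theorem aMrt : MrtStmt := tMrt aChb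
theorem aSwl : SwlStmt := tSwl aSww aMrt
theorem aLgc : LgcStmt := tLgc aSch aSqf aMrt aSwl
theorem aLgl : LglStmt := tLgl aMrt
theorem aLgt : LgtStmt := tLgt aLgc aLgl
theorem aLab : LabStmt := tLab aChb
theorem aLlo : LloStmt := tLlo aCnt aLab
theorem aLfx : LfxStmt := tLfx aLlo aLgt
theorem aNls : NlsStmt := tNls aTws
theorem aThr : ThrStmt := tThr aLfx aNls
theorem aGen : GenStmt := tGen aOne aTwo aThr

end Pool.Agent.Lib.NagA
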