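import Pool.Agent.Lib.MP_60fb2a_nt.An.SpecL

set_option autoImplicit false

namespace Pool.Agent.Lib.NagA

open Polynomial Finset Classical

theorem tLgt (h1 : LgcStmt) (h2 : LglStmt) : LgtStmt := by
  intro C ε κ δ hC hε hκ hδ hδ1
  obtain ⟨K, D1, hK, hL⟩ := h1 C (ε / 2) κ hC (by positivity) hκ
  obtain ⟨h, X₀, hh, hh1, hX₀, hg⟩ := h2 C (ε / 2) hC (by positivity)
  have hlog : 0 < Real.log (1 + h) := Real.log_pos (by linarith)
  -- the large values of `D`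
  have t1 : ∀ᶠ D : ℕ in Filter.atTop, Real.log X₀ ≤ (D : ℝ) ^ κ :=
    ((tendsto_rpow_atTop hκ).comp tendsto_natCast_atTop_atTop).eventually_ge_atTop _
  have t2 : ∀ᶠ D : ℕ in Filter.atTop, K * (1 / Real.log (1 + h) + 1) ≤ (D : ℝ) ^ (δ / 2) :=
    ((tendsto_rpow_atTop (by positivity : (0 : ℝ) < δ / 2)).comp
      tendsto_natCast_atTop_atTop).eventually_ge_atTop _
  obtain ⟨D₀, hD₀⟩ := Filter.eventually_atTop.1 (t1.and (t2.and (Filter.eventually_ge_atTop (D1 + 1))))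
  refine ⟨D₀, fun D hD W hW => ?_⟩
  obtain ⟨a1, a2, a3⟩ := hD₀ D hD
  have hD1 : (1 : ℝ) ≤ D := by
    have : 1 ≤ D := by omega
    exact_mod_cast this
  have hD0 : (0 : ℝ) < D := by linarith
  have hDκ : (1 : ℝ) ≤ (D : ℝ) ^ κ := Real.one_le_rpow hD1 hκ.le
  have hDδ : (1 : ℝ) ≤ (D : ℝ) ^ (1 - δ) := Real.one_le_rpow hD1 (by linarith)
  obtain ⟨J, hJ⟩ : ∃ J : ℕ, J = ⌊(D : ℝ) ^ (1 - δ) / Real.log (1 + h)⌋₊ := ⟨_, rfl⟩
  let G : ℕ → ℝ := fun j => Real.exp ((D : ℝ) ^ κ * (1 + h) ^ j)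
  have hG0 : ∀ j, Real.exp ((D : ℝ) ^ κ) ≤ G j := by
    intro j
    apply Real.exp_le_exp.2
    have : (1 : ℝ) ≤ (1 + h) ^ j := one_le_pow₀ (by linarith)
    nlinarith
  have hsub : ((Sq D).filter (fun d => ∃ X : ℝ, Real.exp ((D : ℝ) ^ κ) ≤ X ∧
      X ≤ Real.exp (Real.exp ((D : ℝ) ^ (1 - δ))) ∧ ε < |SL W d X|)) ⊆
      (Finset.range (J + 1)).biUnion
        (fun j => (Sq D).filter (fun d => ε / 2 < |SL W d (G j)|)) := by
    intro d hd
    rw [Finset.mem_filter] at hd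
    obtain ⟨hdS, X, hX1, hX2, hX3⟩ := hd
    have hXpos : 0 < X := (Real.exp_pos _).trans_le hX1
    have l1 : (D : ℝ) ^ κ ≤ Real.log X := by
      rw [Real.le_log_iff_exp_le hXpos]
      exact hX1
    have l2 : Real.log X ≤ Real.exp ((D : ℝ) ^ (1 - δ)) := by
      rw [Real.log_le_iff_le_exp hXpos]
      exact hX2
    have hpos : 0 < (D : ℝ) ^ κ := by linarith
    have hq : 1 ≤ Real.log X / (D : ℝ) ^ κ := by
      rw [le_div_iff₀ hpos, one_mul]
      exact l1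
    obtain ⟨j, hj1, hj2⟩ := exists_nat_pow_near hq (by linarith : (1 : ℝ) < 1 + h)
    rw [le_div_iff₀ hpos] at hj1
    rw [div_lt_iff₀ hpos] at hj2
    have hjJ : j < J + 1 := by
      rw [Nat.lt_succ_iff, hJ]
      apply Nat.le_floor
      rw [le_div_iff₀ hlog]
      have h3 : (1 + h) ^ j ≤ Real.exp ((D : ℝ) ^ (1 - δ)) := by
        have h4 : (0 : ℝ) < (1 + h) ^ j := by positivity
        nlinarith
      have h5 := Real.log_le_log (by positivity) h3
      rw [Real.log_exp, Real.log_pow] at h5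
      exact h5
    have g1 : G j ≤ X := by
      change Real.exp _ ≤ X
      rw [← Real.le_log_iff_exp_le hXpos]
      linarith
    have g2 : X ≤ G j ^ (1 + h) := by
      change X ≤ Real.exp _ ^ (1 + h)
      rw [← Real.exp_mul, ← Real.log_le_iff_le_exp hXpos]
      have e : (D : ℝ) ^ κ * (1 + h) ^ j * (1 + h) = (1 + h) ^ (j + 1) * (D : ℝ) ^ κ := by ring
      rw [e]
      exact hj2.le
    have g3 : X₀ ≤ G j := by
      refine le_trans ?_ (hG0 j)
      rw [← Real.log_le_iff_le_exp (by linarith)]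
      exact a1
    have h6 := hg W hW d (G j) X g3 g1 g2
    rw [Finset.mem_biUnion]
    refine ⟨j, Finset.mem_range.2 hjJ, Finset.mem_filter.2 ⟨hdS, ?_⟩⟩
    have h7 := abs_sub_abs_le_abs_sub (SL W d X) (SL W d (G j))
    linarith
  have hcard : (((Sq D).filter (fun d => ∃ X : ℝ, Real.exp ((D : ℝ) ^ κ) ≤ X ∧
      X ≤ Real.exp (Real.exp ((D : ℝ) ^ (1 - δ))) ∧ ε < |SL W d X|)).card : ℝ) ≤ (J + 1) * K := by
    have c1 := (Finset.card_le_card hsub).trans Finset.card_biUnion_le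
    have c2 : (((∑ j ∈ Finset.range (J + 1),
        ((Sq D).filter (fun d => ε / 2 < |SL W d (G j)|)).card : ℕ)) : ℝ) ≤ (J + 1) * K := by
      push_cast
      have c3 : ∀ j ∈ Finset.range (J + 1),
          (((Sq D).filter (fun d => ε / 2 < |SL W d (G j)|)).card : ℝ) ≤ K := fun j _ =>
        hL D (by omega) W hW (G j) (hG0 j)
      have c4 := Finset.sum_le_sum c3
      rw [Finset.sum_const, Finset.card_range, nsmul_eq_mul] at c4
      push_cast at c4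
      exact c4
    exact le_trans (by exact_mod_cast c1) c2
  refine hcard.trans ?_
  have hJle : (J : ℝ) ≤ (D : ℝ) ^ (1 - δ) / Real.log (1 + h) := by
    rw [hJ]
    exact Nat.floor_le (by positivity)
  have e1 : (D : ℝ) ^ (1 - δ / 2) = (D : ℝ) ^ (1 - δ) * (D : ℝ) ^ (δ / 2) := by
    rw [← Real.rpow_add hD0]
    congr 1
    ring
  rw [e1]
  have e2 : ((J : ℝ) + 1) ≤ (D : ℝ) ^ (1 - δ) * (1 / Real.log (1 + h) + 1) := by
    have : (D : ℝ) ^ (1 - δ) * (1 / Real.log (1 + h) + 1) =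
        (D : ℝ) ^ (1 - δ) / Real.log (1 + h) + (D : ℝ) ^ (1 - δ) := by ring
    rw [this]
    linarith
  calc ((J : ℝ) + 1) * K ≤ (D : ℝ) ^ (1 - δ) * (1 / Real.log (1 + h) + 1) * K :=
        mul_le_mul_of_nonneg_right e2 hK.le
    _ = (D : ℝ) ^ (1 - δ) * (K * (1 / Real.log (1 + h) + 1)) := by ring
    _ ≤ (D : ℝ) ^ (1 - δ) * (D : ℝ) ^ (δ / 2) := mul_le_mul_of_nonneg_left a2 (by linarith)

end Pool.Agent.Lib.NagA
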