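import Pool.Agent.Lib.MP_60fb2a_nt.An.Spec

/-!
MP_60fb2a_nt, module Rgb: bad twists at middle scales.
-/

set_option autoImplicit false

namespace Pool.Agent.Lib.NagA

open Polynomial Finset Classical

private theorem Rgb_sub (N : ℕ) : OP N ⊆ Od N := by
  intro p hp
  obtain ⟨h1, h2, h3⟩ := mem_filter.1 hp
  have h4 := mem_range.1 h1
  refine mem_filter.2 ⟨mem_Icc.2 ⟨h2.one_lt.le, by omega⟩, ?_⟩
  exact (h2.eq_two_or_odd).resolve_left h3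

private theorem Rgb_T (W : ℕ → ℝ) (d : ℤ) {ε X : ℝ} (hX : 0 < X) (h : ε < |SX W d X|) :
    ε * X ≤ |∑ p ∈ OP ⌊X⌋₊, W p * Real.log p * jc d p| := by
  have h7 : SX W d X = (1 / X) * ∑ p ∈ OP ⌊X⌋₊, W p * Real.log p * jc d p := by
    unfold SX
    congr 1
    refine sum_congr rfl (fun p _ => ?_)
    ring
  rw [h7, abs_mul, abs_of_pos (by positivity), one_div, inv_mul_eq_div, lt_div_iff₀ hX] at h
  exact h.le

theorem tRgb (h1 : LsqStmt) (h2 : ChbStmt) : RgbStmt := by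
  intro C ε hC hε
  obtain ⟨R, hR⟩ : ∃ R : ℝ, R = 2 * C ^ 2 / ε ^ 2 := ⟨_, rfl⟩
  have hR0 : 0 < R := by rw [hR]; positivity
  have hR2 : 2 * C ^ 2 = R * ε ^ 2 := by
    rw [hR]
    field_simp
  refine ⟨2 * R, ⌈Real.exp (48 * R)⌉₊, by positivity, ?_⟩
  intro D hD W hW X hX
  have hDR : Real.exp (48 * R) ≤ D := (Nat.le_ceil _).trans (by exact_mod_cast hD)
  have hD0 : (0 : ℝ) < D := lt_of_lt_of_le (Real.exp_pos _) hDR
  have hD1 : (1 : ℝ) ≤ D := le_trans (Real.one_le_exp (by positivity)) hDR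
  have hX1 : 1 ≤ X := le_trans (one_le_pow₀ hD1) hX
  have hX0 : 0 < X := by linarith
  obtain ⟨x, hx⟩ : ∃ x : ℝ, x = Real.log X := ⟨_, rfl⟩
  have hlD : 48 * R ≤ Real.log D := by
    rw [← Real.log_exp (48 * R)]
    exact Real.log_le_log (Real.exp_pos _) hDR
  have hlx : 3 * Real.log D ≤ x := by
    have h4 := Real.log_le_log (by positivity) hX
    rw [Real.log_pow, ← hx] at h4
    exact_mod_cast h4
  have hx144 : 144 * R ≤ x := by linarith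
  have hx0 : 0 ≤ x := by linarith
  have hXe : X = Real.exp (x / 3) ^ 3 := by
    rw [← Real.exp_nat_mul, hx]
    push_cast
    rw [mul_div_cancel₀ _ (by norm_num), Real.exp_log hX0]
  have hDe : (D : ℝ) ≤ Real.exp (x / 3) := by
    rw [← Real.exp_log hD0]
    exact Real.exp_le_exp.2 (by linarith)
  have hex : 8 * R * x ≤ Real.exp (x / 3) := by
    have h4 := Real.quadratic_le_exp_of_nonneg (show 0 ≤ x / 3 by positivity)
    nlinarith
  have hkey : 4 * (D : ℝ) ^ 2 * (R * x) ≤ X / 2 := by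
    have h5 : (D : ℝ) ^ 2 ≤ Real.exp (x / 3) ^ 2 := pow_le_pow_left₀ hD0.le hDe 2
    calc 4 * (D : ℝ) ^ 2 * (R * x) ≤ 4 * Real.exp (x / 3) ^ 2 * (R * x) := by gcongr
      _ = Real.exp (x / 3) ^ 2 * (8 * R * x) / 2 := by ring
      _ ≤ Real.exp (x / 3) ^ 2 * Real.exp (x / 3) / 2 := by gcongr
      _ = X / 2 := by rw [hXe]; ring
  obtain ⟨B, hB⟩ : ∃ B, B = bad W D ε X := ⟨_, rfl⟩
  have hsub : B ⊆ Sq D := by
    rw [hB]
    exact filter_subset _ _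
  have hls := h1 B D ⌊X⌋₊ (fun n => if n ∈ OP ⌊X⌋₊ then W n * Real.log n else 0) hsub
  have hsum : ∀ d : ℤ, ∑ n ∈ Od ⌊X⌋₊, (if n ∈ OP ⌊X⌋₊ then W n * Real.log n else 0) * jc d n =
      ∑ p ∈ OP ⌊X⌋₊, W p * Real.log p * jc d p := by
    intro d
    rw [← sum_subset (Rgb_sub ⌊X⌋₊) (fun n _ hn => by rw [if_neg hn, zero_mul])]
    refine sum_congr rfl (fun p hp => ?_)
    rw [if_pos hp]
  have hsum2 : ∑ n ∈ Od ⌊X⌋₊, (if n ∈ OP ⌊X⌋₊ then W n * Real.log n else 0) ^ 2 =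
      ∑ p ∈ OP ⌊X⌋₊, (W p * Real.log p) ^ 2 := by
    rw [← sum_subset (Rgb_sub ⌊X⌋₊) (fun n _ hn => by rw [if_neg hn]; norm_num)]
    refine sum_congr rfl (fun p hp => ?_)
    rw [if_pos hp]
  simp only [hsum] at hls
  rw [hsum2] at hls
  have hlow : ∀ d ∈ B, (ε * X) ^ 2 ≤ (∑ p ∈ OP ⌊X⌋₊, W p * Real.log p * jc d p) ^ 2 := by
    intro d hd
    rw [hB] at hd
    rw [← sq_abs (∑ p ∈ OP ⌊X⌋₊, W p * Real.log p * jc d p)]
    exact pow_le_pow_left₀ (by positivity) (Rgb_T W d hX0 (mem_filter.1 hd).2) 2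
  have ha : ∑ p ∈ OP ⌊X⌋₊, (W p * Real.log p) ^ 2 ≤ R * ε ^ 2 * X * x := by
    have h5 := (h2 X hX1).2
    calc ∑ p ∈ OP ⌊X⌋₊, (W p * Real.log p) ^ 2 ≤ ∑ p ∈ OP ⌊X⌋₊, C ^ 2 * Real.log p ^ 2 := by
          refine sum_le_sum (fun p hp => ?_)
          rw [mul_pow]
          refine mul_le_mul_of_nonneg_right ?_ (sq_nonneg _)
          rw [← sq_abs]
          exact pow_le_pow_left₀ (abs_nonneg _) (hW p (mem_filter.1 hp).2.1) 2
      _ = C ^ 2 * ∑ p ∈ OP ⌊X⌋₊, Real.log p ^ 2 := by rw [mul_sum]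
      _ ≤ C ^ 2 * (2 * X * Real.log X) := mul_le_mul_of_nonneg_left h5 (sq_nonneg _)
      _ = (2 * C ^ 2) * (X * x) := by rw [hx]; ring
      _ = _ := by rw [hR2]; ring
  have hBn : (0 : ℝ) ≤ B.card := Nat.cast_nonneg _
  have hmain : (B.card : ℝ) * X * (ε ^ 2 * X) ≤
      (X + 4 * (D : ℝ) ^ 2 * B.card) * (R * x) * (ε ^ 2 * X) := by
    calc (B.card : ℝ) * X * (ε ^ 2 * X) = ∑ _d ∈ B, (ε * X) ^ 2 := by
          rw [sum_const, nsmul_eq_mul]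
          ring
      _ ≤ ∑ d ∈ B, (∑ p ∈ OP ⌊X⌋₊, W p * Real.log p * jc d p) ^ 2 := sum_le_sum hlow
      _ ≤ ((⌊X⌋₊ : ℝ) + 4 * (D : ℝ) ^ 2 * (B.card : ℝ)) *
          ∑ p ∈ OP ⌊X⌋₊, (W p * Real.log p) ^ 2 := hls
      _ ≤ (X + 4 * (D : ℝ) ^ 2 * B.card) * (R * ε ^ 2 * X * x) := by
          have h8 : (⌊X⌋₊ : ℝ) ≤ X := Nat.floor_le hX0.le
          have h7 : (0 : ℝ) ≤ X + 4 * (D : ℝ) ^ 2 * B.card :=
            add_nonneg hX0.le (mul_nonneg (mul_nonneg (by norm_num) (sq_nonneg _)) hBn)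
          refine mul_le_mul ?_ ha (sum_nonneg (fun _ _ => sq_nonneg _)) h7
          linarith
      _ = _ := by ring
  have hmain2 : (B.card : ℝ) * X ≤ (X + 4 * (D : ℝ) ^ 2 * B.card) * (R * x) :=
    le_of_mul_le_mul_right hmain (by positivity)
  have h9 : (B.card : ℝ) * X ≤ (2 * R * x) * X := by
    have h10 : (B.card : ℝ) * (4 * (D : ℝ) ^ 2 * (R * x)) ≤ B.card * (X / 2) :=
      mul_le_mul_of_nonneg_left hkey hBn
    have h11 : (X + 4 * (D : ℝ) ^ 2 * B.card) * (R * x) =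
        X * (R * x) + (B.card : ℝ) * (4 * (D : ℝ) ^ 2 * (R * x)) := by ring
    rw [h11] at hmain2
    linarith
  rw [← hB, ← hx]
  exact le_of_mul_le_mul_right h9 hX0

end Pool.Agent.Lib.NagA
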