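import Pool.Agent.Lib.MP_60fb2a_nt.Defs

/-!
MP_60fb2a_nt, directory An (architect helper13): the analytic part. Almost all quadratic twists `E_d` of an elliptic
curve over `ℚ(T)` with bounded fibral averages satisfy `|N_X(E_d)| ≤ ε` for all
`(log |d|)^5 ≤ X ≤ exp(|d|^(1-δ))`.

RULES. Module Xxx: file `Pool/Agent/Lib/MP_60fb2a_nt/An/Xxx.lean`, first line
`import Pool.Agent.Lib.MP_60fb2a_nt.An.Spec`, then `set_option autoImplicit false`,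
`namespace Pool.Agent.Lib.NagA`, `open Polynomial Finset Classical`; auxiliary names private or starting with `Xxx_`; final
theorem `theorem tXxx (h1 : AStmt) ... : XxxStmt`, the statements listed under Uses are hypotheses of your theorem,
in this order. The docstrings contain complete proofs. Never use congr!, no straight double quotes. Every module
below 90 s.

Notation: `J(d|n)` is the Jacobi symbol, `OP n` the odd primes `≤ n`, `Od N` the odd numbers in `[1, N]`,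
`Sq D` the squarefree integers `d`, `|d| ≤ D`.
-/

set_option autoImplicit false

namespace Pool.Agent.Lib.NagA

open Polynomial Finset Classical

/-- the odd primes `≤ n` -/
noncomputable def OP (n : ℕ) : Finset ℕ := (Finset.range (n + 1)).filter (fun p => p.Prime ∧ p ≠ 2)

/-- the odd numbers in `[1, N]` -/
noncomputable def Od (N : ℕ) : Finset ℕ := (Finset.Icc 1 N).filter (fun n => n % 2 = 1)

/-- the Jacobi symbol as a real number -/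
noncomputable def jc (d : ℤ) (n : ℕ) : ℝ := (jacobiSym d n : ℝ)

/-- the squarefree integers `d` with `|d| ≤ D` -/
noncomputable def Sq (D : ℕ) : Finset ℤ := (Finset.Icc (-(D : ℤ)) D).filter (fun d => Squarefree d)

/-- `|W p| ≤ C` for all primes `p` -/
def Bd (W : ℕ → ℝ) (C : ℝ) : Prop := ∀ p : ℕ, p.Prime → |W p| ≤ C

/-- the twisted average `(1/X) ∑_{2 < p ≤ X} W(p) J(d|p) log p` -/
noncomputable def SX (W : ℕ → ℝ) (d : ℤ) (X : ℝ) : ℝ :=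
  (1 / X) * ∑ p ∈ OP ⌊X⌋₊, W p * jc d p * Real.log p

/-- the bad `d` at the scale `X` -/
noncomputable def bad (W : ℕ → ℝ) (D : ℕ) (ε X : ℝ) : Finset ℤ := (Sq D).filter (fun d => ε < |SX W d X|)

/-- Siegel-Walfisz for primitive characters (a copy of `Pool.Agent.Lib.BV.SwStmt`, which is proved) -/
def SwH : Prop :=
  ∀ A B : ℝ, 0 < A → 0 < B → ∃ C : ℝ, 0 < C ∧ ∀ (x : ℝ) (q : ℕ) (χ : DirichletCharacter ℂ q),
    3 ≤ x → 2 ≤ q → (q : ℝ) ≤ (Real.log x) ^ B → χ.IsPrimitive →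
    ‖∑ p ∈ (Icc 1 ⌊x⌋₊).filter Nat.Prime, χ (p : ZMod q)‖ ≤ C * (x / (Real.log x) ^ A)

/-- the prime number theorem (a copy of `Pool.Agent.Lib.BV.PntStmt`, which is proved) -/
def PntH : Prop :=
  ∀ A : ℝ, 0 < A → ∃ C : ℝ, 0 < C ∧ ∀ x : ℝ, 3 ≤ x →
    |(((Icc 1 ⌊x⌋₊).filter Nat.Prime).card : ℝ) - ∫ t in (2 : ℝ)..x, (Real.log t)⁻¹| ≤
      C * (x / (Real.log x) ^ A)

/-- the Weil bound with a bad constant (the case of prime fields of `MP72e2e6.StmtPeChr`, which is proved) -/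
def ChrH : Prop :=
  ∀ (p : ℕ) [Fact p.Prime], p ≠ 2 → ∀ f : (ZMod p)[X], f.Monic → 1 ≤ f.natDegree →
    (∀ (x : ZMod p) (g : (ZMod p)[X]), f ≠ C x * g ^ 2) → 20 * f.natDegree < p → 16 ≤ p →
    |∑ y : ZMod p, quadraticChar (ZMod p) (f.eval y)| ≤ ((15 * f.natDegree * Nat.sqrt p : ℕ) : ℤ)

/-! ### Part 1. The large sieve -/

/-- Module Sch (duality; 80 lines). Uses: nothing.
Proof. `T_d = ∑_n b_n φ_d(n)`, `Q = ∑_{d ∈ S} T_d^2 = ∑_n b_n (∑_d T_d φ_d(n))`. Cauchy-Schwarz (Finset.sum_mul_sq_le_sq_mul_sq):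
`Q^2 ≤ (∑ b_n^2) ∑_n (∑_d T_d φ_d(n))^2`, and `∑_n (∑_d T_d φ_d(n))^2 = ∑_{d, d'} T_d T_{d'} ∑_n φ_d(n) φ_{d'}(n) ≤
M ∑ T_d^2 + E ∑_{d, d'} |T_d| |T_{d'}| = M Q + E (∑ |T_d|)^2 ≤ (M + E |S|) Q` (inner_mul_le_norm_mul_norm or
sq_sum_le_card_mul_sum_sq). If `Q = 0` the claim is clear (right side `≥ 0`), otherwise divide by `Q`. -/
def SchStmt : Prop := ∀ (ι κ : Type) (S : Finset ι) (T : Finset κ) (φ : ι → κ → ℝ) (b : κ → ℝ) (M E : ℝ),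
  0 ≤ M → 0 ≤ E → (∀ d ∈ S, ∑ n ∈ T, φ d n ^ 2 ≤ M) →
  (∀ d ∈ S, ∀ d' ∈ S, d ≠ d' → |∑ n ∈ T, φ d n * φ d' n| ≤ E) →
  ∑ d ∈ S, (∑ n ∈ T, b n * φ d n) ^ 2 ≤ (M + E * (S.card : ℝ)) * ∑ n ∈ T, b n ^ 2

/-- Module Nsq (a nonsquare is a nonresidue somewhere; 150 lines). Uses: nothing.
Proof. `m ≠ 0`. Write `m = s u k^2` with `k ≥ 1`, `s ∈ {1, -1, 2, -2}` and `u ≥ 1` odd squarefree (`|m| = r k^2` with `r`
squarefree, Nat.sq_mul_squarefree; `r = u` or `r = 2 u`); `s u ≠ 1` since `m` is no square. Case `u > 1`: let `q` be a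
prime divisor of `u`, `c` a nonresidue modulo `q` (`q` odd: quadraticChar_exists_neg_one or ZMod / legendreSym); by the
Chinese remainder theorem there is `n ≥ 1` with `n = 1` modulo `8 k' (u/q)` and `n = c` modulo `q`, where `k'` is
the part of `k` prime to `q` (`8 k' (u/q)` is prime to `q`). `n` is odd and prime to `m`; `J(s|n) = 1` as `n = 1` modulo `8` (jacobiSym.at_neg_one,
jacobiSym.at_two, `χ₄`, `χ₈`), `J(k^2|n) = 1` (jacobiSym.sq_one'), `J(u|n) = J(n|u)` (jacobiSym.quadratic_reciprocity_one_mod_four' ) `=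
J(n|u/q) J(n|q) = J(1|u/q) J(c|q) = -1` (jacobiSym.mul_right, jacobiSym.mod_left'). Case `u = 1`: `s ∈ {-1, 2, -2}`; let `k'` be
the odd part of `k` and `n ≥ 1` with `n = 1` modulo `k'` and `n = 3` modulo `8` (for `s = -1, 2`) or `n = 5` modulo `8` (for
`s = -2`); `J(s|n) = -1`, `J(k^2|n) = 1`. (Other proofs are welcome, for instance with Dirichlet's theorem on primes.) -/
def NsqStmt : Prop := ∀ m : ℤ, ¬ IsSquare m → ∃ n : ℕ, n % 2 = 1 ∧ jacobiSym m n = -1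

/-- Module Per (sums over intervals; 100 lines). Uses: Nsq.
Proof. `f(n) = J(m|n)` for odd `n`, `0` for even `n`. With `q = 4 |m|` (`m ≠ 0`) `f(n + q) = f(n)` for all `n ≥ 0` (jacobiSym.mod_right: for `n` odd
`J(m|n) = J(m | n % q)`; `q` is even). `f` is completely multiplicative on the positive numbers (jacobiSym.mul_right). Let `n₀` be the number of
NsqStmt, it is prime to `q` (odd; `J ≠ 0` so prime to `m`). Let `Σ` be the sum of `f` over one period, i.e. over `ZMod q` of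
`g(x) = f(x.val)` (`g(n : ZMod q) = f(n)` for every natural number `n`). Multiplication by the unit `n₀` permutes `ZMod q`, so `Σ = ∑_x g(n₀ x) = f(n₀) Σ =
-Σ`, `Σ = 0`. So the sum over `[1, N]` is the sum over at most `q` consecutive terms (Function.Periodic, Nat.div_add_mod; induction on the number of
periods), of absolute value at most `q = 4 |m|` (`|f| ≤ 1`). -/
def PerStmt : Prop := ∀ m : ℤ, ¬ IsSquare m → ∀ N : ℕ, |∑ n ∈ Od N, jc m n| ≤ 4 * |(m : ℝ)|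

/-- Module Sqf (30 lines). Uses: nothing.
Proof. Suppose `d d' = k^2`. Every prime `p` dividing `d` divides `k`, so `p^2 ∣ d d'`, and `p^2 ∤ d`, so `p ∣ d'`; as `d` is squarefree `d ∣ d'` (for instance via
`Squarefree.dvd_of_squarefree_of_mul_dvd_mul_...` or UniqueFactorizationMonoid: `d ∣ k` and `k^2 = d d'`; write `k = d e`, `d' = d e^2`, and `d'`
squarefree gives `e` a unit: `e^2 = 1`, `d' = d`). `d ∣ k`: `d ∣ k^2` and `d` squarefree (Squarefree.dvd_pow_iff_dvd). -/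
def SqfStmt : Prop := ∀ d d' : ℤ, Squarefree d → Squarefree d' → d ≠ d' → ¬ IsSquare (d * d')

/-- Module Lsq (large sieve for real characters; 60 lines). Uses: Sch, Per, Sqf.
Proof. SchStmt with `T = Od N`, `φ_d(n) = J(d|n)` (values `0, ±1`: `∑ φ^2 ≤ |Od N| ≤ N = M`),
`J(d|n) J(d'|n) = J(dd'|n)` (jacobiSym.mul_left), PerStmt with `m = d d'` (SqfStmt): `E = 4 D^2`. -/
def LsqStmt : Prop := ∀ (S : Finset ℤ) (D N : ℕ) (b : ℕ → ℝ), S ⊆ Sq D →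
  ∑ d ∈ S, (∑ n ∈ Od N, b n * jc d n) ^ 2 ≤ ((N : ℝ) + 4 * (D : ℝ) ^ 2 * (S.card : ℝ)) * ∑ n ∈ Od N, b n ^ 2

/-- Module Mom (powers of sums over primes; 180 lines). Uses: nothing.
Proof. `F = Fintype.piFinset (fun _ : Fin k => P)`; by Finset.prod_univ_sum (or Finset.sum_pow') `(∑_{p ∈ P} g p)^k = ∑_{f ∈ F} ∏_i g(f i)`. Put
`b n = ∑_{f ∈ F, ∏ f = n} ∏_i a(f i)`. For `f ∈ F` the number `∏_i f i` is odd, in `[1, Y^k]`, and `∏_i J(d|f i) = J(d|∏ f)` (jacobiSym.mul_right, Finset.prod_induction;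
all `f i ≠ 0`). Sorting by `n = ∏ f` (Finset.sum_fiberwise_of_maps_to) gives the first claim. Second claim: let `F_n` be the set of the
`f ∈ F` with `∏ f = n`. If `f, f' ∈ F_n` then the multisets of the values of `f` and `f'` are equal (both are the multiset of the prime
factors of `n`: Nat.primeFactorsList_unique / Multiset.map univ; List.ofFn, List.prod_ofFn and Nat.primeFactorsList_unique give
`(List.ofFn f).Perm (List.ofFn f')`), so `∏ a(f i) = ∏ a(f' i) =: α_n`. The number of the `f' ∈ F_n` is at most `k!`: `f' ↦ List.ofFn f'` is an injection of `F_n`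
into the permutations of the list `List.ofFn f` (List.mem_permutations, List.length_permutations, `toFinset.card ≤ length`). So
`b_n^2 = |F_n|^2 α_n^2 ≤ k! |F_n| α_n^2 = k! ∑_{f ∈ F_n} ∏ a(f i)^2`, and the sum over `n` is `k! (∑ a_p^2)^k`. -/
def MomStmt : Prop := ∀ (P : Finset ℕ) (Y : ℕ), (∀ p ∈ P, p.Prime ∧ p ≠ 2 ∧ p ≤ Y) → ∀ (a : ℕ → ℝ) (k : ℕ),
  ∃ b : ℕ → ℝ, (∀ d : ℤ, (∑ p ∈ P, a p * jc d p) ^ k = ∑ n ∈ Od (Y ^ k), b n * jc d n) ∧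
    ∑ n ∈ Od (Y ^ k), b n ^ 2 ≤ (k.factorial : ℝ) * (∑ p ∈ P, a p ^ 2) ^ k

/-- Module Chb (Chebyshev; 40 lines). Uses: nothing.
Proof. `∑_{p ∈ OP ⌊X⌋} log p ≤ θ(X) ≤ log 4 · X ≤ 2 X` (Chebyshev.theta_le_log4_mul_x; Chebyshev.theta is the sum over the primes in `Ioc 0 ⌊X⌋₊`; `log 4 ≤ 2`), and
`(log p)^2 ≤ log X log p`. -/
def ChbStmt : Prop := ∀ X : ℝ, 1 ≤ X → ∑ p ∈ OP ⌊X⌋₊, Real.log p ≤ 2 * X ∧
  ∑ p ∈ OP ⌊X⌋₊, Real.log p ^ 2 ≤ 2 * X * Real.log X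

/-- Module Rga (small scales; 250 lines). Uses: Lsq, Mom, Chb.
Proof. `D₀` large in terms of `C, ε`. `R = max 1 (2 C^2 / ε^2)`, `L = log D`, `L₂ = log L`. Let `B = bad W D ε X`, `Y = ⌊X⌋`, `P = OP Y`, `a_p = W_p log p`,
`T_d = ∑_{p ∈ P} a_p J(d|p) = X SX(d)`. Let `k ≥ 1` be the least natural number with `X^k ≥ D^3` (`X ≥ L^4 > 1`). For `d ∈ B`: `|T_d| > ε X`, so
`(T_d^k)^2 ≥ (ε X)^(2k)`. MomStmt and LsqStmt (`N = Y^k ≤ X^k`): `|B| (ε X)^(2k) ≤ (X^k + 4 D^2 |B|) k! (∑ a_p^2)^k`, `∑ a_p^2 ≤ C^2 2 X log X` (ChbStmt). Divide by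
`(ε^2 X)^k`: `|B| X^k ≤ (X^k + 4 D^2 |B|) F`, `F = k! (R log X)^k`. Now `X^(k-1) < D^3` (or `k = 1`), so `(k - 1) log X ≤ 3 L` and `k log X ≤ 3 L + log X ≤ 6 L`
(`X ≤ D^3`); `k! ≤ k^k` (Nat.factorial_le_pow), so `F ≤ (k R log X)^k ≤ (6 R L)^k`. As `log X ≥ 4 L₂`: `k ≤ 3 L/(4 L₂) + 1`, so
`log F ≤ (3 L/(4 L₂) + 1)(L₂ + log(6R)) = (3/4) L + (3/4) L log(6R)/L₂ + L₂ + log(6R) ≤ (13/16) L` for `D ≥ D₀` (`L₂ → ∞`, `L₂/L → 0`). So `F ≤ D^(13/16)`, and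
`4 D^2 F ≤ D^3/2 ≤ X^k/2` for `D ≥ D₀`. So `|B| X^k ≤ X^k F + |B| X^k/2`, `|B| ≤ 2 F ≤ 2 D^(13/16) ≤ D^(7/8)`. -/
def RgaStmt : Prop := ∀ C ε : ℝ, 0 < C → 0 < ε → ∃ D₀ : ℕ, ∀ D : ℕ, D₀ ≤ D → ∀ W : ℕ → ℝ, Bd W C →
  ∀ X : ℝ, Real.log D ^ 4 ≤ X → X ≤ (D : ℝ) ^ 3 → ((bad W D ε X).card : ℝ) ≤ (D : ℝ) ^ (7 / 8 : ℝ)

/-- Module Rgb (middle scales; 100 lines). Uses: Lsq, Chb.
Proof. `R = 2 C^2/ε^2`, `B = bad W D ε X`. LsqStmt with `N = ⌊X⌋₊`, `b_n = W_n log n` for `n ∈ OP N` and `0` otherwise (OP N ⊆ Od N): `|B| (ε X)^2 ≤ (X + 4 D^2 |B|) 2 C^2 X log X`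
(ChbStmt), i.e. `|B| X ≤ (X + 4 D^2 |B|) R log X`. `D^2 ≤ X^(2/3)` and `8 R log X ≤ X^(1/3)` for `X ≥ D^3`, `D ≥ D₀`, so `4 D^2 R log X ≤ X/2` and `|B| ≤ 2 R log X`. `K = 2 R`. -/
def RgbStmt : Prop := ∀ C ε : ℝ, 0 < C → 0 < ε → ∃ (K : ℝ) (D₀ : ℕ), 0 < K ∧ ∀ D : ℕ, D₀ ≤ D → ∀ W : ℕ → ℝ,
  Bd W C → ∀ X : ℝ, (D : ℝ) ^ 3 ≤ X → ((bad W D ε X).card : ℝ) ≤ K * Real.log X

/-! ### Part 2. Prime numbers in progressions -/

/-- Module Prc (the primitive character of a nonsquare; 200 lines). Uses: Nsq.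
Proof. `Q = 4 |m| > 0` (`m ≠ 0`). Define `f(x) = J(m | x.val)` for units `x` of `ZMod Q` and `0` for non-units. For natural `n` prime to `Q` (then odd):
`f(n) = J(m|n)` (jacobiSym.mod_right). `f` is multiplicative (jacobiSym.mul_right, for units choose representatives `x.val`, `y.val`, odd), `f(1) = 1`: a Dirichlet
character modulo `Q` with values in `ℂ` (MulChar; the construction of a MulChar from a monoid hom of the units: MulChar.ofUnitHom, or the structure directly). It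
is not trivial by NsqStmt (`n` is odd and prime to `m`, since `J ≠ 0`: jacobiSym.eq_zero_iff). Let `χ` be its primitive character
(DirichletCharacter.primitiveCharacter, primitiveCharacter_isPrimitive), `q` its conductor: `q ∣ Q` (conductor_dvd_level), `q ≠ 1` (otherwise `f = 1`:
DirichletCharacter.eq_one_iff_conductor_eq_one), `q ≠ 0`. For a prime `p ∤ 2m`: `χ(p) = f(p) = J(m|p)` (changeLevel of the primitive character is `f`:
DirichletCharacter.factorsThrough_conductor, changeLevel_eq_cast_of_dvd on units). -/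
def PrcStmt : Prop := ∀ m : ℤ, ¬ IsSquare m → ∃ (q : ℕ) (χ : DirichletCharacter ℂ q), 2 ≤ q ∧ q ∣ 4 * m.natAbs ∧
  χ.IsPrimitive ∧ ∀ p : ℕ, p.Prime → ¬ (p : ℤ) ∣ 2 * m → χ (p : ZMod q) = ((jacobiSym m p : ℤ) : ℂ)

/-- Module Swa (Siegel-Walfisz for real characters, unweighted; 150 lines). Uses: Prc, SwH.
Proof. SwH with `A` and `B' = B + 15` gives `C₁`. `q ≤ 4 |m| ≤ 4 (log x)^B ≤ (log x)^(B+15)` because `(log x)^15 ≥ (log 3)^15 ≥ 4` (`log 3 ≥ 1.098`;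
`1.098^15 > 4.06`; for instance from exp bounds: `Real.log_three` lower bound or `exp 1.098 ≤ 3`). `|∑_{p ≤ x} χ(p)| ≤ C₁ x/(log x)^A`. The
sums `∑_{p ≤ x} χ(p)` and `∑_{p ∈ OP} J(m|p)` differ only in the primes `p ∣ 2m`, at most `1 + log |m|/log 2 ≤ 2 + 2 B loglog x ≤ C₂ x/(log x)^A` of them
(the number of prime factors of `n` is at most `log₂ n`: Nat.card_primeFactors... or `2^ω ≤ n` ; or use the cruder bound: the number of prime factors of `m` is at most `|m| ≤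
(log x)^B`, and `(log x)^(A+B) ≤ C₂ x` for `x ≥ 3`, isLittleO_log_rpow_rpow_atTop or Real.log_le_rpow_div), each term of size at most `1`. -/
def SwaStmt : Prop := ∀ A B : ℝ, 0 < A → 0 < B → ∃ C : ℝ, 0 < C ∧ ∀ (x : ℝ) (m : ℤ), 3 ≤ x → ¬ IsSquare m →
  |(m : ℝ)| ≤ Real.log x ^ B → |∑ p ∈ OP ⌊x⌋₊, jc m p| ≤ C * (x / Real.log x ^ A)

/-- Module Sww (with the weights `log p`; 180 lines). Uses: Swa.
Proof. `F(y) = ∑_{p ∈ OP ⌊y⌋} J(m|p)`, `|F(y)| ≤ y`. Abel summation (discrete): with `N = ⌊x⌋₊`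
`∑_{p ∈ OP N} J(m|p) log p = F(N) log N - ∑_{n=1}^{N-1} F(n) (log(n+1) - log n)`, `0 ≤ log(n+1) - log n ≤ 1/n`. SwaStmt with `A + 1` and `B + 1`: let
`x ≥ x₀(B)` so that `2^B ≤ (log √x)`; for `√x ≤ n ≤ x`: `|m| ≤ (log x)^B ≤ (2 log n)^B ≤ (log n)^(B+1)`, so `|F(n)| ≤ C₁ n/(log n)^(A+1) ≤ C₁ 2^(A+1) n/(log x)^(A+1)`. The terms `n < √x` contribute
at most `√x`, the others at most `C₁ 2^(A+1) x/(log x)^(A+1)`, and `|F(N)| log N ≤ C₁ 2^(A+1) x/(log x)^A`. `√x ≤ C₂ x/(log x)^A`. For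
`3 ≤ x < x₀` the sum is at most `x₀ log x₀` and `x/(log x)^A` is bounded below by a positive constant. -/
def SwwStmt : Prop := ∀ A B : ℝ, 0 < A → 0 < B → ∃ C : ℝ, 0 < C ∧ ∀ (x : ℝ) (m : ℤ), 3 ≤ x → ¬ IsSquare m →
  |(m : ℝ)| ≤ Real.log x ^ B → |∑ p ∈ OP ⌊x⌋₊, jc m p * Real.log p| ≤ C * (x / Real.log x ^ A)

/-- Module The (prime number theorem for `θ`; 180 lines). Uses: PntH.
Proof. `P(n)` = number of the primes `≤ n`, `li x = ∫_2^x dt/log t`, `P(n) = li n + O(n/(log n)^2)` (PntH with `A = 2`). `θ(N) = P(N) log N - ∑_{n=2}^{N-1} P(n) (log(n+1) - log n)`. It is enough that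
`P(n) = n/log n + O(n/(log n)^2)` (integration by parts: `li x = x/log x - 2/log 2 + ∫_2^x dt/(log t)^2`, and the last integral is at most `√x/(log 2)^2 + 4 x/(log x)^2`, split at `√x`), then `P(N) log N = N + O(N/log N)` and
`∑_{n < N} P(n)/n ≤ C ∑_{2 ≤ n < N} 1/log n ≤ C' N/log N`. So `θ(N)/N → 1`, `θ(x)/x → 1` (`⌊x⌋/x → 1`); the prime `2` contributes `log 2`. -/
def TheStmt : Prop := ∀ κ : ℝ, 0 < κ → ∃ X₀ : ℝ, ∀ X : ℝ, X₀ ≤ X →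
  |∑ p ∈ OP ⌊X⌋₊, Real.log p - X| ≤ κ * X

/-- Module Rgc (large scales; 150 lines). Uses: Sch, Sqf, Chb, Sww.
Proof. `B = bad W D ε X`. SchStmt with `T = OP ⌊X⌋₊`, `φ_d(p) = √(log p) J(d|p)`, `b_p = W_p √(log p)`: `b_p φ_d(p) = W_p J(d|p) log p`; `M = 2 X` (ChbStmt),
`∑ b_p^2 ≤ 2 C^2 X`. SwwStmt with `A = 1/κ + 1`, exponent `2/κ` (a positive number `≥` is enough): `m = d d'`, `|m| ≤ D^2 ≤ (log X)^(2/κ)` because `log X ≥ D^κ`; so
`E = C₁ X/(log X)^(1/κ+1)`, and `|B| ≤ 2 D + 1 ≤ 3 D ≤ 3 (log X)^(1/κ)`, so `E |B| ≤ 3 C₁ X/log X ≤ X` for `D ≥ D₀`. So `|B| ε^2 X^2 ≤ 3 X · 2 C^2 X`, `|B| ≤ 6 C^2/ε^2 = K`. -/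
def RgcStmt : Prop := ∀ C ε κ : ℝ, 0 < C → 0 < ε → 0 < κ → ∃ (K : ℝ) (D₀ : ℕ), 0 < K ∧ ∀ D : ℕ, D₀ ≤ D →
  ∀ W : ℕ → ℝ, Bd W C → ∀ X : ℝ, Real.exp ((D : ℝ) ^ κ) ≤ X → ((bad W D ε X).card : ℝ) ≤ K

/-- Module Bes (mean square, `X → ∞` first; 120 lines). Uses: Sch, Sqf, Sww, The.
Proof. As Rgc with the fixed finite set `S`: `|d| ≤ D` for all `d ∈ S`; SwwStmt with `A = 1`, `B = 1`: `|d d'| ≤ D^2 ≤ log X` for `X ≥ X₀`, `E = C₁ X/log X`, and `E |S| ≤ κ' X` for `X ≥ X₀`;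
`M = (1 + κ') X` and `∑ b_p^2 ≤ C^2 (1 + κ') X` by TheStmt. So `∑_{d ∈ S} SX^2 ≤ (1 + 2κ') (1 + κ') C^2 ≤ C^2 + κ` for small `κ'`. -/
def BesStmt : Prop := ∀ C : ℝ, 0 < C → ∀ S : Finset ℤ, (∀ d ∈ S, Squarefree d) → ∀ κ : ℝ, 0 < κ →
  ∃ X₀ : ℝ, ∀ W : ℕ → ℝ, Bd W C → ∀ X : ℝ, X₀ ≤ X → ∑ d ∈ S, SX W d X ^ 2 ≤ C ^ 2 + κ

/-! ### Part 3. The grid -/

/-- Module Lip (120 lines). Uses: Chb, The.
Proof. `h = min 1 (ε/(4C))`. `X' SX(X') = X SX(X) + ∑_{X < p ≤ X'} W_p J(d|p) log p` (OP ⌊X⌋₊ ⊆ OP ⌊X'⌋₊), so `|SX(X') - SX(X)| ≤ (1 - X/X') |SX(X)| + (C/X') (θ(X') - θ(X))`, where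
`|SX(X)| ≤ 2 C` (ChbStmt), `1 - X/X' ≤ h`, and `θ(X') - θ(X) ≤ θ((1+h)X) - θ(X) ≤ (1 + h) X (1 + κ) - X (1 - κ) ≤ 2 h X` for `κ = h/4`, `X ≥ X₀` (TheStmt for `(1+h) X` and
`X`; θ is the sum over OP). Total `≤ 4 C h ≤ ε`. -/
def LipStmt : Prop := ∀ C ε : ℝ, 0 < C → 0 < ε → ∃ h X₀ : ℝ, 0 < h ∧ h ≤ 1 ∧ 1 ≤ X₀ ∧ ∀ W : ℕ → ℝ, Bd W C →
  ∀ (d : ℤ) (X X' : ℝ), X₀ ≤ X → X ≤ X' → X' ≤ (1 + h) * X → |SX W d X' - SX W d X| ≤ ε

/-- Module Cnt (the union over the grid; 250 lines). Uses: Rga, Rgb, Rgc, Lip.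
Proof. LipStmt for `ε/2` gives `h`, `X₀`. `D ≥ D₀`. Grid `X_j = (log D)^4 (1+h)^j`, `0 ≤ j ≤ J = ⌈D^(1-δ)/log(1+h)⌉`. `(log D)^4 ≥ max 1 X₀`. Every `X` in
`[(log D)^4, exp(D^(1-δ))]` lies in some `[X_j, X_{j+1}]`, `j ≤ J` (`j = ⌊log(X/X_0)/log(1+h)⌋`), and `|SX(X)| > ε` implies `|SX(X_j)| > ε/2`. So the set is contained in the union
of the `bad W D (ε/2) X_j` (Finset.card_biUnion_le). (1) The `j` with `X_j ≤ D^3`: at most `3 log D/log(1+h) + 1`, each set has at most `D^(7/8)` elements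
(RgaStmt). (2) `D^3 < X_j ≤ exp(D^(δ/2))`: at most `D^(δ/2)/log(1+h) + 1` of them, each at most `K D^(δ/2)` elements (RgbStmt). (3) `X_j > exp(D^(δ/2))`: at most
`J + 1` of them, each at most `K'` elements (RgcStmt with `κ = δ/2`). Total at most `c (log D) D^(7/8) + c D^δ + c D^(1-δ) ≤ D^(1-δ/2)` for
`D ≥ D₀`, since `δ ≤ 1/8` (`1 - δ/2 ≥ 15/16 > 7/8`, `δ < 1 - δ/2`). -/
def CntStmt : Prop := ∀ C ε δ : ℝ, 0 < C → 0 < ε → 0 < δ → δ ≤ 1 / 8 → ∃ D₀ : ℕ, ∀ D : ℕ, D₀ ≤ D →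
  ∀ W : ℕ → ℝ, Bd W C → (((Sq D).filter (fun d => ∃ X : ℝ, Real.log D ^ 4 ≤ X ∧
    X ≤ Real.exp ((D : ℝ) ^ (1 - δ)) ∧ ε < |SX W d X|)).card : ℝ) ≤ (D : ℝ) ^ (1 - δ / 2)

/-- the range of `X`: `(log |d|)^5 ≤ X ≤ exp(|d|^(1-δ))` -/
def InR (δ : ℝ) (d : ℤ) (X : ℝ) : Prop :=
  Real.log |(d : ℝ)| ^ 5 ≤ X ∧ X ≤ Real.exp (|(d : ℝ)| ^ (1 - δ))

/-- Module Fix (from `D` to `|d|`; 120 lines). Uses: Cnt.
Proof. `δ' = min δ (1/8)`, `η = δ'/4`. Let `d ∈ Sq N` with `|d| ≥ √N` and `X` in the range of `d`: `X ≥ (log|d|)^5 ≥ ((log N)/2)^5 ≥ (log N)^4` if `log N ≥ 32`, and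
`X ≤ exp(|d|^(1-δ)) ≤ exp(|d|^(1-δ')) ≤ exp(N^(1-δ'))` (`1 ≤ |d| ≤ N`). So `d` is in the set of CntStmt for `D = N`, `δ'`. The `d` with `|d| < √N` are at most `2√N + 1` in number. Total
`≤ N^(1-δ'/2) + 2 √N + 1 ≤ N^(1-δ'/4)` for `N ≥ N₀`. -/
def FixStmt : Prop := ∀ C ε δ : ℝ, 0 < C → 0 < ε → 0 < δ → δ < 1 → ∃ η : ℝ, 0 < η ∧ ∃ N₀ : ℕ, ∀ N : ℕ, N₀ ≤ N →
  ∀ W : ℕ → ℝ, Bd W C → (((Sq N).filter (fun d => ∃ X : ℝ, InR δ d X ∧ ε < |SX W d X|)).card : ℝ) ≤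
    (N : ℝ) ^ (1 - η)

/-! ### Part 4. Elliptic curves -/

/-- Module Tws (the averages of a twist; 150 lines). Uses: nothing.
Proof. `p` odd. If `p ∣ d` both coefficients vanish modulo `p`, the fibre `y^2 = x^3` has exactly `p` points for every `t` (for `x = s^2`, `y = s^3`: the map `s ↦ (s^2, s^3)` is a bijection), and
`J(d|p) = 0`: both sides are `0`. Let `p ∤ d`. The number of solutions for `t` is `∑_x (1 + χ(x^3 + A x + B))` with the quadratic character `χ` of `ZMod p` (quadraticChar_card_sqrts; first replace the pairs in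
`range p × range p` by pairs in `ZMod p`), so `p - #  = -∑_x χ(x^3 + A(t) x + B(t))`. For the twist, `x = d u`: `x^3 + d^2 A x + d^3 B = d^3 (u^3 + A u + B)`,
`χ(d^3) = χ(d) = J(d|p)` (jacobiSym.legendreSym.to_jacobiSym), so the difference `p - #` for the twist is `J(d|p)` times the one for `E`. -/
def TwsStmt : Prop := ∀ (A B : ℤ[X]) (d : ℤ) (p : ℕ), p.Prime → p ≠ 2 →
  Av (twA d A) (twB d B) p = jc d p * Av A B p

/-- Module Nss (40 lines). Uses: Tws.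
Proof. `NS(twist) = -(1/X) (A_2(twist) log 2 [if X ≥ 2] + ∑_{p ∈ OP} J(d|p) A_p(E) log p)` by TwsStmt, the second part is `-SX (Av A B) d X`. `|A_2| ≤ 4`: every term
`2 - #` of the average is in `[-2, 2]` (`0 ≤ # ≤ 4`), and `log 2 ≤ 1`. -/
def NssStmt : Prop := ∀ (A B : ℤ[X]) (d : ℤ) (X : ℝ), 1 ≤ X →
  |NS (twA d A) (twB d B) X + SX (Av A B) d X| ≤ 4 / X

/-- Module One (almost all twists; 80 lines). Uses: Fix, Nss.
Proof. FixStmt for `W = Av A B`, `C` (wlog `C > 0`, replace by `max C 1`), `ε/2`, `δ`. For `|d| ≥ d₁(ε)` and `X` in the range: `X ≥ (log|d|)^5 ≥ max 1 (8/ε)`, so `|NS| ≤ |SX| + ε/2`. The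
`d` with `|d| < d₁` are at most `2 d₁ + 1` in number. Total `≤ N^(1-η') + 2 d₁ + 1 ≤ N^(1-η'/2)` for large `N`, where `η' = min η (1/2)`. -/
def OneStmt : Prop := ∀ A B : ℤ[X], (∃ C : ℝ, ∀ p : ℕ, p.Prime → |Av A B p| ≤ C) → ∀ ε δ : ℝ, 0 < ε → 0 < δ → δ < 1 →
  ∃ η : ℝ, 0 < η ∧ ∃ N₀ : ℕ, ∀ N : ℕ, N₀ ≤ N →
    (((Sq N).filter (fun d => ∃ X : ℝ, InR δ d X ∧ ε < |NS (twA d A) (twB d B) X|)).card : ℝ) ≤ (N : ℝ) ^ (1 - η)

/-- Module Two (mean square; 60 lines). Uses: Bes, Nss.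
Proof. BesStmt for `C` replaced by `C + κ'`, and `|NS| ≤ |SX| + 4/X`, `(|SX| + 4/X)^2 ≤ SX^2 + 8 |SX|/X + 16/X^2` with `|SX| ≤ C + 1` for large `X`. -/
def TwoStmt : Prop := ∀ (A B : ℤ[X]) (C : ℝ), (∀ p : ℕ, p.Prime → |Av A B p| ≤ C) → ∀ S : Finset ℤ,
  (∀ d ∈ S, Squarefree d) → ∀ κ : ℝ, 0 < κ → ∃ X₀ : ℝ, ∀ X : ℝ, X₀ ≤ X →
    ∑ d ∈ S, NS (twA d A) (twB d B) X ^ 2 ≤ C ^ 2 + κ

/-! ### Part 5. Boundedness for `D y^2 = x^3 + a x + b` -/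

/-- Module Ncs (not a constant times a square modulo almost all primes; 200 lines). Uses: nothing.
Proof. `f ≠ 0` (`c = 0`). In `ℚ[X]` some irreducible factor of `f` has odd multiplicity (otherwise `f` is a constant times a square: unique factorization). Clearing denominators there are
`r ∈ ℤ[X]` irreducible over `ℚ` (so not constant), `e` odd, `s ∈ ℤ[X]`, `c ≠ 0` an integer with `c f = r^e s` in `ℤ[X]` and `r`, `s` coprime over `ℚ`. `r` is separable over `ℚ`, so `r` is coprime to `r' s`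
over `ℚ`: there are `u, v ∈ ℤ[X]` and `N₁ ≠ 0` with `u r + v r' s = N₁`. Let `N = N₁ · c · lc(r)`. Let `p ∤ N` and suppose `f = x g^2` modulo `p`. Modulo `p` the polynomial `r̄` is not constant (`p ∤ lc(r)`); let `π` be an
irreducible factor of `r̄`. `r̄` is coprime to `r̄'` and to `s̄`, so the multiplicity of `π` in `r̄` is `1` and in `s̄` is `0`, and the multiplicity of `π` in `c f = r^e s` modulo `p`
(nonzero) is `e`, odd; in `c x g^2` it is even (`x ≠ 0`, `g ≠ 0`; emultiplicity / Polynomial.rootMultiplicity over the algebraic closure may be simpler: take a root `ρ` of `r̄` in an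
algebraic closure, it is a simple root of `r̄` and no root of `s̄`, so its root multiplicity in `r̄^e s̄` is `e`). -/
def NcsStmt : Prop := ∀ f : ℤ[X], NCS f → ∃ N : ℤ, N ≠ 0 ∧ ∀ p : ℕ, p.Prime → ¬ (p : ℤ) ∣ N →
  ∀ (x : ZMod p) (g : (ZMod p)[X]), f.map (Int.castRingHom (ZMod p)) ≠ C x * g ^ 2

/-- Module Wbd (Weil bound, any constant; 150 lines). Uses: Ncs, ChrH.
Proof. `m = f.natDegree ≥ 1` (a constant is a constant times the square of `1`). For `p` odd, `p ∤ N · lc(f)` and `p > 20 m + 16` let `f̄` be the reduction, `f̄ = lc · f₁` with `f₁` monic of degree `m`, not a constant times a square; `∑ χ(f̄(y)) = χ(lc) ∑ χ(f₁(y))`, ChrH: at most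
`15 m √p` (`Nat.sqrt p ≤ √p`). For the finitely many other primes the sum is at most `p`: take the maximum of the `p/√p` over them. -/
def WbdStmt : Prop := ∀ f : ℤ[X], NCS f → ∃ C : ℝ, 0 ≤ C ∧ ∀ (p : ℕ) [Fact p.Prime], p ≠ 2 →
  |((∑ y : ZMod p, quadraticChar (ZMod p) ((f.map (Int.castRingHom (ZMod p))).eval y) : ℤ) : ℝ)| ≤ C * Real.sqrt p

/-- Module Fac (the averages of the isotrivial family; 120 lines). Uses: nothing.
Proof. As in Tws: `p - # = -∑_{x ∈ ZMod p} χ(x^3 + a D(t)^2 x + b D(t)^3)`. If `D(t) = 0` this is `-∑ χ(x^3) = -∑ χ(x) = 0` (quadraticChar_sum_zero), and `χ(D(t)) = 0`. If `D(t) ≠ 0` put `x = D(t) u`: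
`-χ(D(t)^3) ∑_u χ(u^3 + a u + b) = -χ(D(t)) ∑_u χ(u^3 + a u + b)`. Sum over `t ∈ range p`, i.e. over `ZMod p` (evaluation of `D` at `t`
modulo `p` is the evaluation of the reduction: Polynomial.eval_intCast_map or eval₂). -/
def FacStmt : Prop := ∀ (a b : ℤ) (D : ℤ[X]) (p : ℕ) [Fact p.Prime], p ≠ 2 →
  Av (C a * D ^ 2) (C b * D ^ 3) p = -(1 / (p : ℝ)) *
    ((∑ t : ZMod p, quadraticChar (ZMod p) ((D.map (Int.castRingHom (ZMod p))).eval t) : ℤ) : ℝ) *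
    ((∑ u : ZMod p, quadraticChar (ZMod p)
      (((X ^ 3 + C a * X + C b : ℤ[X]).map (Int.castRingHom (ZMod p))).eval u) : ℤ) : ℝ)

/-- Module Bdd (50 lines). Uses: Wbd, Fac.
Proof. `X^3 + a X + b` has odd degree `3`, so it is not a constant times a square (NCS: the degree of `c g^2` is even or the polynomial is `0`). WbdStmt for `D` and for
`X^3 + a X + b`, FacStmt: `|Av| ≤ (1/p) C₁ √p C₂ √p = C₁ C₂` for odd `p`; `|Av| ≤ 4` for `p = 2` (as in Nss). -/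
def BddStmt : Prop := ∀ (a b : ℤ) (D : ℤ[X]), NCS D →
  ∃ K : ℝ, ∀ p : ℕ, p.Prime → |Av (C a * D ^ 2) (C b * D ^ 3) p| ≤ K

end Pool.Agent.Lib.NagA
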