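import Pool.Agent.Lib.MP_60fb2a_nt.An.Spec

/-!
MP_60fb2a_nt, directory An, second part (architect helper13): logarithmic averages, range up to
`exp(exp(|d|^(1-δ)))`. RULES as in Spec.lean (the first line of the modules of this part is
`import Pool.Agent.Lib.MP_60fb2a_nt.An.SpecL`).
-/

set_option autoImplicit false

namespace Pool.Agent.Lib.NagA

open Polynomial Finset Classical

/-- the twisted logarithmic average `(1/log X) ∑_{2 < p ≤ X} W(p) J(d|p) (log p)/p` -/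
noncomputable def SL (W : ℕ → ℝ) (d : ℤ) (X : ℝ) : ℝ :=
  (1 / Real.log X) * ∑ p ∈ OP ⌊X⌋₊, W p * jc d p * (Real.log p / p)

/-- Module Mrt (Mertens, upper bound; 120 lines). Uses: Chb.
Proof. `θ(n) = ∑_{p ∈ OP n} log p ≤ 2 n` (ChbStmt; `n = 0` clear). With `n₀ = ⌊Y⌋₊`, `N = ⌊Z⌋₊` (if `N = n₀` the sum is empty) Abel summation gives
`∑_{n₀ < p ≤ N} (log p)/p = θ(N)/N - θ(n₀)/(n₀+1) + ∑_{n=n₀+1}^{N-1} θ(n)/(n(n+1)) ≤ 2 + 2 ∑_{n=n₀+1}^{N-1} 1/(n+1) ≤ 2 + 2 log(N/(n₀+1)) ≤ 2 + 2 log(Z/Y)`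
(`1/(n+1) ≤ log(n+1) - log n`, `Y < n₀ + 1`). For natural `p`: `Y < p` iff `n₀ < p`. -/
def MrtStmt : Prop := ∀ Y Z : ℝ, 1 ≤ Y → Y ≤ Z →
  ∑ p ∈ (OP ⌊Z⌋₊).filter (fun p : ℕ => Y < (p : ℝ)), Real.log p / p ≤ 2 + 2 * Real.log (Z / Y)

/-- Module Swl (character sums with the weights `(log p)/p`; 200 lines). Uses: Sww, Mrt.
Proof. `z = exp(D^(κ/2))`. The primes `p ≤ z` contribute at most `∑_{p ≤ z} (log p)/p ≤ 2 + 2 D^(κ/2)` (MrtStmt with `Y = 1`). Let `Θ(n) = ∑_{p ∈ OP n} J(m|p) log p`. SwwStmt with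
`A = 2`, `B = 4/κ`: for `n ≥ z` (or `n ≥ ⌊z⌋₊ + 1`): `|m| ≤ D^2 = (log z)^(4/κ) ≤ (log n)^(4/κ)`, so `|Θ(n)| ≤ C₁ n/(log n)^2`, and also `|Θ(n)| ≤ 2 n` always (ChbStmt is not needed if you use
`|Θ(⌊z⌋)| ≤ |Θ(⌊z⌋+1)| + log(⌊z⌋+1)`; or apply SwwStmt at the real number `z`: `⌊z⌋₊` gives the same sum). Abel summation with `n₀ = ⌊z⌋₊`, `N = ⌊x⌋₊`:
`∑_{n₀ < p ≤ N} J(m|p) (log p)/p = Θ(N)/N - Θ(n₀)/(n₀+1) + ∑_{n=n₀+1}^{N-1} Θ(n)/(n(n+1))`, at most `2 C₁ + C₁ ∑_{n ≥ 3} 1/(n (log n)^2) ≤ C₂` in absolute value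
(`1/(n (log n)^2) ≤ 1/log(n-1) - 1/log n` telescopes, for `n ≥ 4`). Total `≤ 2 + 2 D^(κ/2) + C₂ ≤ 3 D^(κ/2)` for `D ≥ D₀`. -/
def SwlStmt : Prop := ∀ κ : ℝ, 0 < κ → ∃ D₀ : ℕ, ∀ D : ℕ, D₀ ≤ D → ∀ m : ℤ, ¬ IsSquare m → |(m : ℝ)| ≤ (D : ℝ) ^ 2 →
  ∀ x : ℝ, Real.exp ((D : ℝ) ^ κ) ≤ x → |∑ p ∈ OP ⌊x⌋₊, jc m p * (Real.log p / p)| ≤ 3 * (D : ℝ) ^ (κ / 2)

/-- Module Lgc (large scales; 180 lines). Uses: Sch, Sqf, Mrt, Swl.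
Proof. `K = 12 C^2/ε^2 + 1`. Suppose the set has more than `K` elements and let `B'` be a subset with `K' = ⌊K⌋₊ + 1` elements (Finset.exists_subset_card_eq). SchStmt with
`φ_d(p) = √((log p)/p) J(d|p)`, `b_p = W_p √((log p)/p)`, `M = 2 + 2 log X ≤ 3 log X` (MrtStmt with `Y = 1`; `log X ≥ 2`), `∑ b_p^2 ≤ 3 C^2 log X`, `E = 3 D^(κ/2)` (SwlStmt with `m = d d'`):
`K' ε^2 (log X)^2 ≤ (3 log X + 3 D^(κ/2) K') 3 C^2 log X`. `log X ≥ D^κ`, so `3 D^(κ/2) K' ≤ log X` for `D ≥ D₀(K')`, and `K' ≤ 12 C^2/ε^2`: a contradiction. -/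
def LgcStmt : Prop := ∀ C ε κ : ℝ, 0 < C → 0 < ε → 0 < κ → ∃ (K : ℝ) (D₀ : ℕ), 0 < K ∧ ∀ D : ℕ, D₀ ≤ D →
  ∀ W : ℕ → ℝ, Bd W C → ∀ X : ℝ, Real.exp ((D : ℝ) ^ κ) ≤ X →
    (((Sq D).filter (fun d => ε < |SL W d X|)).card : ℝ) ≤ K

/-- Module Lgl (120 lines). Uses: Mrt.
Proof. `h = min 1 (ε/(10 C))`, `X₀` large. `log X' SL(X') = log X SL(X) + ∑_{X < p ≤ X'} W_p J(d|p) (log p)/p`, so `|SL(X') - SL(X)| ≤ (1 - log X/log X') |SL(X)| + (C/log X') (2 + 2 log(X'/X))`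
(MrtStmt), `|SL(X)| ≤ C (2 + 2 log X)/log X ≤ 3 C`, `1 - log X/log X' ≤ h`, `log(X'/X) ≤ h log X`. Total `≤ 3 C h + 2 C/log X + 2 C h ≤ ε`. -/
def LglStmt : Prop := ∀ C ε : ℝ, 0 < C → 0 < ε → ∃ h X₀ : ℝ, 0 < h ∧ h ≤ 1 ∧ 2 ≤ X₀ ∧ ∀ W : ℕ → ℝ, Bd W C →
  ∀ (d : ℤ) (X X' : ℝ), X₀ ≤ X → X ≤ X' → X' ≤ X ^ (1 + h) → |SL W d X' - SL W d X| ≤ ε

/-- Module Lgt (grid; 150 lines). Uses: Lgc, Lgl.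
Proof. LglStmt for `ε/2`. Grid `X_j = exp(D^κ (1+h)^j)`, `0 ≤ j ≤ J = ⌈D^(1-δ)/log(1+h)⌉` (`X_{j+1} = X_j^(1+h)`). Every `X` in the range is in some `[X_j, X_{j+1}]`, so the set is contained in the union of the
`J + 1` sets `{ε/2 < |SL W d X_j|}`, each with at most `K` elements (LgcStmt). `(J + 1) K ≤ D^(1-δ/2)` for `D ≥ D₀`. -/
def LgtStmt : Prop := ∀ C ε κ δ : ℝ, 0 < C → 0 < ε → 0 < κ → 0 < δ → δ < 1 → ∃ D₀ : ℕ, ∀ D : ℕ, D₀ ≤ D →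
  ∀ W : ℕ → ℝ, Bd W C → (((Sq D).filter (fun d => ∃ X : ℝ, Real.exp ((D : ℝ) ^ κ) ≤ X ∧
    X ≤ Real.exp (Real.exp ((D : ℝ) ^ (1 - δ))) ∧ ε < |SL W d X|)).card : ℝ) ≤ (D : ℝ) ^ (1 - δ / 2)

/-- Module Lab (from averages to logarithmic averages; 120 lines). Uses: Chb.
Proof. `f(p) = W_p J(d|p) log p`, `F(n) = ∑_{p ∈ OP n} f(p) = n SX(n)` for `n ≥ 1`. Abel summation with `N = ⌊X⌋₊ ≥ 1`: `∑_{p ∈ OP N} f(p)/p = F(N)/N + ∑_{n=1}^{N-1} F(n)/(n(n+1)) = SX(N) + ∑_{n=1}^{N-1} SX(n)/(n+1)`.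
`|SX(n)| ≤ 2 C` (ChbStmt). The `n < Y` contribute at most `2 C ∑_{n < Y} 1/(n+1) ≤ 2 C (1 + log Y)`, the `n ≥ Y` at most `ε ∑_{n < N} 1/(n+1) ≤ ε log N ≤ ε log X`. -/
def LabStmt : Prop := ∀ (C ε Y X : ℝ) (W : ℕ → ℝ) (d : ℤ), 0 < C → 0 ≤ ε → 1 ≤ Y → Y ≤ X → Bd W C →
  (∀ t : ℝ, Y ≤ t → t ≤ X → |SX W d t| ≤ ε) →
  |∑ p ∈ OP ⌊X⌋₊, W p * jc d p * (Real.log p / p)| ≤ 2 * C + 2 * C * (1 + Real.log Y) + ε * Real.log X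

/-- Module Llo (low range; 100 lines). Uses: Cnt, Lab.
Proof. CntStmt for `ε/2`, `δ`. Let `d ∈ Sq D` be outside of its set: `|SX(t)| ≤ ε/2` for `(log D)^4 ≤ t ≤ exp(D^(1-δ))`. For `√D ≤ X ≤ exp(D^(1-δ))` LabStmt with `Y = (log D)^4 ≤ √D`:
`|SL(X)| ≤ (4 C + 8 C loglog D)/log X + ε/2 ≤ ε`, since `log X ≥ (log D)/2` and `loglog D/log D → 0`. -/
def LloStmt : Prop := ∀ C ε δ : ℝ, 0 < C → 0 < ε → 0 < δ → δ ≤ 1 / 8 → ∃ D₀ : ℕ, ∀ D : ℕ, D₀ ≤ D →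
  ∀ W : ℕ → ℝ, Bd W C → (((Sq D).filter (fun d => ∃ X : ℝ, Real.sqrt D ≤ X ∧
    X ≤ Real.exp ((D : ℝ) ^ (1 - δ)) ∧ ε < |SL W d X|)).card : ℝ) ≤ (D : ℝ) ^ (1 - δ / 2)

/-- the range of `X` for the logarithmic averages: `|d| ≤ X ≤ exp(exp(|d|^(1-δ)))` -/
def InL (δ : ℝ) (d : ℤ) (X : ℝ) : Prop :=
  |(d : ℝ)| ≤ X ∧ X ≤ Real.exp (Real.exp (|(d : ℝ)| ^ (1 - δ)))

/-- Module Lfx (120 lines). Uses: Llo, Lgt.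
Proof. `δ' = min δ (1/8)`, `η = δ'/4`. Let `d ∈ Sq N`, `|d| ≥ √N`, `X` in the range InL of `d`: `X ≥ |d| ≥ √N` and `X ≤ exp(exp(|d|^(1-δ))) ≤ exp(exp(N^(1-δ')))`. Either `X ≤ exp(N^(1-δ'))` and `d` is in the
set of LloStmt, or `X > exp(N^(1-δ')) ≥ exp(N^(1/2))` and `d` is in the set of LgtStmt with `κ = 1/2` (both with `D = N`, `δ'`). The `d` with `|d| < √N` are at most `2√N + 1`. Total `≤ 2 N^(1-δ'/2) + 2 √N + 1 ≤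
N^(1-δ'/4)`. -/
def LfxStmt : Prop := ∀ C ε δ : ℝ, 0 < C → 0 < ε → 0 < δ → δ < 1 → ∃ η : ℝ, 0 < η ∧ ∃ N₀ : ℕ, ∀ N : ℕ, N₀ ≤ N →
  ∀ W : ℕ → ℝ, Bd W C → (((Sq N).filter (fun d => ∃ X : ℝ, InL δ d X ∧ ε < |SL W d X|)).card : ℝ) ≤
    (N : ℝ) ^ (1 - η)

/-- Module Nls (40 lines). Uses: Tws.
Proof. As Nss: `NL(twist) = -(1/log X) (A_2(twist) (log 2)/2 [if X ≥ 2]) - SL`, `|A_2| ≤ 4` (even `≤ 2`), `(log 2)/2 ≤ 1`. -/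
def NlsStmt : Prop := ∀ (A B : ℤ[X]) (d : ℤ) (X : ℝ), 1 < X →
  |NL (twA d A) (twB d B) X + SL (Av A B) d X| ≤ 4 / Real.log X

/-- Module Thr (almost all twists, logarithmic averages; 80 lines). Uses: Lfx, Nls.
Proof. As One: LfxStmt for `W = Av A B`, `ε/2`; for `|d| ≥ d₁(ε)`: `log X ≥ log |d| ≥ 8/ε`. -/
def ThrStmt : Prop := ∀ A B : ℤ[X], (∃ C : ℝ, ∀ p : ℕ, p.Prime → |Av A B p| ≤ C) → ∀ ε δ : ℝ, 0 < ε → 0 < δ → δ < 1 →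
  ∃ η : ℝ, 0 < η ∧ ∃ N₀ : ℕ, ∀ N : ℕ, N₀ ≤ N →
    (((Sq N).filter (fun d => ∃ X : ℝ, InL δ d X ∧ ε < |NL (twA d A) (twB d B) X|)).card : ℝ) ≤ (N : ℝ) ^ (1 - η)

end Pool.Agent.Lib.NagA
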